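import Mathlib
import Pool.Agent.Lib.MP_2805c2_an.SQ.Iface
import Pool.Agent.Lib.MP_2805c2_an.SQ.Drum

set_option autoImplicit false

/-!
# Almost all quadrilaterals: the statements of the modules (proofs on paper: ST/Paper.md)

Convention: module `XYZ` = file `ST/Xyz.lean`, containing
`theorem xyz (h1 : AbcStatement) (h2 : ...) : XyzStatement` (the used statements as hypotheses),
in the namespace `Pool.SqDrum`. The used statements may come from `SQ/Iface.lean` (all of them are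
proved) or from this file.
-/

namespace Pool.SqDrum

open MeasureTheory Set Filter Topology
open scoped ENNReal ContDiff InnerProductSpace

noncomputable section

/-! ## definitions -/

/-- the bilinear map with the parameters `z` -/
def bz (z : Z5) : P2 → P2 := bil 0 (va z) (vb z) (vw z)

/-- the vertices of `dom z` -/
def vz (z : Z5) (i : Fin 4) : P2 := bz z (cor i)

/-- the area of `dom z` -/
def ar (z : Z5) : ℝ := det2 (va z) (vb z)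

/-- the parameters of the convex quadrilaterals -/
def WW : Set Z5 :=
  {z | 0 < 1 + z 0 ∧ |det2 (va z) (vw z)| + |det2 (vw z) (vb z)| < 2 * ar z}

/-- the reference triangle -/
def D0 : Set P2 := {x | x ∈ D ∧ x.1 + x.2 < 0}

/-- rotations -/
def rot (c s : ℝ) (x : P2) : P2 := (c * x.1 - s * x.2, s * x.1 + c * x.2)

/-- the traces `∑ (λ + 1)⁻²ᵐ` of the spectrum of `Ω` -/
def Tr (Ω : Set P2) (m : ℕ) : ℝ≥0∞ := hs ((res Ω) ^ m)

/-- the isospectral convex quadrilaterals -/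
def Part (Ω : Set P2) : Set Z5 := {z | z ∈ WW ∧ IsoSp Ω (dom z)}

/-! ## 1. Geometry -/

/-- WOP: the parameter space -/
def WopStatement : Prop := IsOpen WW ∧ IsPreconnected WW ∧ (0 : Z5) ∈ WW

/-- WCC: the vertices of `dom z` -/
def WccStatement : Prop :=
  (∀ z : Z5, qc (vz z) = 0 ∧ qa (vz z) = va z ∧ qb (vz z) = vb z ∧ qw (vz z) = vw z) ∧
  (∀ z ∈ WW, Ccw (vz z) ∧ dom z = quad (vz z) ∧ volume.real (dom z) = ar z ∧ 0 < ar z)

/-- WDF: the change of variables -/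
def WdfStatement : Prop :=
  (∀ z : Z5, (fun x => fderiv ℝ (bz z) x (1, 0)) = px z ∧
    (fun x => fderiv ℝ (bz z) x (0, 1)) = py z) ∧
  (∀ z ∈ WW, ∀ Ω₀ : Set P2, IsOpen Ω₀ → Ω₀ ⊆ D → Diffeo (bz z) Ω₀ (bz z '' Ω₀) ∧
    IsOpen (bz z '' Ω₀) ∧ Bornology.IsBounded (bz z '' Ω₀))

/-- PLR: polar decomposition -/
def PlrStatement : Prop :=
  ∀ a b : P2, 0 < det2 a b → ∃ (c s : ℝ) (z : Z5), c ^ 2 + s ^ 2 = 1 ∧ 0 < 1 + z 0 ∧
    z 3 = 0 ∧ z 4 = 0 ∧ rot c s (va z) = a ∧ rot c s (vb z) = b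

/-- WNF: normal form of a convex quadrilateral -/
def WnfStatement : Prop :=
  ∀ q : Fin 4 → P2, Ccw q → ∃ (c s : ℝ) (t : P2) (z : Z5), c ^ 2 + s ^ 2 = 1 ∧ z ∈ WW ∧
    ∀ i, q i = t + rot c s (vz z i)

/-- RIG: rigid motions and convex hulls -/
def RigStatement : Prop :=
  ∀ (n : ℕ) (p q : Fin n → P2) (c s : ℝ) (t : P2), c ^ 2 + s ^ 2 = 1 →
    (∀ i, q i = t + rot c s (p i)) →
    Cong (interior (convexHull ℝ (Set.range p))) (interior (convexHull ℝ (Set.range q)))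

/-- CNG: congruent sets -/
def CngStatement : Prop :=
  (∀ Ω Ω' : Set P2, Cong Ω Ω' → Cong Ω' Ω) ∧
  (∀ Ω Ω' Ω'' : Set P2, Cong Ω Ω' → Cong Ω' Ω'' → Cong Ω Ω'') ∧
  (∀ Ω Ω' : Set P2, IsOpen Ω → Cong Ω Ω' → IsoSp Ω Ω')

/-- CGD: congruent quadrilaterals have the same distances -/
def CgdStatement : Prop :=
  ∀ p q : Fin 4 → P2, Ccw p → Ccw q → Cong (quad p) (quad q) →
    ∃ π : Equiv.Perm (Fin 4), ∀ i j, dot2 (q i - q j) (q i - q j) =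
      dot2 (p (π i) - p (π j)) (p (π i) - p (π j))

/-- DDZ: the distances determine the parameters -/
def DdzStatement : Prop :=
  ∀ z z' : Z5, 0 < 1 + z 0 → 0 < 1 + z' 0 → 0 < ar z → 0 < ar z' →
    (∀ i j, dot2 (vz z i - vz z j) (vz z i - vz z j) =
      dot2 (vz z' i - vz z' j) (vz z' i - vz z' j)) → z = z'

/-- WCG: finitely many parameters for a congruence class -/
def WcgStatement : Prop := ∀ z ∈ WW, {z' | z' ∈ WW ∧ Cong (dom z) (dom z')}.Finite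

/-- CTR: the centre is in the domain -/
def CtrStatement : Prop := ∀ z : Z5, 0 < ar z → (0 : P2) ∈ quad (vz z)

/-- SND: nearby quadrilaterals contain, and are contained in, scaled copies -/
def SndStatement : Prop :=
  ∀ v : Fin 4 → P2, (0 : P2) ∈ quad v → ∀ ε : ℝ, 0 < ε → ∀ᶠ v' in 𝓝 v,
    quad v' ⊆ (fun x => (1 + ε) • x) '' quad v ∧ quad v ⊆ (fun x => (1 + ε) • x) '' quad v'

/-- DEG: a degenerate quadrilateral is a triangle -/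
def DegStatement : Prop :=
  ∀ z : Z5, 0 < ar z → |det2 (va z) (vw z)| + |det2 (vw z) (vb z)| = 2 * ar z →
    ∃ u : Fin 3 → P2, 0 < det2 (u 1 - u 0) (u 2 - u 0) ∧
      quad (vz z) = interior (convexHull ℝ (Set.range u))

/-- TRE: all triangles -/
def TreStatement : Prop :=
  ∀ u : Fin 3 → P2, 0 < det2 (u 1 - u 0) (u 2 - u 0) → ∃ z ∈ WW, z 3 = 0 ∧ z 4 = 0 ∧
    Cong (interior (convexHull ℝ (Set.range u))) (bz z '' D0)

/-! ## 2. Analyticity of the traces -/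

/-- WAN: analyticity of the coefficients -/
def WanStatement : Prop :=
  ∀ z₀ ∈ WW, AnalyticAt ℝ (fun z : Z5 => mul (D.indicator (c11 (px z) (py z)))) z₀ ∧
    AnalyticAt ℝ (fun z : Z5 => mul (D.indicator (c12 (px z) (py z)))) z₀ ∧
    AnalyticAt ℝ (fun z : Z5 => mul (D.indicator (c22 (px z) (py z)))) z₀ ∧
    AnalyticAt ℝ (fun z : Z5 => mul (D.indicator (jc (px z) (py z)))) z₀

/-- WFR: analyticity of the operators -/
def WfrStatement : Prop :=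
  (∀ (Ω₀ : Set P2) (p q : P2 → P2), mss Ω₀ p q =
    (co Ω₀ 0).adjoint.comp ((mul (Ω₀.indicator (jc p q))).comp (co Ω₀ 0))) ∧
  (∀ Ω₀ : Set P2, MeasurableSet Ω₀ → Ω₀ ⊆ D → ∀ z₀ ∈ WW,
    AnalyticAt ℝ (fun z : Z5 => mul (Ω₀.indicator (jc (px z) (py z)))) z₀ ∧
    AnalyticAt ℝ (fun z : Z5 => stf Ω₀ (px z) (py z)) z₀ ∧
    AnalyticAt ℝ (fun z : Z5 => mss Ω₀ (px z) (py z)) z₀)

/-- WIN: the inverse operator -/
def WinStatement : Prop :=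
  ∀ Ω₀ : Set P2, IsOpen Ω₀ → Ω₀ ⊆ D → ∃ N : Z5 → (H Ω₀ →L[ℝ] H Ω₀), ∀ z ∈ WW,
    AnalyticAt ℝ N z ∧
    (stf Ω₀ (px z) (py z) + mss Ω₀ (px z) (py z)).comp (N z) = ContinuousLinearMap.id ℝ (H Ω₀) ∧
    (N z).comp (stf Ω₀ (px z) (py z) + mss Ω₀ (px z) (py z)) = ContinuousLinearMap.id ℝ (H Ω₀)

/-- EBA: eigenbases -/
def EbaStatement : Prop :=
  ∀ Ω : Set P2, IsOpen Ω → Bornology.IsBounded Ω →
    ∃ (ι : Type) (b : HilbertBasis ι ℝ (H Ω)) (s : ι → ℝ), (∀ i, 0 < s i) ∧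
      (∀ i, T Ω (b i) = s i • b i) ∧
      ∀ m : ℕ, 0 < m → Summable (fun i => s i ^ (2 * m)) ∧
        Tr Ω m = ENNReal.ofReal (∑' i, s i ^ (2 * m))

/-- HSM: Hilbert–Schmidt operators as square summable families -/
def HsmStatement : Prop :=
  ∀ (E : Type) [NormedAddCommGroup E] [InnerProductSpace ℝ E] [CompleteSpace E]
    (c : E →L[ℝ] L2) (ι : Type) (b : HilbertBasis ι ℝ E) (s : ι → ℝ), (∀ i, 0 < s i) →
    (∀ i, c.adjoint (c (b i)) = s i • b i) → Summable (fun i => s i ^ 2) →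
    ∃ U V : (L2 →L[ℝ] L2) →L[ℝ] (E →L[ℝ] E) →L[ℝ] lp (fun _ : ι => E) 2, ∀ M X i,
      (U M X : ι → E) i = c.adjoint (M (c (X (b i)))) ∧
      (V M X : ι → E) i = (c.adjoint.comp (M.comp (c.comp X))).adjoint (b i)

/-- TRA: the trace and changes of the scalar product -/
def TraStatement : Prop :=
  ∀ (E E' : Type) [NormedAddCommGroup E] [InnerProductSpace ℝ E] [CompleteSpace E]
    [NormedAddCommGroup E'] [InnerProductSpace ℝ E'] [CompleteSpace E'] (V : E ≃L[ℝ] E')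
    (R : E' →L[ℝ] E') (ι ι' : Type) (b : HilbertBasis ι ℝ E) (e : HilbertBasis ι' ℝ E')
    (K : E →L[ℝ] E), (∀ x y, ⟪R x, y⟫_ℝ = ⟪x, R y⟫_ℝ) → Summable (fun j => ‖R (e j)‖ ^ 2) →
    (∀ y, K ((V : E →L[ℝ] E').adjoint y) = (V : E →L[ℝ] E').adjoint (R y)) →
    HasSum (fun i => ⟪K (b i), K.adjoint (b i)⟫_ℝ) (∑' j, ‖R (e j)‖ ^ 2)

/-- VTR: the change of variables as a linear equivalence -/
def VtrStatement : Prop :=
  ∀ (Φ : P2 → P2) (Ω Ω' : Set P2), Diffeo Φ Ω Ω' → ∃ V : H Ω ≃L[ℝ] H Ω', ∀ F G : H Ω,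
    ⟪V F, V G⟫_ℝ =
      ⟪(stf Ω (fun x => fderiv ℝ Φ x (1, 0)) (fun x => fderiv ℝ Φ x (0, 1)) +
        mss Ω (fun x => fderiv ℝ Φ x (1, 0)) (fun x => fderiv ℝ Φ x (0, 1))) F, G⟫_ℝ ∧
    ⟪T Ω' (V F), V G⟫_ℝ =
      ⟪mss Ω (fun x => fderiv ℝ Φ x (1, 0)) (fun x => fderiv ℝ Φ x (0, 1)) F, G⟫_ℝ

/-- GAN: the traces are analytic -/
def GanStatement : Prop :=
  ∀ Ω₀ : Set P2, IsOpen Ω₀ → Ω₀ ⊆ D → ∀ m : ℕ, 0 < m → ∃ g : Z5 → ℝ, ∀ z ∈ WW,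
    AnalyticAt ℝ g z ∧ 0 ≤ g z ∧ Tr (bz z '' Ω₀) m = ENNReal.ofReal (g z)

/-! ## 3. The traces and the spectrum -/

/-- GSP: the traces in terms of the spectrum -/
def GspStatement : Prop :=
  ∀ Ω : Set P2, IsOpen Ω → Bornology.IsBounded Ω → ∀ m : ℕ, 0 < m →
    Tr Ω m = ∑' l : ℝ, (mult Ω l : ℝ≥0∞) * ENNReal.ofReal ((1 / (l + 1)) ^ (2 * m)) ∧ Tr Ω m ≠ ⊤

/-- PSE: eigenvalues are nonnegative, and there are some -/
def PseStatement : Prop :=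
  (∀ Ω : Set P2, IsOpen Ω → ∀ l : ℝ, mult Ω l ≠ 0 → 0 ≤ l) ∧
  ∀ Ω : Set P2, IsOpen Ω → Bornology.IsBounded Ω → 0 < volume.real Ω → ∃ l : ℝ, mult Ω l ≠ 0

/-- GMO: monotonicity -/
def GmoStatement : Prop :=
  ∀ Ω Ω' : Set P2, IsOpen Ω → IsOpen Ω' → Ω ⊆ Ω' → ∀ m : ℕ, Tr Ω m ≤ Tr Ω' m

/-- GSC: scaling -/
def GscStatement : Prop :=
  ∀ (r : ℝ) (Ω : Set P2), 1 ≤ r → IsOpen Ω → Bornology.IsBounded Ω → ∀ m : ℕ, 0 < m →
    Tr ((fun x => r • x) '' Ω) m ≤ ENNReal.ofReal (r ^ (4 * m)) * Tr Ω m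

/-- GMT: the traces determine the spectrum -/
def GmtStatement : Prop :=
  ∀ Ω Ω' : Set P2, IsOpen Ω → IsOpen Ω' → Bornology.IsBounded Ω → Bornology.IsBounded Ω' →
    (∀ m : ℕ, 0 < m → Tr Ω m = Tr Ω' m) → IsoSp Ω Ω'

/-- PCR: Poincaré's inequality in a strip -/
def PcrStatement : Prop :=
  ∀ (Ω : Set P2) (n : P2) (h : ℝ), IsOpen Ω → 0 < h → (∀ x ∈ Ω, |det2 n x| ≤ h) →
    ∀ F ∈ H Ω, dot2 n n * ‖F 0‖ ^ 2 ≤ 4 * h ^ 2 * (‖F 1‖ ^ 2 + ‖F 2‖ ^ 2)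

/-- STP: long quadrilaterals have large eigenvalues -/
def StpStatement : Prop :=
  ∀ z ∈ WW, ∀ l : ℝ, mult (dom z) l ≠ 0 →
    dot2 (va z) (va z) ≤ 4 * ar z ^ 2 * l ∧ dot2 (vb z) (vb z) ≤ 4 * ar z ^ 2 * l

/-- BDD: isospectral sets are bounded -/
def BddStatement : Prop :=
  ∀ z ∈ WW, ∃ R : ℝ, ∀ z' ∈ Part (dom z), ‖z'‖ ≤ R ∧ ar z' = ar z

/-- LIM: limits of quadrilaterals with given traces -/
def LimStatement : Prop :=
  ∀ (z : Z5) (S : Set Z5) (c : ℕ → ℝ≥0∞), 0 < ar z → S ⊆ WW → z ∈ closure S →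
    (∀ z' ∈ S, ∀ m : ℕ, 0 < m → Tr (dom z') m = c m) → (∀ m : ℕ, c m ≠ ⊤) →
    ∀ m : ℕ, 0 < m → Tr (quad (vz z)) m = c m

/-! ## 4. Analytic functions -/

/-- ZER: zero sets of analytic functions are null -/
def ZerStatement : Prop :=
  ∀ (W : Set Z5) (f : Z5 → ℝ), IsOpen W → IsPreconnected W → (∀ z ∈ W, AnalyticAt ℝ f z) →
    ∀ z₁ ∈ W, f z₁ ≠ 0 → volume {z | z ∈ W ∧ f z = 0} = 0

/-- RKC: curves in level sets -/
def RkcStatement : Prop :=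
  ∀ (r : ℕ) (f : Fin r → Z5 → ℝ) (z : Z5), r < 5 → (∀ i, AnalyticAt ℝ (f i) z) →
    LinearIndependent ℝ (fun i => fderiv ℝ (f i) z) →
    ∃ (φ φ' : ℝ → Z5) (δ : ℝ), φ 0 = z ∧ 0 < δ ∧ InjOn φ (Ioo (-δ) δ) ∧
      ∀ t ∈ Ioo (-δ) δ, HasDerivAt φ (φ' t) t ∧ ∀ i, fderiv ℝ (f i) (φ t) (φ' t) = 0

/-- RNK: functions with finite common level sets have full rank somewhere -/
def RnkStatement : Prop :=
  ∀ (U : Set Z5) (G : ℕ → Z5 → ℝ), IsOpen U → U.Nonempty →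
    (∀ m, ∀ z ∈ U, AnalyticAt ℝ (G m) z) →
    (∀ z₀ ∈ U, {z | z ∈ U ∧ ∀ m, G m z = G m z₀}.Finite) →
    ∃ z ∈ U, ∃ μ : Fin 5 → ℕ, LinearIndependent ℝ (fun i => fderiv ℝ (G (μ i)) z)

/-- DET: the Jacobian determinant -/
def DetStatement : Prop :=
  ∀ (f : Fin 5 → Z5 → ℝ) (z : Z5), (∀ i, AnalyticAt ℝ (f i) z) →
    AnalyticAt ℝ (fun y : Z5 => (fderiv ℝ (fun x (i : Fin 5) => f i x) y).det) z ∧
    AnalyticAt ℝ (fun (x : Z5) (i : Fin 5) => f i x) z ∧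
    (LinearIndependent ℝ (fun i => fderiv ℝ (f i) z) →
      (fderiv ℝ (fun (x : Z5) (i : Fin 5) => f i x) z).det ≠ 0)

/-- ISL: isolated points of level sets -/
def IslStatement : Prop :=
  ∀ (F : Z5 → Z5) (z : Z5), AnalyticAt ℝ F z → (fderiv ℝ F z).det ≠ 0 →
    ∀ᶠ z' in 𝓝 z, F z' = F z → z' = z

/-- SRD: exceptional values -/
def SrdStatement : Prop :=
  ∀ (F : Z5 → Z5) (W N : Set Z5), IsOpen W → (∀ z ∈ W, AnalyticAt ℝ F z) →
    volume {z | z ∈ W ∧ (fderiv ℝ F z).det = 0} = 0 → volume N = 0 →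
    volume {z | z ∈ W ∧ (F z ∈ N ∨ ∃ z' ∈ W, (fderiv ℝ F z').det = 0 ∧ F z' = F z)} = 0

/-- TNL: the values of triangles -/
def TnlStatement : Prop :=
  ∀ μ : Fin 5 → ℕ, (∀ i, 0 < μ i) → volume {y : Z5 | (∀ i, 0 ≤ y i) ∧
    ∃ z ∈ WW, z 3 = 0 ∧ z 4 = 0 ∧ ∀ i, Tr (bz z '' D0) (μ i) = ENNReal.ofReal (y i)} = 0

/-- NLM: images of null sets -/
def NlmStatement : Prop :=
  ∀ (S : Set (Z5 × P2 × ℝ)) (f : Z5 × P2 × ℝ → (Fin 4 → P2)),
    (∀ x ∈ S, DifferentiableAt ℝ f x) → volume S = 0 → volume (f '' S) = 0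

/-- ENL: null sets in Euclidean coordinates and permutations -/
def EnlStatement : Prop :=
  ∀ S : Set (Fin 4 → P2), volume S = 0 → ∀ σ : Equiv.Perm (Fin 4),
    volume {p : Fin 4 → E.E2 | (fun i => ((p (σ i) 0, p (σ i) 1) : P2)) ∈ S} = 0

/-! ## 5. Conclusion -/

/-- LFI: near the square the traces have finite level sets -/
def LfiStatement : Prop :=
  ∃ U : Set Z5, IsOpen U ∧ (0 : Z5) ∈ U ∧ U ⊆ WW ∧ ∀ z₀ ∈ U,
    {z | z ∈ U ∧ ∀ m : ℕ, 0 < m → Tr (dom z) m = Tr (dom z₀) m}.Finite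

/-- TZN: almost all parameters have finitely many isospectral parameters -/
def TznStatement : Prop := volume {z | z ∈ WW ∧ ¬ (Part (dom z)).Finite} = 0

/-- TRN: almost all convex quadrilaterals -/
def TrnStatement : Prop := volume {p : Fin 4 → P2 | Ccw p ∧ ¬ (Part (quad p)).Finite} = 0

/-- TEE: the theorem -/
def TeeStatement : Prop :=
  ∀ᵐ p : Fin 4 → E.E2, E.ConvexPosition p →
    ∃ S : Set (Fin 4 → E.E2), S.Finite ∧ ∀ q : Fin 4 → E.E2, E.ConvexPosition q →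
      (∀ μ : ℝ, E.mult (E.drum p) μ = E.mult (E.drum q) μ) →
      ∃ q' ∈ S, ∃ e : E.E2 ≃ᵢ E.E2, e '' convexHull ℝ (Set.range q) =
        convexHull ℝ (Set.range q')

end

end Pool.SqDrum
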