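import Mathlib
import Pool.Agent.Lib.MP_2805c2_an.ST.Iface

set_option autoImplicit false

/-!
# BDD: isospectral sets are bounded
-/

namespace Pool.SqDrum

open MeasureTheory Set Filter Topology
open scoped ENNReal ContDiff InnerProductSpace

namespace BddAux

theorem ba {x M : ℝ} (h : x ^ 2 ≤ M) : |x| ≤ M + 1 := by
  have h1 : |x| ^ 2 ≤ M := by rw [sq_abs]; exact h
  nlinarith [abs_nonneg x, sq_nonneg (|x| - 1)]

theorem bw {A d e x y N : ℝ} (hA : 0 < A) (hN : 0 < N) (hde : |d| + |e| < 2 * A) (hx : |x| ≤ N)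
    (hy : |y| ≤ N) {w : ℝ} (h : A * w = d * x + e * y) : |w| ≤ 2 * N := by
  have h1 : |A * w| ≤ 2 * A * N := by
    rw [h]
    calc |d * x + e * y| ≤ |d * x| + |e * y| := abs_add_le _ _
      _ = |d| * |x| + |e| * |y| := by rw [abs_mul, abs_mul]
      _ ≤ |d| * N + |e| * N := by
          have := mul_le_mul_of_nonneg_left hx (abs_nonneg d)
          have := mul_le_mul_of_nonneg_left hy (abs_nonneg e)
          linarith
      _ = (|d| + |e|) * N := by ring
      _ ≤ 2 * A * N := mul_le_mul_of_nonneg_right hde.le hN.le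
  rw [abs_mul, abs_of_pos hA] at h1
  have h2 : A * |w| ≤ A * (2 * N) := by linarith
  exact le_of_mul_le_mul_left h2 hA

end BddAux

open BddAux

theorem bdd (are : AreStatement) (wcc : WccStatement) (pse : PseStatement) (stp : StpStatement) :
    BddStatement := by
  intro z hz
  obtain ⟨hccw, hdom, hvol, hpos⟩ := wcc.2 z hz
  have hopen : ∀ z' ∈ WW, IsOpen (dom z') := fun z' hz' => by
    rw [(wcc.2 z' hz').2.1]; exact isOpen_interior
  have hbd : ∀ z' ∈ WW, Bornology.IsBounded (dom z') := fun z' hz' => by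
    rw [(wcc.2 z' hz').2.1]
    exact (isBounded_convexHull.2 (Set.finite_range _).isBounded).subset interior_subset
  obtain ⟨l, hl⟩ := pse.2 (dom z) (hopen z hz) (hbd z hz) (by rw [hvol]; exact hpos)
  refine ⟨2 * (4 * ar z ^ 2 * l + 1) + 1, ?_⟩
  rintro z' ⟨hz', hiso⟩
  have hA : ar z' = ar z := by
    rw [← (wcc.2 z' hz').2.2.1, ← hvol]
    exact (are _ _ (hopen z hz) (hopen z' hz') (hbd z hz) (hbd z' hz') hiso).symm
  obtain ⟨h1, h2⟩ := stp z' hz' l (by rw [← hiso l]; exact hl)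
  refine ⟨?_, hA⟩
  rw [hA] at h1 h2
  have hW := hz'.2
  set M := 4 * ar z ^ 2 * l with hM
  simp only [dot2, va, vb] at h1 h2
  have a1 : |1 + z' 0 + z' 1| ≤ M + 1 := ba (by nlinarith [sq_nonneg (z' 2)])
  have a2 : |z' 2| ≤ M + 1 := ba (by nlinarith [sq_nonneg (1 + z' 0 + z' 1)])
  have b2 : |1 + z' 0 - z' 1| ≤ M + 1 := ba (by nlinarith [sq_nonneg (z' 2)])
  have hM0 : 0 ≤ M := by
    nlinarith [sq_nonneg (z' 2), sq_nonneg (1 + z' 0 + z' 1)]
  rw [add_comm] at hW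
  have hA' : 0 < ar z' := by rw [hA]; exact hpos
  have c3 : |z' 3| ≤ 2 * (M + 1) := by
    refine bw hA' (by linarith) hW a1 a2 ?_
    simp only [ar, det2, va, vb, vw]
    ring
  have c4 : |z' 4| ≤ 2 * (M + 1) := by
    refine bw hA' (by linarith) hW a2 b2 ?_
    simp only [ar, det2, va, vb, vw]
    ring
  rw [abs_le] at a1 a2 b2 c3 c4
  refine (pi_norm_le_iff_of_nonneg (by linarith)).2 fun i => ?_
  rw [Real.norm_eq_abs, abs_le]
  fin_cases i
  · show _ ≤ z' 0 ∧ z' 0 ≤ _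
    constructor <;> linarith [a1.1, a1.2, b2.1, b2.2]
  · show _ ≤ z' 1 ∧ z' 1 ≤ _
    constructor <;> linarith [a1.1, a1.2, b2.1, b2.2]
  · show _ ≤ z' 2 ∧ z' 2 ≤ _
    constructor <;> linarith [a2.1, a2.2]
  · show _ ≤ z' 3 ∧ z' 3 ≤ _
    constructor <;> linarith [c3.1, c3.2]
  · show _ ≤ z' 4 ∧ z' 4 ≤ _
    constructor <;> linarith [c4.1, c4.2]

end Pool.SqDrum
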