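import Mathlib
import Pool.Agent.Lib.MP_2805c2_an.ST.Iface

set_option autoImplicit false

/-!
# CGD: congruent quadrilaterals have the same distances
-/

namespace Pool.SqDrum

open MeasureTheory Set Filter Topology
open scoped ENNReal ContDiff InnerProductSpace

namespace CgdAux

theorem hull_nonneg {q : Fin 4 → P2} {u v : P2} (h : ∀ j, 0 ≤ det2 u (q j - v)) :
    ∀ x ∈ convexHull ℝ (Set.range q), 0 ≤ det2 u (x - v) := by
  intro x hx
  have hc : Convex ℝ {x : P2 | 0 ≤ det2 u (x - v)} := by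
    intro x hx y hy s t hs ht hst
    simp only [mem_setOf_eq] at hx hy ⊢
    have : det2 u (s • x + t • y - v) = s * det2 u (x - v) + t * det2 u (y - v) := by
      simp only [det2, Prod.fst_sub, Prod.snd_sub, Prod.fst_add, Prod.snd_add, Prod.smul_fst,
        Prod.smul_snd, smul_eq_mul]
      linear_combination (u.1 * v.2 - u.2 * v.1) * hst
    rw [this]
    positivity
  exact convexHull_min (by rintro _ ⟨j, rfl⟩; exact h j) hc hx

theorem fin4_a (i : Fin 4) : i + 3 + 1 = i := by
  revert i; decide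

theorem fin4_b (i : Fin 4) : i + 1 ≠ i + 3 := by
  revert i; decide

theorem fin4_c (i : Fin 4) : i + 1 ≠ i := by
  revert i; decide

theorem fin4_d (i : Fin 4) : i ≠ i + 1 + 1 := by
  revert i; decide

theorem det2_self (u : P2) : det2 u u = 0 := by simp only [det2]; ring

theorem det2_zero (u : P2) : det2 u 0 = 0 := by simp [det2]

theorem ccw_inj {q : Fin 4 → P2} (hq : Ccw q) : Function.Injective q := by
  intro i j hij
  by_contra hne
  by_cases h : j = i + 1
  · subst h
    have := hq (i + 1) i (fun h => hne h) (fin4_d i)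
    rw [hij, sub_self, det2_zero] at this
    exact lt_irrefl _ this
  · have := hq i j (fun h => hne h.symm) h
    rw [hij, sub_self, det2_zero] at this
    exact lt_irrefl _ this

theorem edge_nonneg {q : Fin 4 → P2} (hq : Ccw q) (i : Fin 4) :
    ∀ x ∈ convexHull ℝ (Set.range q), 0 ≤ det2 (q (i + 1) - q i) (x - q i) := by
  refine hull_nonneg fun j => ?_
  by_cases h1 : j = i
  · rw [h1, sub_self, det2_zero]
  by_cases h2 : j = i + 1
  · rw [h2, det2_self]
  exact (hq i j h1 h2).le

theorem split {u v x y p : P2} {s t : ℝ} (hs : 0 < s) (ht : 0 < t) (hst : s + t = 1)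
    (h : s • x + t • y = p) (hp : det2 u (p - v) = 0) (hx : 0 ≤ det2 u (x - v))
    (hy : 0 ≤ det2 u (y - v)) : det2 u (x - v) = 0 ∧ det2 u (y - v) = 0 := by
  have e : s * det2 u (x - v) + t * det2 u (y - v) = 0 := by
    rw [← hp, ← h]
    simp only [det2, Prod.fst_sub, Prod.snd_sub, Prod.fst_add, Prod.snd_add, Prod.smul_fst,
      Prod.smul_snd, smul_eq_mul]
    linear_combination -(u.1 * v.2 - u.2 * v.1) * hst
  have h1 : 0 ≤ s * det2 u (x - v) := mul_nonneg hs.le hx
  have h2 : 0 ≤ t * det2 u (y - v) := mul_nonneg ht.le hy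
  constructor
  · have : s * det2 u (x - v) = 0 := by linarith
    exact (mul_eq_zero.1 this).resolve_left hs.ne'
  · have : t * det2 u (y - v) = 0 := by linarith
    exact (mul_eq_zero.1 this).resolve_left ht.ne'

theorem cramer {U V w : P2} (h : 0 < det2 V U) (h1 : det2 U w = 0) (h2 : det2 V w = 0) :
    w = 0 := by
  have e1 : det2 V U * w.1 = det2 V w * U.1 - det2 U w * V.1 := by
    simp only [det2]; ring
  have e2 : det2 V U * w.2 = det2 V w * U.2 - det2 U w * V.2 := by
    simp only [det2]; ring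
  rw [h1, h2] at e1 e2
  have z1 : w.1 = 0 := (mul_eq_zero.1 (by linarith : det2 V U * w.1 = 0)).resolve_left h.ne'
  have z2 : w.2 = 0 := (mul_eq_zero.1 (by linarith : det2 V U * w.2 = 0)).resolve_left h.ne'
  exact Prod.ext z1 z2

theorem vertex {q : Fin 4 → P2} (hq : Ccw q) (i : Fin 4) {x : P2}
    (h1 : det2 (q (i + 1) - q i) (x - q i) = 0)
    (h2 : det2 (q i - q (i + 3)) (x - q (i + 3)) = 0) : x = q i := by
  have hpos := hq (i + 3) (i + 1) (fin4_b i) (by rw [fin4_a]; exact fin4_c i)
  rw [fin4_a] at hpos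
  have := cramer (U := q (i + 1) - q i) (V := q i - q (i + 3)) (w := x - q i) ?_ h1 ?_
  · exact sub_eq_zero.1 this
  · refine lt_of_lt_of_eq hpos ?_
    simp only [det2, Prod.fst_sub, Prod.snd_sub]
    ring
  · rw [← h2]
    simp only [det2, Prod.fst_sub, Prod.snd_sub]
    ring

theorem ext_pt {q : Fin 4 → P2} (hq : Ccw q) (i : Fin 4) {x y : P2}
    (hx : x ∈ convexHull ℝ (Set.range q)) (hy : y ∈ convexHull ℝ (Set.range q)) {s t : ℝ}
    (hs : 0 < s) (ht : 0 < t) (hst : s + t = 1) (h : s • x + t • y = q i) :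
    x = q i ∧ y = q i := by
  obtain ⟨a1, a2⟩ := split (u := q (i + 1) - q i) (v := q i) hs ht hst h
    (by rw [sub_self, det2_zero]) (edge_nonneg hq i x hx) (edge_nonneg hq i y hy)
  have e1 := edge_nonneg hq (i + 3) x hx
  have e2 := edge_nonneg hq (i + 3) y hy
  rw [fin4_a] at e1 e2
  obtain ⟨b1, b2⟩ := split (u := q i - q (i + 3)) (v := q (i + 3)) hs ht hst h
    (det2_self _) e1 e2
  exact ⟨vertex hq i a1 b1, vertex hq i a2 b2⟩

end CgdAux

open CgdAux

theorem cgd (qda : QdaStatement) : CgdStatement := by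
  rintro p q hp hq ⟨ρ, ⟨a, b, p0, q0, e, he, hab, hρ⟩, himg⟩
  have he2 : e ^ 2 = 1 := by rcases he with rfl | rfl <;> norm_num
  have hab1 : a ^ 2 + b ^ 2 = 1 := by rw [hab]; norm_num
  have hdist : ∀ x y : P2, dot2 (ρ x - ρ y) (ρ x - ρ y) = dot2 (x - y) (x - y) := by
    intro x y
    rw [hρ, hρ]
    simp only [dot2, Prod.fst_sub, Prod.snd_sub]
    linear_combination ((x.1 - y.1) ^ 2 + (x.2 - y.2) ^ 2) * hab1 +
      (x.2 - y.2) ^ 2 * (a ^ 2 + b ^ 2) * he2
  have hinj : Function.Injective ρ := by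
    intro x y hxy
    have h := hdist x y
    rw [hxy, sub_self] at h
    simp only [dot2, Prod.fst_sub, Prod.snd_sub, Prod.fst_zero, Prod.snd_zero] at h
    have h1 : (x.1 - y.1) = 0 := by
      nlinarith [mul_self_nonneg (x.1 - y.1), mul_self_nonneg (x.2 - y.2)]
    have h2 : (x.2 - y.2) = 0 := by
      nlinarith [mul_self_nonneg (x.1 - y.1), mul_self_nonneg (x.2 - y.2)]
    exact Prod.ext (sub_eq_zero.1 h1) (sub_eq_zero.1 h2)
  have hcont : Continuous ρ := by
    have : ρ = fun x : P2 => (a * x.1 - e * b * x.2 + p0, b * x.1 + e * a * x.2 + q0) :=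
      funext hρ
    rw [this]
    fun_prop
  have haff : ∀ (x y : P2) (s t : ℝ), s + t = 1 → ρ (s • x + t • y) = s • ρ x + t • ρ y := by
    intro x y s t hst
    rw [hρ, hρ, hρ]
    refine Prod.ext ?_ ?_
    · simp only [Prod.fst_add, Prod.snd_add, Prod.smul_fst, Prod.smul_snd, smul_eq_mul]
      linear_combination -p0 * hst
    · simp only [Prod.fst_add, Prod.snd_add, Prod.smul_fst, Prod.smul_snd, smul_eq_mul]
      linear_combination -q0 * hst
  have hD : (0 : P2) ∈ D := by
    simp only [D, Sq, mem_prod, mem_Ioo, Prod.fst_zero, Prod.snd_zero]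
    norm_num
  have hne : ∀ r : Fin 4 → P2, Ccw r → (quad r).Nonempty := by
    intro r hr
    rw [(qda r hr).1]
    exact ⟨_, mem_image_of_mem _ hD⟩
  have hclos : ∀ r : Fin 4 → P2, Ccw r → closure (quad r) = convexHull ℝ (Set.range r) := by
    intro r hr
    have h1 := (convex_convexHull ℝ (Set.range r)).closure_interior_eq_closure_of_nonempty_interior
      (hne r hr)
    have h2 : IsClosed (convexHull ℝ (Set.range r)) :=
      (Set.finite_range r).isClosed_convexHull ℝ
    rw [h2.closure_eq] at h1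
    exact h1
  have hhull : ρ '' convexHull ℝ (Set.range p) = convexHull ℝ (Set.range q) := by
    rw [← hclos p hp, ← hclos q hq, ← himg]
    refine image_closure_of_isCompact ?_ hcont.continuousOn
    rw [hclos p hp]
    exact (Set.finite_range p).isCompact_convexHull ℝ
  have hv : ∀ i : Fin 4, ∃ j : Fin 4, q i = ρ (p j) := by
    intro i
    have hqi : q i ∈ convexHull ℝ (Set.range q) := subset_convexHull ℝ _ (mem_range_self i)
    rw [← hhull] at hqi
    obtain ⟨y, hy, hyi⟩ := hqi
    have hext : y ∈ (convexHull ℝ (Set.range p)).extremePoints ℝ := by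
      rw [mem_extremePoints]
      refine ⟨hy, fun x₁ hx₁ x₂ hx₂ hseg => ?_⟩
      obtain ⟨s, t, hs, ht, hst, hxy⟩ := hseg
      have h1 : s • ρ x₁ + t • ρ x₂ = q i := by
        rw [← haff _ _ _ _ hst, hxy, hyi]
      have h2 : ρ x₁ ∈ convexHull ℝ (Set.range q) := by
        rw [← hhull]; exact mem_image_of_mem _ hx₁
      have h3 : ρ x₂ ∈ convexHull ℝ (Set.range q) := by
        rw [← hhull]; exact mem_image_of_mem _ hx₂
      obtain ⟨h4, h5⟩ := ext_pt hq i h2 h3 hs ht hst h1
      exact ⟨hinj (h4.trans hyi.symm), hinj (h5.trans hyi.symm)⟩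
    obtain ⟨j, hj⟩ := extremePoints_convexHull_subset hext
    exact ⟨j, by rw [← hyi, hj]⟩
  choose π hπ using hv
  have hπi : Function.Injective π := by
    intro i j hij
    refine ccw_inj hq ?_
    rw [hπ i, hπ j, hij]
  refine ⟨Equiv.ofBijective π (Finite.injective_iff_bijective.1 hπi), fun i j => ?_⟩
  rw [hπ i, hπ j, hdist]
  rfl

end Pool.SqDrum
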