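import Pool.Agent.Lib.MP_2805c2_an.ST.Iface

set_option autoImplicit false
set_option linter.all false

/-!
# CNG: congruence is an equivalence relation and preserves the spectrum
-/

namespace Pool.SqDrum

open MeasureTheory Set Filter Topology

theorem cng (sim : SimStatement) : CngStatement := by
  refine ⟨?_, ?_, ?_⟩
  · rintro Ω Ω' ⟨ρ, ⟨a, b, p, q, e, he, hab, h⟩, rfl⟩
    have he2 : e * e = 1 := by rcases he with rfl | rfl <;> norm_num
    have hab' : a * a + b * b = 1 := by nlinarith [hab]
    refine ⟨fun y => (a * (y.1 - p) + b * (y.2 - q), -(e * b) * (y.1 - p) + e * a * (y.2 - q)),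
      ⟨a, -(e * b), -(a * p + b * q), e * b * p - e * a * q, e, he, ?_, ?_⟩, ?_⟩
    · calc a ^ 2 + (-(e * b)) ^ 2 = a ^ 2 + (e * e) * b ^ 2 := by ring
        _ = 1 ^ 2 := by rw [he2, one_mul, hab]
    · intro y
      refine Prod.ext ?_ ?_
      · show a * (y.1 - p) + b * (y.2 - q) = a * y.1 - e * -(e * b) * y.2 + -(a * p + b * q)
        have : e * -(e * b) = - b := by
          calc e * -(e * b) = -((e * e) * b) := by ring
            _ = - b := by rw [he2, one_mul]
        rw [this]; ring
      · show -(e * b) * (y.1 - p) + e * a * (y.2 - q) =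
          -(e * b) * y.1 + e * a * y.2 + (e * b * p - e * a * q)
        ring
    · rw [Set.image_image]
      refine (Set.image_congr fun x _ => ?_).trans (Set.image_id _)
      rw [h x]
      refine Prod.ext ?_ ?_
      · show a * (a * x.1 - e * b * x.2 + p - p) + b * (b * x.1 + e * a * x.2 + q - q) = x.1
        calc a * (a * x.1 - e * b * x.2 + p - p) + b * (b * x.1 + e * a * x.2 + q - q)
            = (a * a + b * b) * x.1 := by ring
          _ = x.1 := by rw [hab', one_mul]
      · show -(e * b) * (a * x.1 - e * b * x.2 + p - p) + e * a * (b * x.1 + e * a * x.2 + q - q)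
          = x.2
        calc -(e * b) * (a * x.1 - e * b * x.2 + p - p) + e * a * (b * x.1 + e * a * x.2 + q - q)
            = (e * e) * ((a * a + b * b) * x.2) := by ring
          _ = x.2 := by rw [hab', he2, one_mul, one_mul]
  · rintro Ω Ω' Ω'' ⟨ρ, ⟨a, b, p, q, e, he, hab, h⟩, rfl⟩ ⟨τ, ⟨a', b', p', q', e', he', hab', h'⟩, rfl⟩
    have he2 : e' * e' = 1 := by rcases he' with rfl | rfl <;> norm_num
    refine ⟨τ ∘ ρ, ⟨a' * a - e' * b' * b, b' * a + e' * a' * b, a' * p - e' * b' * q + p',
      b' * p + e' * a' * q + q', e' * e, ?_, ?_, ?_⟩, ?_⟩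
    · rcases he with rfl | rfl <;> rcases he' with rfl | rfl <;> norm_num
    · calc (a' * a - e' * b' * b) ^ 2 + (b' * a + e' * a' * b) ^ 2
          = (a' ^ 2 + b' ^ 2) * a ^ 2 + (e' * e') * (a' ^ 2 + b' ^ 2) * b ^ 2 := by ring
        _ = 1 ^ 2 := by rw [hab', he2]; nlinarith [hab]
    · intro x
      show τ (ρ x) = _
      rw [h' (ρ x), h x]
      refine Prod.ext ?_ ?_
      · show a' * (a * x.1 - e * b * x.2 + p) - e' * b' * (b * x.1 + e * a * x.2 + q) + p' =
          (a' * a - e' * b' * b) * x.1 - e' * e * (b' * a + e' * a' * b) * x.2 +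
            (a' * p - e' * b' * q + p')
        have : e' * e * (b' * a + e' * a' * b) = e' * e * b' * a + e * a' * b := by
          calc e' * e * (b' * a + e' * a' * b) = e' * e * b' * a + (e' * e') * (e * a' * b) := by
                ring
            _ = _ := by rw [he2, one_mul]
        rw [this]; ring
      · show b' * (a * x.1 - e * b * x.2 + p) + e' * a' * (b * x.1 + e * a * x.2 + q) + q' =
          (b' * a + e' * a' * b) * x.1 + e' * e * (a' * a - e' * b' * b) * x.2 +
            (b' * p + e' * a' * q + q')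
        have : e' * e * (a' * a - e' * b' * b) = e' * e * a' * a - e * b' * b := by
          calc e' * e * (a' * a - e' * b' * b) = e' * e * a' * a - (e' * e') * (e * b' * b) := by
                ring
            _ = _ := by rw [he2, one_mul]
        rw [this]; ring
    · exact Set.image_comp τ ρ Ω
  · rintro Ω Ω' hΩ ⟨ρ, hρ, rfl⟩ l
    have := sim 1 ρ Ω one_pos hρ hΩ l
    rw [this, one_pow, one_mul]

end Pool.SqDrum
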