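import Mathlib
import Pool.Agent.Lib.MP_2805c2_an.ST.Iface

set_option autoImplicit false

/-!
# CTR: the centre is in the domain
-/

namespace Pool.SqDrum

open MeasureTheory Set Filter Topology
open scoped ENNReal ContDiff InnerProductSpace

namespace CtrAux

/-- the coefficients of the convex combination -/
noncomputable def cf (s t : ℝ) : Fin 4 → ℝ :=
  ![max (-s) 0 + max (-t) 0 + (1 - 2 * |s| - 2 * |t|) / 4,
    max s 0 + max (-t) 0 + (1 - 2 * |s| - 2 * |t|) / 4,
    max s 0 + max t 0 + (1 - 2 * |s| - 2 * |t|) / 4,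
    max (-s) 0 + max t 0 + (1 - 2 * |s| - 2 * |t|) / 4]

theorem pos_add_neg (s : ℝ) : max s 0 + max (-s) 0 = |s| := by
  rcases le_total 0 s with h | h
  · rw [max_eq_left h, max_eq_right (by linarith), abs_of_nonneg h]; ring
  · rw [max_eq_right h, max_eq_left (by linarith), abs_of_nonpos h]; ring

theorem pos_sub_neg (s : ℝ) : max s 0 - max (-s) 0 = s := by
  rcases le_total 0 s with h | h
  · rw [max_eq_left h, max_eq_right (by linarith)]; ring
  · rw [max_eq_right h, max_eq_left (by linarith)]; ring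

theorem mem_hull (z : Z5) (s t : ℝ) (h : |s| + |t| ≤ 1 / 2) :
    s • va z + t • vb z ∈ convexHull ℝ (Set.range (vz z)) := by
  have hr : 0 ≤ (1 - 2 * |s| - 2 * |t|) / 4 := by linarith
  have hs := pos_add_neg s
  have ht := pos_add_neg t
  have hs' := pos_sub_neg s
  have ht' := pos_sub_neg t
  have h1 : ∀ i ∈ (Finset.univ : Finset (Fin 4)), 0 ≤ cf s t i := by
    intro i _
    have a1 := le_max_right s 0
    have a2 := le_max_right (-s) 0
    have a3 := le_max_right t 0
    have a4 := le_max_right (-t) 0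
    fin_cases i <;> simp [cf] <;> linarith
  have h2 : ∑ i, cf s t i = 1 := by
    rw [Fin.sum_univ_four]
    simp only [cf, Matrix.cons_val_zero, Matrix.cons_val_one, Matrix.cons_val]
    linarith
  have h3 : ∑ i, cf s t i • vz z i ∈ convexHull ℝ (Set.range (vz z)) :=
    (convex_convexHull ℝ _).sum_mem h1 h2
      (fun i _ => subset_convexHull ℝ _ (Set.mem_range_self i))
  have h4 : ∑ i, cf s t i • vz z i = s • va z + t • vb z := by
    rw [Fin.sum_univ_four]
    have e0 : vz z 0 = (-1/2 : ℝ) • va z + (-1/2 : ℝ) • vb z + (1/4 : ℝ) • vw z := by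
      simp only [vz, bz, bil, cor, Matrix.cons_val_zero]
      rw [zero_add]
      norm_num
    have e1 : vz z 1 = (1/2 : ℝ) • va z + (-1/2 : ℝ) • vb z + (-1/4 : ℝ) • vw z := by
      simp only [vz, bz, bil, cor, Matrix.cons_val_one]
      rw [zero_add]
      norm_num
    have e2 : vz z 2 = (1/2 : ℝ) • va z + (1/2 : ℝ) • vb z + (1/4 : ℝ) • vw z := by
      simp only [vz, bz, bil, cor, Matrix.cons_val]
      rw [zero_add]
      norm_num
    have e3 : vz z 3 = (-1/2 : ℝ) • va z + (1/2 : ℝ) • vb z + (-1/4 : ℝ) • vw z := by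
      simp only [vz, bz, bil, cor, Matrix.cons_val]
      rw [zero_add]
      norm_num
    rw [e0, e1, e2, e3]
    simp only [cf, Matrix.cons_val_zero, Matrix.cons_val_one, Matrix.cons_val]
    set P := max s 0
    set N := max (-s) 0
    set P' := max t 0
    set N' := max (-t) 0
    rw [← hs', ← ht']
    module
  rw [← h4]
  exact h3

end CtrAux

open CtrAux in
theorem ctr : CtrStatement := by
  intro z hz
  set Δ := ar z with hΔ
  have hΔ' : Δ = (va z).1 * (vb z).2 - (va z).2 * (vb z).1 := rfl
  let U : Set P2 := {x | |x.1 * (vb z).2 - x.2 * (vb z).1| +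
    |(va z).1 * x.2 - (va z).2 * x.1| < Δ / 2}
  have hU : IsOpen U := by
    apply isOpen_lt
    · fun_prop
    · fun_prop
  have hsub : U ⊆ convexHull ℝ (Set.range (vz z)) := by
    intro x hx
    have hx' : |x.1 * (vb z).2 - x.2 * (vb z).1| + |(va z).1 * x.2 - (va z).2 * x.1| < Δ / 2 := hx
    have key := mem_hull z ((x.1 * (vb z).2 - x.2 * (vb z).1) / Δ)
      (((va z).1 * x.2 - (va z).2 * x.1) / Δ) (by
        rw [abs_div, abs_div, abs_of_pos hz, ← add_div, div_le_iff₀ hz]
        linarith)
    have e : ((x.1 * (vb z).2 - x.2 * (vb z).1) / Δ) • va z +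
        (((va z).1 * x.2 - (va z).2 * x.1) / Δ) • vb z = x := by
      have hne : Δ ≠ 0 := ne_of_gt hz
      refine Prod.ext ?_ ?_
      · simp only [Prod.fst_add, Prod.smul_fst, smul_eq_mul]
        field_simp
        rw [hΔ']
        ring
      · simp only [Prod.snd_add, Prod.smul_snd, smul_eq_mul]
        field_simp
        rw [hΔ']
        ring
    rw [e] at key
    exact key
  refine mem_interior.2 ⟨U, hsub, hU, ?_⟩
  change |(0:ℝ) * (vb z).2 - 0 * (vb z).1| + |(va z).1 * 0 - (va z).2 * 0| < Δ / 2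
  simp
  exact hz

end Pool.SqDrum
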