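import Pool.Agent.Lib.MP_2805c2_an.ST.Iface

set_option autoImplicit false

/-!
# DDZ: the six distances determine the parameters
-/

namespace Pool.SqDrum

noncomputable section

theorem ddz : DdzStatement := by
  intro z z' h1 h1' hA hA' hd
  have e01 := hd 1 0
  have e23 := hd 2 3
  have e21 := hd 2 1
  have e30 := hd 3 0
  have e20 := hd 2 0
  have e31 := hd 3 1
  simp only [vz, bz, bil, cor, va, vb, vw, dot2, Matrix.cons_val_zero, Matrix.cons_val_one,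
    Matrix.cons_val, Prod.fst_add, Prod.snd_add, Prod.smul_fst, Prod.smul_snd, Prod.fst_sub,
    Prod.snd_sub, smul_eq_mul, Prod.fst_zero, Prod.snd_zero] at e01 e23 e21 e30 e20 e31
  simp only [ar, det2, va, vb] at hA hA'
  obtain ⟨x0, x1, x2, x3, x4, hx0, hx1, hx2, hx3, hx4⟩ : ∃ x0 x1 x2 x3 x4 : ℝ,
      x0 = z 0 ∧ x1 = z 1 ∧ x2 = z 2 ∧ x3 = z 3 ∧ x4 = z 4 := ⟨_, _, _, _, _, rfl, rfl, rfl, rfl, rfl⟩
  obtain ⟨y0, y1, y2, y3, y4, hy0, hy1, hy2, hy3, hy4⟩ : ∃ x0 x1 x2 x3 x4 : ℝ,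
      x0 = z' 0 ∧ x1 = z' 1 ∧ x2 = z' 2 ∧ x3 = z' 3 ∧ x4 = z' 4 :=
    ⟨_, _, _, _, _, rfl, rfl, rfl, rfl, rfl⟩
  rw [← hx0, ← hx1, ← hx2, ← hx3, ← hx4, ← hy0, ← hy1, ← hy2, ← hy3, ← hy4] at e01 e23 e21 e30
  rw [← hx0, ← hx1, ← hx2, ← hx3, ← hx4, ← hy0, ← hy1, ← hy2, ← hy3, ← hy4] at e20 e31
  rw [← hx0, ← hx1, ← hx2] at hA
  rw [← hy0, ← hy1, ← hy2] at hA'
  rw [← hx0] at h1
  rw [← hy0] at h1'
  -- the Gram matrix
  have gaa : (1 + x0 + x1) ^ 2 + x2 ^ 2 = (1 + y0 + y1) ^ 2 + y2 ^ 2 := by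
    linear_combination (1/4) * (e01 + e23) - (1/4) * (e21 + e30) + (1/4) * (e20 + e31)
  have gbb : x2 ^ 2 + (1 + x0 - x1) ^ 2 = y2 ^ 2 + (1 + y0 - y1) ^ 2 := by
    linear_combination (-1/4) * (e01 + e23) + (1/4) * (e21 + e30) + (1/4) * (e20 + e31)
  have gab : (1 + x0 + x1) * x2 + x2 * (1 + x0 - x1) = (1 + y0 + y1) * y2 + y2 * (1 + y0 - y1) := by
    linear_combination (1/4) * (e20 - e31)
  have gaw : (1 + x0 + x1) * x3 + x2 * x4 = (1 + y0 + y1) * y3 + y2 * y4 := by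
    linear_combination (1/2) * (e23 - e01)
  have gbw : x2 * x3 + (1 + x0 - x1) * x4 = y2 * y3 + (1 + y0 - y1) * y4 := by
    linear_combination (1/2) * (e21 - e30)
  -- the area
  have hAA : (1 + x0 + x1) * (1 + x0 - x1) - x2 * x2 = (1 + y0 + y1) * (1 + y0 - y1) - y2 * y2 := by
    have h2 : ((1 + x0 + x1) * (1 + x0 - x1) - x2 * x2) ^ 2 =
        ((1 + y0 + y1) * (1 + y0 - y1) - y2 * y2) ^ 2 := by
      have a1 : ((1 + x0 + x1) * (1 + x0 - x1) - x2 * x2) ^ 2 =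
        ((1 + x0 + x1) ^ 2 + x2 ^ 2) * (x2 ^ 2 + (1 + x0 - x1) ^ 2) -
          ((1 + x0 + x1) * x2 + x2 * (1 + x0 - x1)) ^ 2 := by ring
      have a2 : ((1 + y0 + y1) * (1 + y0 - y1) - y2 * y2) ^ 2 =
        ((1 + y0 + y1) ^ 2 + y2 ^ 2) * (y2 ^ 2 + (1 + y0 - y1) ^ 2) -
          ((1 + y0 + y1) * y2 + y2 * (1 + y0 - y1)) ^ 2 := by ring
      rw [a1, a2, gaa, gbb, gab]
    exact (sq_eq_sq₀ hA.le hA'.le).1 h2
  have h00 : 1 + x0 = 1 + y0 := by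
    refine (sq_eq_sq₀ h1.le h1'.le).1 ?_
    linear_combination (1/4) * gaa + (1/4) * gbb + (1/2) * hAA
  have h0 : x0 = y0 := by linarith
  subst h0
  have hs : (4 * (1 + x0)) ≠ 0 := by positivity
  have hs1 : x1 = y1 := by
    apply mul_left_cancel₀ hs
    linear_combination gaa - gbb
  have hs2 : x2 = y2 := by
    apply mul_left_cancel₀ hs
    linear_combination 2 * gab
  subst hs1 hs2
  have hs3 : x3 = y3 := by
    apply mul_left_cancel₀ hA.ne'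
    linear_combination (1 + x0 - x1) * gaw - x2 * gbw
  have hs4 : x4 = y4 := by
    apply mul_left_cancel₀ hA.ne'
    linear_combination (1 + x0 + x1) * gbw - x2 * gaw
  funext i
  fin_cases i
  · exact hx0.symm.trans hy0
  · exact hx1.symm.trans hy1
  · exact hx2.symm.trans hy2
  · exact hx3.symm.trans (hs3.trans hy3)
  · exact hx4.symm.trans (hs4.trans hy4)

end

end Pool.SqDrum
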