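import Pool.Agent.Lib.MP_2805c2_an.ST.Iface

/-! # DEG: a degenerate quadrilateral is a triangle -/

set_option autoImplicit false

namespace Pool.SqDrum

open Set

namespace DegAux

theorem vec_eq (x y c : P2) (h : det2 x y = 0) (hc : det2 y c ≠ 0) :
    x = (det2 x c / det2 y c) • y := by
  unfold det2 at *
  ext
  · simp only [Prod.smul_fst, smul_eq_mul]
    rw [div_mul_eq_mul_div, eq_div_iff hc]
    linear_combination (-c.1) * h
  · simp only [Prod.smul_snd, smul_eq_mul]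
    rw [div_mul_eq_mul_div, eq_div_iff hc]
    linear_combination (-c.2) * h

theorem seg_of (p q r c : P2) (h : det2 (r - p) (q - p) = 0) (hc : 0 < det2 (q - p) (c - p))
    (h0 : 0 ≤ det2 (r - p) (c - p)) (h1 : det2 (r - p) (c - p) ≤ det2 (q - p) (c - p)) :
    r ∈ segment ℝ p q := by
  have h2 := vec_eq (r - p) (q - p) (c - p) h (ne_of_gt hc)
  set t : ℝ := det2 (r - p) (c - p) / det2 (q - p) (c - p) with ht
  have ht0 : 0 ≤ t := div_nonneg h0 hc.le
  have ht1 : t ≤ 1 := (div_le_one hc).2 h1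
  refine ⟨1 - t, t, by linarith, ht0, by ring, ?_⟩
  have h3 : r = p + t • (q - p) := by rw [← h2]; abel
  rw [h3, smul_sub, sub_smul, one_smul]
  abel

theorem four : ∀ i j : Fin 4, j = i ∨ j = i + 1 ∨ j = i + 2 ∨ j = i + 3 := by decide

theorem hull_eq (p : Fin 4 → P2) (i : Fin 4) (h : p i ∈ segment ℝ (p (i + 3)) (p (i + 1))) :
    convexHull ℝ (Set.range p) =
      convexHull ℝ (Set.range (![p (i + 1), p (i + 2), p (i + 3)] : Fin 3 → P2)) := by
  set u : Fin 3 → P2 := ![p (i + 1), p (i + 2), p (i + 3)] with hu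
  have hu0 : p (i + 1) ∈ Set.range u := ⟨0, rfl⟩
  have hu1 : p (i + 2) ∈ Set.range u := ⟨1, rfl⟩
  have hu2 : p (i + 3) ∈ Set.range u := ⟨2, rfl⟩
  apply Set.Subset.antisymm
  · refine convexHull_min ?_ (convex_convexHull ℝ _)
    rintro _ ⟨j, rfl⟩
    rcases four i j with rfl | rfl | rfl | rfl
    · exact segment_subset_convexHull hu2 hu0 h
    · exact subset_convexHull ℝ _ hu0
    · exact subset_convexHull ℝ _ hu1
    · exact subset_convexHull ℝ _ hu2
  · refine convexHull_mono ?_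
    rintro _ ⟨j, rfl⟩
    fin_cases j
    · exact ⟨i + 1, rfl⟩
    · exact ⟨i + 2, rfl⟩
    · exact ⟨i + 3, rfl⟩

/-- the conclusion from a degenerate corner -/
theorem concl (z : Z5) (i : Fin 4)
    (h : det2 (vz z i - vz z (i + 3)) (vz z (i + 1) - vz z (i + 3)) = 0)
    (hc : 0 < det2 (vz z (i + 1) - vz z (i + 3)) (vz z (i + 2) - vz z (i + 3)))
    (h0 : 0 ≤ det2 (vz z i - vz z (i + 3)) (vz z (i + 2) - vz z (i + 3)))
    (h1 : det2 (vz z i - vz z (i + 3)) (vz z (i + 2) - vz z (i + 3)) ≤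
      det2 (vz z (i + 1) - vz z (i + 3)) (vz z (i + 2) - vz z (i + 3))) :
    ∃ u : Fin 3 → P2, 0 < det2 (u 1 - u 0) (u 2 - u 0) ∧
      quad (vz z) = interior (convexHull ℝ (Set.range u)) := by
  refine ⟨![vz z (i + 1), vz z (i + 2), vz z (i + 3)], ?_, ?_⟩
  · have : det2 (vz z (i + 2) - vz z (i + 1)) (vz z (i + 3) - vz z (i + 1)) =
        det2 (vz z (i + 1) - vz z (i + 3)) (vz z (i + 2) - vz z (i + 3)) := by
      unfold det2
      simp only [Prod.fst_sub, Prod.snd_sub]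
      ring
    change 0 < det2 (vz z (i + 2) - vz z (i + 1)) (vz z (i + 3) - vz z (i + 1))
    rw [this]
    exact hc
  · unfold quad
    rw [hull_eq (vz z) i (seg_of _ _ _ _ h hc h0 h1)]

/-- the vertices in coordinates -/
theorem coords (z : Z5) :
    vz z 0 = (-(1 + z 0 + z 1) / 2 - z 2 / 2 + z 3 / 4,
      -(z 2) / 2 - (1 + z 0 - z 1) / 2 + z 4 / 4) ∧
    vz z 1 = ((1 + z 0 + z 1) / 2 - z 2 / 2 - z 3 / 4,
      (z 2) / 2 - (1 + z 0 - z 1) / 2 - z 4 / 4) ∧
    vz z 2 = ((1 + z 0 + z 1) / 2 + z 2 / 2 + z 3 / 4,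
      (z 2) / 2 + (1 + z 0 - z 1) / 2 + z 4 / 4) ∧
    vz z 3 = (-(1 + z 0 + z 1) / 2 + z 2 / 2 - z 3 / 4,
      -(z 2) / 2 + (1 + z 0 - z 1) / 2 - z 4 / 4) := by
  refine ⟨?_, ?_, ?_, ?_⟩ <;> ext <;> simp [vz, bz, bil, cor, va, vb, vw] <;> ring

theorem formula (z : Z5) (i : Fin 4) :
    (det2 (vz z i - vz z (i + 3)) (vz z (i + 1) - vz z (i + 3)) =
      ar z + (![-1, 1, 1, -1] i : ℝ) * (det2 (va z) (vw z) / 2) +
        (![-1, -1, 1, 1] i : ℝ) * (det2 (vw z) (vb z) / 2)) ∧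
    (det2 (vz z (i + 1) - vz z (i + 3)) (vz z (i + 2) - vz z (i + 3)) =
      ar z - (![-1, 1, 1, -1] i : ℝ) * (det2 (va z) (vw z) / 2) -
        (![-1, -1, 1, 1] i : ℝ) * (det2 (vw z) (vb z) / 2)) ∧
    (det2 (vz z i - vz z (i + 3)) (vz z (i + 2) - vz z (i + 3)) =
      ar z + (![-1, -1, 1, 1] i : ℝ) * (det2 (va z) (vw z) / 2) +
        (![1, -1, -1, 1] i : ℝ) * (det2 (vw z) (vb z) / 2)) := by
  obtain ⟨e0, e1, e2, e3⟩ := coords z
  fin_cases i
  · refine ⟨?_, ?_, ?_⟩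
    · change det2 (vz z 0 - vz z 3) (vz z 1 - vz z 3) = ar z + (-1 : ℝ) * _ + (-1 : ℝ) * _
      rw [e0, e1, e3]
      simp only [ar, det2, va, vb, vw, Prod.fst_sub, Prod.snd_sub]
      ring
    · change det2 (vz z 1 - vz z 3) (vz z 2 - vz z 3) = ar z - (-1 : ℝ) * _ - (-1 : ℝ) * _
      rw [e1, e2, e3]
      simp only [ar, det2, va, vb, vw, Prod.fst_sub, Prod.snd_sub]
      ring
    · change det2 (vz z 0 - vz z 3) (vz z 2 - vz z 3) = ar z + (-1 : ℝ) * _ + (1 : ℝ) * _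
      rw [e0, e2, e3]
      simp only [ar, det2, va, vb, vw, Prod.fst_sub, Prod.snd_sub]
      ring
  · refine ⟨?_, ?_, ?_⟩
    · change det2 (vz z 1 - vz z 0) (vz z 2 - vz z 0) = ar z + (1 : ℝ) * _ + (-1 : ℝ) * _
      rw [e0, e1, e2]
      simp only [ar, det2, va, vb, vw, Prod.fst_sub, Prod.snd_sub]
      ring
    · change det2 (vz z 2 - vz z 0) (vz z 3 - vz z 0) = ar z - (1 : ℝ) * _ - (-1 : ℝ) * _
      rw [e0, e2, e3]
      simp only [ar, det2, va, vb, vw, Prod.fst_sub, Prod.snd_sub]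
      ring
    · change det2 (vz z 1 - vz z 0) (vz z 3 - vz z 0) = ar z + (-1 : ℝ) * _ + (-1 : ℝ) * _
      rw [e0, e1, e3]
      simp only [ar, det2, va, vb, vw, Prod.fst_sub, Prod.snd_sub]
      ring
  · refine ⟨?_, ?_, ?_⟩
    · change det2 (vz z 2 - vz z 1) (vz z 3 - vz z 1) = ar z + (1 : ℝ) * _ + (1 : ℝ) * _
      rw [e1, e2, e3]
      simp only [ar, det2, va, vb, vw, Prod.fst_sub, Prod.snd_sub]
      ring
    · change det2 (vz z 3 - vz z 1) (vz z 0 - vz z 1) = ar z - (1 : ℝ) * _ - (1 : ℝ) * _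
      rw [e0, e1, e3]
      simp only [ar, det2, va, vb, vw, Prod.fst_sub, Prod.snd_sub]
      ring
    · change det2 (vz z 2 - vz z 1) (vz z 0 - vz z 1) = ar z + (1 : ℝ) * _ + (-1 : ℝ) * _
      rw [e0, e1, e2]
      simp only [ar, det2, va, vb, vw, Prod.fst_sub, Prod.snd_sub]
      ring
  · refine ⟨?_, ?_, ?_⟩
    · change det2 (vz z 3 - vz z 2) (vz z 0 - vz z 2) = ar z + (-1 : ℝ) * _ + (1 : ℝ) * _
      rw [e0, e2, e3]
      simp only [ar, det2, va, vb, vw, Prod.fst_sub, Prod.snd_sub]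
      ring
    · change det2 (vz z 0 - vz z 2) (vz z 1 - vz z 2) = ar z - (-1 : ℝ) * _ - (1 : ℝ) * _
      rw [e0, e1, e2]
      simp only [ar, det2, va, vb, vw, Prod.fst_sub, Prod.snd_sub]
      ring
    · change det2 (vz z 3 - vz z 2) (vz z 1 - vz z 2) = ar z + (1 : ℝ) * _ + (1 : ℝ) * _
      rw [e1, e2, e3]
      simp only [ar, det2, va, vb, vw, Prod.fst_sub, Prod.snd_sub]
      ring

end DegAux

theorem deg : DegStatement := by
  intro z hA h
  rcases le_or_gt 0 (det2 (va z) (vw z)) with hP | hP <;>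
  rcases le_or_gt 0 (det2 (vw z) (vb z)) with hQ | hQ
  · rw [abs_of_nonneg hP, abs_of_nonneg hQ] at h
    obtain ⟨h1, h2, h3⟩ := DegAux.formula z 0
    simp only [Matrix.cons_val_zero] at h1 h2 h3
    exact DegAux.concl z 0 (by linarith) (by linarith) (by linarith) (by linarith)
  · rw [abs_of_nonneg hP, abs_of_neg hQ] at h
    obtain ⟨h1, h2, h3⟩ := DegAux.formula z 3
    simp only [Fin.isValue, Matrix.cons_val] at h1 h2 h3
    exact DegAux.concl z 3 (by linarith) (by linarith) (by linarith) (by linarith)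
  · rw [abs_of_neg hP, abs_of_nonneg hQ] at h
    obtain ⟨h1, h2, h3⟩ := DegAux.formula z 1
    simp only [Fin.isValue, Matrix.cons_val] at h1 h2 h3
    exact DegAux.concl z 1 (by linarith) (by linarith) (by linarith) (by linarith)
  · rw [abs_of_neg hP, abs_of_neg hQ] at h
    obtain ⟨h1, h2, h3⟩ := DegAux.formula z 2
    simp only [Fin.isValue, Matrix.cons_val] at h1 h2 h3
    exact DegAux.concl z 2 (by linarith) (by linarith) (by linarith) (by linarith)

end Pool.SqDrum
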