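import Pool.Agent.Lib.MP_2805c2_an.ST.Iface

set_option autoImplicit false
set_option linter.all false

/-!
# DET: the Jacobian determinant
-/

namespace Pool.SqDrum

open MeasureTheory Set Filter Topology

namespace DetAux

theorem det_eq (A : Z5 →L[ℝ] Z5) :
    A.det = ∑ σ : Equiv.Perm (Fin 5), ((Equiv.Perm.sign σ : ℤ) : ℝ) *
      ∏ i, A (Pi.single i 1) (σ i) := by
  have h1 : A.det = (LinearMap.toMatrix' (A : Z5 →ₗ[ℝ] Z5)).det := by
    rw [LinearMap.det_toMatrix']
  rw [h1, Matrix.det_apply']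
  refine Finset.sum_congr rfl fun σ _ => ?_
  congr 1

end DetAux

theorem det : DetStatement := by
  intro f z hf
  have hF : AnalyticAt ℝ (fun (x : Z5) (i : Fin 5) => f i x) z := by
    rw [analyticAt_pi_iff]
    exact hf
  have hd : (fderiv ℝ (fun (x : Z5) (i : Fin 5) => f i x) z) =
      ContinuousLinearMap.pi (fun i => fderiv ℝ (f i) z) :=
    (hasFDerivAt_pi.2 fun i => (hf i).differentiableAt.hasFDerivAt).fderiv
  refine ⟨?_, hF, ?_⟩
  · have h1 : AnalyticAt ℝ (fderiv ℝ (fun (x : Z5) (i : Fin 5) => f i x)) z := hF.fderiv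
    have h2 : (fun y : Z5 => (fderiv ℝ (fun x (i : Fin 5) => f i x) y).det) =
        fun y : Z5 => ∑ σ : Equiv.Perm (Fin 5), ((Equiv.Perm.sign σ : ℤ) : ℝ) *
          ∏ i, (fderiv ℝ (fun x (i : Fin 5) => f i x) y) (Pi.single i 1) (σ i) := by
      funext y
      exact DetAux.det_eq _
    rw [h2]
    refine Finset.analyticAt_fun_sum _ fun σ _ => ?_
    refine analyticAt_const.mul ?_
    refine Finset.analyticAt_fun_prod _ fun i _ => ?_
    have h3 : AnalyticAt ℝ (fun A : Z5 →L[ℝ] Z5 => A (Pi.single i 1) (σ i))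
        (fderiv ℝ (fun (x : Z5) (i : Fin 5) => f i x) z) :=
      ((ContinuousLinearMap.proj (R := ℝ) (φ := fun _ : Fin 5 => ℝ) (σ i)).comp
        (ContinuousLinearMap.apply ℝ Z5 (Pi.single i 1 : Z5))).analyticAt _
    exact AnalyticAt.comp' h3 h1
  · intro hli
    rw [hd]
    have h1 : (ContinuousLinearMap.pi (fun i => fderiv ℝ (f i) z)).det =
        (LinearMap.toMatrix' ((ContinuousLinearMap.pi (fun i => fderiv ℝ (f i) z) :
          Z5 →L[ℝ] Z5) : Z5 →ₗ[ℝ] Z5)).det := by
      rw [LinearMap.det_toMatrix']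
    rw [h1]
    set M := LinearMap.toMatrix' ((ContinuousLinearMap.pi (fun i => fderiv ℝ (f i) z) :
          Z5 →L[ℝ] Z5) : Z5 →ₗ[ℝ] Z5) with hM
    have hrow : LinearIndependent ℝ M.row := by
      let L : (Z5 →L[ℝ] ℝ) →ₗ[ℝ] Z5 :=
        { toFun := fun l j => l (Pi.single j 1)
          map_add' := fun _ _ => rfl
          map_smul' := fun _ _ => rfl }
      have hL : LinearMap.ker L = ⊥ := by
        rw [LinearMap.ker_eq_bot']
        intro l hl
        have : (l : Z5 →ₗ[ℝ] ℝ) = 0 := by
          refine LinearMap.pi_ext' fun j => ?_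
          refine LinearMap.ext_ring ?_
          exact congrFun hl j
        exact ContinuousLinearMap.coe_injective this
      have h2 := hli.map' L hL
      have h3 : M.row = L ∘ fun i => fderiv ℝ (f i) z := by
        funext i j
        rw [hM]
        show LinearMap.toMatrix' _ i j = _
        rw [LinearMap.toMatrix'_apply]
        rfl
      rw [h3]
      exact h2
    have h4 : IsUnit M := Matrix.linearIndependent_rows_iff_isUnit.1 hrow
    exact ((Matrix.isUnit_iff_isUnit_det _).1 h4).ne_zero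

end Pool.SqDrum
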