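import Pool.Agent.Lib.MP_2805c2_an.ST.Iface
import Pool.Agent.Lib.MP_2805c2_an.SQ.Fsp

set_option autoImplicit false

/-!
# EBA: eigenbases
-/

namespace Pool.SqDrum

open MeasureTheory Set Filter Topology Module
open scoped ENNReal ContDiff InnerProductSpace

namespace EbaAux

theorem abs {E : Type} [NormedAddCommGroup E] [InnerProductSpace ℝ E] [CompleteSpace E]
    (hDIA : DiaStatement) (c : E →L[ℝ] L2) (hc : IsCompactOperator c)
    (hinj : ∀ F, c F = 0 → F = 0) :
    ∃ (ι : Type) (b : HilbertBasis ι ℝ E) (s : ι → ℝ), (∀ i, 0 < s i) ∧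
      (∀ i, c.adjoint (c (b i)) = s i • b i) ∧
      ∀ m : ℕ, 0 < m → hs ((c.comp c.adjoint) ^ m) = ∑' i, ENNReal.ofReal (s i ^ (2 * m)) := by
  set Tc := c.adjoint.comp c with hTcdef
  have hTc : IsCompactOperator Tc := hc.clm_comp c.adjoint
  have fd : ∀ κ : {κ : ℝ // κ ≠ 0},
      FiniteDimensional ℝ (End.eigenspace (Tc : End ℝ E) κ.1) := fun κ =>
    ContinuousLinearMap.finite_dimensional_eigenspace hTc κ.1 κ.2
  let B : ∀ κ : {κ : ℝ // κ ≠ 0}, OrthonormalBasis
      (Fin (finrank ℝ (End.eigenspace (Tc : End ℝ E) κ.1))) ℝ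
      (End.eigenspace (Tc : End ℝ E) κ.1) := fun κ => by
    haveI := fd κ
    exact stdOrthonormalBasis ℝ (End.eigenspace (Tc : End ℝ E) κ.1)
  let v : (Σ κ : {κ : ℝ // κ ≠ 0},
      Fin (finrank ℝ (End.eigenspace (Tc : End ℝ E) κ.1))) → E :=
    fun i => (B i.1 i.2 : E)
  have hTv : ∀ i, Tc (v i) = (i.1 : ℝ) • v i := fun i =>
    End.mem_eigenspace_iff.1 (B i.1 i.2).2
  have hv : Orthonormal ℝ v := by
    have := OrthogonalFamily.orthonormal_sigma_orthonormal
      ((fsp_symm c).orthogonalFamily_eigenspaces.comp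
        (Subtype.coe_injective (p := fun κ : ℝ => κ ≠ 0)))
      (v_family := fun κ => B κ) (fun κ => (B κ).orthonormal)
    exact this
  have hpos : ∀ i : (Σ κ : {κ : ℝ // κ ≠ 0},
      Fin (finrank ℝ (End.eigenspace (Tc : End ℝ E) κ.1))), 0 < (i.1 : ℝ) :=
    fun i => fsp_pos c (hTv i) (hv.1 i) i.1.2
  have hsp : (Submodule.span ℝ (Set.range v))ᗮ = ⊥ := by
    have h := ContinuousLinearMap.orthogonalComplement_iSup_eigenspaces_eq_bot hTc (fsp_symm c)
    rw [eq_bot_iff, ← h]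
    refine Submodule.orthogonal_le (iSup_le fun κ => ?_)
    by_cases hκ : κ = 0
    · intro F hF
      have h0 : Tc F = 0 := by
        have := End.mem_eigenspace_iff.1 hF
        rw [hκ, zero_smul] at this
        exact this
      have h1 : ⟪c F, c F⟫_ℝ = 0 := by rw [← fsp_T, ← hTcdef, h0, inner_zero_left]
      rw [hinj F (inner_self_eq_zero.1 h1)]
      exact Submodule.zero_mem _
    · intro F hF
      have h1 := (B ⟨κ, hκ⟩).sum_repr ⟨F, hF⟩
      have h2 := congrArg (fun u : End.eigenspace (Tc : End ℝ E) κ => (u : E)) h1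
      simp only [Submodule.coe_sum, Submodule.coe_smul] at h2
      rw [← h2]
      refine Submodule.sum_mem _ fun j _ => Submodule.smul_mem _ _ (Submodule.subset_span ?_)
      exact ⟨⟨⟨κ, hκ⟩, j⟩, rfl⟩
  let b := HilbertBasis.mkOfOrthogonalEqBot hv hsp
  have hbv : ∀ i, b i = v i := fun i => by
    rw [HilbertBasis.coe_mkOfOrthogonalEqBot]
  let u : (Σ κ : {κ : ℝ // κ ≠ 0},
      Fin (finrank ℝ (End.eigenspace (Tc : End ℝ E) κ.1))) → L2 :=
    fun i => (Real.sqrt (i.1 : ℝ))⁻¹ • (c (v i))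
  have huu : ∀ i j : (Σ κ : {κ : ℝ // κ ≠ 0},
      Fin (finrank ℝ (End.eigenspace (Tc : End ℝ E) κ.1))), ⟪c (v i), c (v j)⟫_ℝ = if i = j then (i.1 : ℝ) else 0 := by
    intro i j
    rw [← fsp_T, ← hTcdef, hTv, real_inner_smul_left, orthonormal_iff_ite.1 hv i j]
    split_ifs with h
    · simp
    · simp
  have hu : ∀ i j, ⟪u i, u j⟫_ℝ = if i = j then 1 else 0 := by
    intro i j
    show ⟪(Real.sqrt (i.1 : ℝ))⁻¹ • (c (v i)), (Real.sqrt (j.1 : ℝ))⁻¹ • (c (v j))⟫_ℝ = _
    rw [real_inner_smul_left, real_inner_smul_right, huu]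
    split_ifs with h
    · rw [h]
      have h1 := Real.sqrt_pos.2 (hpos j)
      have h2 := Real.mul_self_sqrt (hpos j).le
      field_simp
      rw [sq, h2]
    · simp
  have hres : ∀ f, HasSum (fun i => ((i.1 : ℝ) * ⟪u i, f⟫_ℝ) • u i) ((c.comp c.adjoint) f) := by
    intro f
    have h1 := b.hasSum_repr (c.adjoint f)
    have h2 := h1.mapL c
    have h3 : c (c.adjoint f) = (c.comp c.adjoint) f := rfl
    rw [h3] at h2
    refine h2.congr_fun fun i => ?_
    rw [map_smul, b.repr_apply_apply, hbv, ContinuousLinearMap.adjoint_inner_right]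
    show ((i.1 : ℝ) * ⟪(Real.sqrt (i.1 : ℝ))⁻¹ • (c (v i)), f⟫_ℝ) •
      (Real.sqrt (i.1 : ℝ))⁻¹ • (c (v i)) = _
    rw [real_inner_smul_left, smul_smul]
    congr 1
    have h1 := Real.sqrt_pos.2 (hpos i)
    have h2 := Real.mul_self_sqrt (hpos i).le
    field_simp
    rw [sq, h2]
  have hresu : ∀ i, (c.comp c.adjoint) (u i) = (i.1 : ℝ) • u i := by
    intro i
    refine (hres (u i)).unique ?_
    have := hasSum_ite_eq i ((i.1 : ℝ) • u i)
    refine this.congr_fun fun j => ?_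
    rw [hu]
    by_cases h : j = i
    · subst h; simp
    · simp [h]
  have hrsymm : ∀ f g : L2, ⟪(c.comp c.adjoint) f, g⟫_ℝ = ⟪f, (c.comp c.adjoint) g⟫_ℝ := by
    intro f g
    show ⟪c (c.adjoint f), g⟫_ℝ = ⟪f, c (c.adjoint g)⟫_ℝ
    exact (ContinuousLinearMap.adjoint_inner_right c (c.adjoint f) g).symm.trans
      (ContinuousLinearMap.adjoint_inner_left c (c.adjoint g) f)
  have hpow : ∀ (n : ℕ) (i) (f : L2),
      ⟪u i, ((c.comp c.adjoint) ^ n) f⟫_ℝ = (i.1 : ℝ) ^ n * ⟪u i, f⟫_ℝ := by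
    intro n i
    induction n with
    | zero => intro f; simp
    | succ n ih =>
      intro f
      have e : ((c.comp c.adjoint) ^ (n + 1)) f =
          (c.comp c.adjoint) (((c.comp c.adjoint) ^ n) f) := by
        rw [pow_succ']; rfl
      rw [e, ← hrsymm, hresu, real_inner_smul_left, ih]
      ring
  refine ⟨_, b, fun i => (i.1 : ℝ), hpos, fun i => ?_, fun m hm => ?_⟩
  · rw [hbv i]
    exact hTv i
  · obtain ⟨n, rfl⟩ : ∃ n, m = n + 1 := ⟨m - 1, by omega⟩
    have hexp : ∀ f, HasSum (fun i => ((i.1 : ℝ) ^ (n + 1) * ⟪u i, f⟫_ℝ) • u i)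
        (((c.comp c.adjoint) ^ (n + 1)) f) := by
      intro f
      have e : ((c.comp c.adjoint) ^ (n + 1)) f =
          (c.comp c.adjoint) (((c.comp c.adjoint) ^ n) f) := by
        rw [pow_succ']; rfl
      rw [e]
      refine (hres (((c.comp c.adjoint) ^ n) f)).congr_fun fun i => ?_
      rw [hpow]
      congr 1
      ring
    have hun : ∀ i, ‖u i‖ = 1 := fun i => by
      have := hu i i
      rw [if_pos rfl, real_inner_self_eq_norm_sq] at this
      have h0 := norm_nonneg (u i)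
      nlinarith
    have hdia := hDIA _ u (fun i => (i.1 : ℝ) ^ (n + 1)) ((c.comp c.adjoint) ^ (n + 1))
      (ContinuousLinearMap.id ℝ L2)
      (fun i j hij => by rw [hu, if_neg hij]) (fun i => Or.inr (hun i)) hexp
    rw [ContinuousLinearMap.id_comp] at hdia
    rw [hdia]
    refine tsum_congr fun i => ?_
    have h3 : ‖u i‖ₑ = 1 := by
      rw [← ofReal_norm, hun i, ENNReal.ofReal_one]
    rw [ContinuousLinearMap.id_apply, h3, one_pow, mul_one, Real.enorm_eq_ofReal_abs,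
      ← ENNReal.ofReal_pow (abs_nonneg _), sq_abs, ← pow_mul, mul_comm 2 (n + 1)]

end EbaAux

theorem eba (hCMP : CmpStatement) (hINJ : InjStatement) (hDIA : DiaStatement)
    (hUPV : UpvStatement) : EbaStatement := by
  intro Ω hΩ hb
  obtain ⟨ι, b, s, hs0, hbs, htr⟩ := EbaAux.abs hDIA (co Ω 0) (hCMP Ω hΩ hb) (fun F hF =>
    Subtype.ext (hINJ F (H_mono (Set.subset_univ Ω) F.2) hF))
  have e0 : (co Ω 0).comp (co Ω 0).adjoint = res Ω := rfl
  rw [e0] at htr
  have h1 := htr 1 one_pos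
  rw [pow_one] at h1
  have hfin : ∑' i, ENNReal.ofReal (s i ^ (2 * 1)) ≠ ⊤ := by
    rw [← h1]
    exact ne_top_of_le_ne_top ENNReal.ofReal_ne_top (hUPV Ω hΩ hb)
  have hsum : Summable (fun i => s i ^ (2 * 1)) := by
    have h2 := ENNReal.summable_toReal hfin
    refine h2.congr fun i => ?_
    rw [ENNReal.toReal_ofReal (by have := hs0 i; positivity)]
  have hle : ∀ i, s i ^ 2 ≤ ∑' j, s j ^ (2 * 1) := fun i => by
    have := hsum.le_tsum i (fun j _ => by have := hs0 j; positivity)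
    simpa using this
  have hsm : ∀ m : ℕ, 0 < m → Summable (fun i => s i ^ (2 * m)) := by
    intro m hm
    obtain ⟨n, rfl⟩ : ∃ n, m = n + 1 := ⟨m - 1, by omega⟩
    refine Summable.of_nonneg_of_le (fun i => by have := hs0 i; positivity) (fun i => ?_)
      (hsum.mul_left ((∑' j, s j ^ (2 * 1)) ^ n))
    have h0 : 0 ≤ s i ^ 2 := by positivity
    have e : s i ^ (2 * (n + 1)) = (s i ^ 2) ^ n * s i ^ (2 * 1) := by ring
    rw [e]
    exact mul_le_mul_of_nonneg_right (pow_le_pow_left₀ h0 (hle i) n) (by positivity)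
  refine ⟨ι, b, s, hs0, fun i => hbs i, fun m hm => ⟨hsm m hm, ?_⟩⟩
  rw [Tr, htr m hm, ENNReal.ofReal_tsum_of_nonneg (fun i => by have := hs0 i; positivity)
    (hsm m hm)]

end Pool.SqDrum
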