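import Pool.Agent.Lib.MP_2805c2_an.ST.Iface

set_option autoImplicit false
set_option linter.all false

/-!
# ENL: null sets in Euclidean coordinates and permutations
-/

namespace Pool.SqDrum

open MeasureTheory Set Filter Topology

namespace EnlAux

/-- the preimage of a null set under a linear equivalence is null -/
theorem preim_null {E F : Type*} [NormedAddCommGroup E] [NormedSpace ℝ E] [MeasurableSpace E]
    [BorelSpace E] [FiniteDimensional ℝ E] [NormedAddCommGroup F] [NormedSpace ℝ F]
    [MeasurableSpace F] [BorelSpace F] [FiniteDimensional ℝ F] (μ : Measure E) (ν : Measure F)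
    [μ.IsAddHaarMeasure] [ν.IsAddHaarMeasure] (L : E ≃L[ℝ] F) {S : Set F} (hS : ν S = 0) :
    μ (L ⁻¹' S) = 0 := by
  haveI : (μ.map L).IsAddHaarMeasure := L.isAddHaarMeasure_map μ
  have h1 : μ.map L S = 0 := by
    rw [Measure.isAddLeftInvariant_eq_smul (μ.map L) ν, Measure.smul_apply, hS, smul_zero]
  have h2 : μ.map L S = μ (L ⁻¹' S) :=
    (L.toHomeomorph.toMeasurableEquiv.map_apply S)
  rw [← h2, h1]

end EnlAux

theorem enl : EnlStatement := by
  intro S hS σ
  let L0 : (Fin 4 → E.E2) ≃ₗ[ℝ] (Fin 4 → P2) :=
    { toFun := fun p i => ((p (σ i) 0, p (σ i) 1) : P2)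
      map_add' := fun _ _ => rfl
      map_smul' := fun _ _ => rfl
      invFun := fun q i => WithLp.toLp 2 ![(q (σ.symm i)).1, (q (σ.symm i)).2]
      left_inv := by
        intro p
        funext i
        ext j
        fin_cases j
        · show p (σ (σ.symm i)) 0 = p i 0
          rw [Equiv.apply_symm_apply]
        · show p (σ (σ.symm i)) 1 = p i 1
          rw [Equiv.apply_symm_apply]
      right_inv := by
        intro q
        funext i
        refine Prod.ext ?_ ?_
        · show (q (σ.symm (σ i))).1 = (q i).1
          rw [Equiv.symm_apply_apply]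
        · show (q (σ.symm (σ i))).2 = (q i).2
          rw [Equiv.symm_apply_apply] }
  let L : (Fin 4 → E.E2) ≃L[ℝ] (Fin 4 → P2) := L0.toContinuousLinearEquiv
  exact EnlAux.preim_null (volume : Measure (Fin 4 → E.E2)) (volume : Measure (Fin 4 → P2)) L hS

end Pool.SqDrum
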