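import Pool.Agent.Lib.MP_2805c2_an.ST.Iface
import Pool.Agent.Lib.MP_2805c2_an.SQ.Fsp

set_option autoImplicit false

/-!
# GAN: the traces are analytic
-/

namespace Pool.SqDrum

open MeasureTheory Set Filter Topology
open scoped ENNReal InnerProductSpace

namespace GanAux

theorem D_bdd : Bornology.IsBounded D := by
  unfold D Sq
  exact (Metric.isBounded_Ioo _ _).prod (Metric.isBounded_Ioo _ _)

/-- symmetric powers -/
theorem pow_symm {E : Type} [NormedAddCommGroup E] [InnerProductSpace ℝ E]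
    {R : E →L[ℝ] E} (h : ∀ x y, ⟪R x, y⟫_ℝ = ⟪x, R y⟫_ℝ) (n : ℕ) :
    ∀ x y, ⟪(R ^ n) x, y⟫_ℝ = ⟪x, (R ^ n) y⟫_ℝ := by
  induction n with
  | zero => intro x y; rfl
  | succ n ih =>
    intro x y
    have e1 : (R ^ (n + 1)) x = R ((R ^ n) x) := by rw [pow_succ']; rfl
    have e2 : (R ^ (n + 1)) y = (R ^ n) (R y) := by rw [pow_succ]; rfl
    rw [e1, e2, h, ih]

theorem pow_eig {E : Type} [NormedAddCommGroup E] [InnerProductSpace ℝ E]
    {R : E →L[ℝ] E} {x : E} {s : ℝ} (h : R x = s • x) (n : ℕ) : (R ^ n) x = s ^ n • x := by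
  induction n with
  | zero => simp
  | succ n ih =>
    have e1 : (R ^ (n + 1)) x = R ((R ^ n) x) := by rw [pow_succ']; rfl
    rw [e1, ih, map_smul, h, smul_smul, pow_succ]

/-- the intertwining relation -/
theorem inter {E E' : Type} [NormedAddCommGroup E] [InnerProductSpace ℝ E] [CompleteSpace E]
    [NormedAddCommGroup E'] [InnerProductSpace ℝ E'] [CompleteSpace E'] (V : E ≃L[ℝ] E')
    {S B N : E →L[ℝ] E} {T' : E' →L[ℝ] E'} (h1 : ∀ F G, ⟪V F, V G⟫_ℝ = ⟪S F, G⟫_ℝ)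
    (h2 : ∀ F G, ⟪T' (V F), V G⟫_ℝ = ⟪B F, G⟫_ℝ) (h3 : ∀ F, S (N F) = F) (n : ℕ) (y : E') :
    ((B * N) ^ n) ((V : E →L[ℝ] E').adjoint y) = (V : E →L[ℝ] E').adjoint ((T' ^ n) y) := by
  have k1 : ∀ F, (V : E →L[ℝ] E').adjoint (V F) = S F := fun F => by
    refine ext_inner_right ℝ fun G => ?_
    rw [ContinuousLinearMap.adjoint_inner_left, ← h1]
    rfl
  have k2 : ∀ F, (V : E →L[ℝ] E').adjoint (T' (V F)) = B F := fun F => by
    refine ext_inner_right ℝ fun G => ?_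
    rw [ContinuousLinearMap.adjoint_inner_left, ← h2]
    rfl
  have kinj : ∀ u, (V : E →L[ℝ] E').adjoint u = 0 → u = 0 := fun u hu => by
    have h5 : ⟪(V : E →L[ℝ] E').adjoint u, V.symm u⟫_ℝ = ⟪u, u⟫_ℝ := by
      rw [ContinuousLinearMap.adjoint_inner_left]
      show ⟪u, V (V.symm u)⟫_ℝ = _
      rw [V.apply_symm_apply]
    rw [hu, inner_zero_left] at h5
    exact inner_self_eq_zero.1 h5.symm
  have k3 : ∀ y, (B * N) ((V : E →L[ℝ] E').adjoint y) = (V : E →L[ℝ] E').adjoint (T' y) := by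
    intro y
    have e1 : V (N ((V : E →L[ℝ] E').adjoint y)) = y := by
      have e2 := k1 (N ((V : E →L[ℝ] E').adjoint y))
      rw [h3] at e2
      have e3 := kinj (V (N ((V : E →L[ℝ] E').adjoint y)) - y) (by rw [map_sub, e2, sub_self])
      exact sub_eq_zero.1 e3
    have e4 := k2 (N ((V : E →L[ℝ] E').adjoint y))
    rw [e1] at e4
    exact e4.symm
  induction n generalizing y with
  | zero => rfl
  | succ n ih =>
    have e1 : ((B * N) ^ (n + 1)) ((V : E →L[ℝ] E').adjoint y) =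
        ((B * N) ^ n) ((B * N) ((V : E →L[ℝ] E').adjoint y)) := by rw [pow_succ]; rfl
    have e2 : (T' ^ (n + 1)) y = (T' ^ n) (T' y) := by rw [pow_succ]; rfl
    rw [e1, e2, k3, ih]

theorem anaX {E : Type} [NormedAddCommGroup E] [InnerProductSpace ℝ E] [CompleteSpace E]
    {B N : Z5 → E →L[ℝ] E} {z : Z5} (hB : AnalyticAt ℝ B z) (hN : AnalyticAt ℝ N z) (n : ℕ) :
    AnalyticAt ℝ (fun z => N z * (B z * N z) ^ n) z :=
  hN.mul ((hB.mul hN).pow n)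

theorem anaU {E F G : Type} [NormedAddCommGroup E] [NormedSpace ℝ E] [NormedAddCommGroup F]
    [NormedSpace ℝ F] [NormedAddCommGroup G] [NormedSpace ℝ G] (U : E →L[ℝ] F →L[ℝ] G)
    {M : Z5 → E} {X : Z5 → F} {z : Z5} (hM : AnalyticAt ℝ M z) (hX : AnalyticAt ℝ X z) :
    AnalyticAt ℝ (fun z => U (M z) (X z)) z :=
  AnalyticAt.fun_comp (g := fun p : E × F => U p.1 p.2) (f := fun z => (M z, X z))
    (U.analyticAt_bilinear _) (hM.prod hX)

theorem anaI {G : Type} [NormedAddCommGroup G] [InnerProductSpace ℝ G]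
    {M X : Z5 → G} {z : Z5} (hM : AnalyticAt ℝ M z) (hX : AnalyticAt ℝ X z) :
    AnalyticAt ℝ (fun z => ⟪M z, X z⟫_ℝ) z :=
  anaU (innerSL ℝ) hM hX

end GanAux

theorem gan (hWFR : WfrStatement) (hWIN : WinStatement) (hEBA : EbaStatement)
    (hHSM : HsmStatement) (hTRA : TraStatement) (hVTR : VtrStatement) (hWDF : WdfStatement) :
    GanStatement := by
  intro Ω₀ hΩ₀ hsub m hm
  obtain ⟨n, rfl⟩ : ∃ n, m = n + 1 := ⟨m - 1, by omega⟩
  have hb₀ : Bornology.IsBounded Ω₀ := GanAux.D_bdd.subset hsub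
  obtain ⟨ι, b, s, hs0, hbs, htr⟩ := hEBA Ω₀ hΩ₀ hb₀
  have hsum : Summable (fun i => s i ^ 2) := by simpa using (htr 1 one_pos).1
  obtain ⟨U, V', hUV⟩ := hHSM (H Ω₀) (co Ω₀ 0) ι b s hs0 hbs hsum
  obtain ⟨N, hN⟩ := hWIN Ω₀ hΩ₀ hsub
  set M : Z5 → (L2 →L[ℝ] L2) := fun z => mul (Ω₀.indicator (jc (px z) (py z))) with hM
  set B : Z5 → (H Ω₀ →L[ℝ] H Ω₀) := fun z => mss Ω₀ (px z) (py z) with hB
  set X : Z5 → (H Ω₀ →L[ℝ] H Ω₀) := fun z => N z * (B z * N z) ^ n with hX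
  refine ⟨fun z => ⟪U (M z) (X z), V' (M z) (X z)⟫_ℝ, fun z hz => ?_⟩
  obtain ⟨a1, a2, a3⟩ := hWFR.2 Ω₀ hΩ₀.measurableSet hsub z hz
  obtain ⟨hNa, hN1, hN2⟩ := hN z hz
  have aM : AnalyticAt ℝ M z := a1
  have aB : AnalyticAt ℝ B z := a3
  have aX : AnalyticAt ℝ X z := GanAux.anaX aB hNa n
  -- the domain
  obtain ⟨hD, hop, hbd⟩ := hWDF.2 z hz Ω₀ hΩ₀ hsub
  obtain ⟨e1, e2⟩ := hWDF.1 z
  obtain ⟨V, hV⟩ := hVTR (bz z) Ω₀ (bz z '' Ω₀) hD
  rw [e1, e2] at hV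
  obtain ⟨ι', e, s', hs0', hes, htr'⟩ := hEBA (bz z '' Ω₀) hop hbd
  set K : H Ω₀ →L[ℝ] H Ω₀ := (B z * N z) ^ (n + 1) with hK
  have hKX : K = (co Ω₀ 0).adjoint.comp ((M z).comp ((co Ω₀ 0).comp (X z))) := by
    have : K = B z * X z := by rw [hK, pow_succ', mul_assoc]
    rw [this, hB]
    simp only
    rw [hWFR.1]
    rfl
  have hTs : ∀ x y, ⟪T (bz z '' Ω₀) x, y⟫_ℝ = ⟪x, T (bz z '' Ω₀) y⟫_ℝ := fun x y =>
    fsp_symm (co (bz z '' Ω₀) 0) x y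
  have hRn : ∀ j, ‖((T (bz z '' Ω₀)) ^ (n + 1)) (e j)‖ ^ 2 = s' j ^ (2 * (n + 1)) := fun j => by
    rw [GanAux.pow_eig (hes j) (n + 1), norm_smul, e.orthonormal.1 j, mul_one, Real.norm_eq_abs,
      sq_abs, ← pow_mul, mul_comm]
  have hRs : Summable (fun j => ‖((T (bz z '' Ω₀)) ^ (n + 1)) (e j)‖ ^ 2) :=
    (htr' (n + 1) n.succ_pos).1.congr fun j => (hRn j).symm
  have hT := hTRA (H Ω₀) (H (bz z '' Ω₀)) V ((T (bz z '' Ω₀)) ^ (n + 1)) ι ι' b e K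
    (GanAux.pow_symm hTs (n + 1)) hRs
    (fun y => GanAux.inter V (fun F G => (hV F G).1) (fun F G => (hV F G).2)
      (fun F => by
        have := congrArg (fun L : H Ω₀ →L[ℝ] H Ω₀ => L F) hN1
        exact this) (n + 1) y)
  have hg : ⟪U (M z) (X z), V' (M z) (X z)⟫_ℝ = ∑' j, s' j ^ (2 * (n + 1)) := by
    have h1 := lp.hasSum_inner (𝕜 := ℝ) (U (M z) (X z)) (V' (M z) (X z))
    have h2 : (fun i => ⟪(U (M z) (X z) : ι → H Ω₀) i, (V' (M z) (X z) : ι → H Ω₀) i⟫_ℝ) =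
        fun i => ⟪K (b i), K.adjoint (b i)⟫_ℝ := by
      funext i
      rw [(hUV (M z) (X z) i).1, (hUV (M z) (X z) i).2, ← hKX, hKX]
      rfl
    rw [h2] at h1
    rw [h1.unique hT]
    exact tsum_congr hRn
  refine ⟨?_, ?_, ?_⟩
  · exact GanAux.anaI (GanAux.anaU U aM aX) (GanAux.anaU V' aM aX)
  · show 0 ≤ ⟪U (M z) (X z), V' (M z) (X z)⟫_ℝ
    rw [hg]
    exact tsum_nonneg fun j => by have := hs0' j; positivity
  · show Tr (bz z '' Ω₀) (n + 1) = ENNReal.ofReal ⟪U (M z) (X z), V' (M z) (X z)⟫_ℝ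
    rw [hg]
    exact (htr' (n + 1) n.succ_pos).2

end Pool.SqDrum
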