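import Pool.Agent.Lib.MP_2805c2_an.ST.Iface

set_option autoImplicit false

/-!
# GMO: monotonicity of the traces
-/

namespace Pool.SqDrum

open MeasureTheory Set Filter Topology
open scoped ENNReal ContDiff InnerProductSpace

namespace GmoAux

theorem inner_nonneg' {f g : L2} (hf : 0 ≤ f) (hg : 0 ≤ g) : 0 ≤ ⟪f, g⟫_ℝ := by
  rw [inner_eq]
  have h1 := Lp.coeFn_nonneg f |>.2 hf
  have h2 := Lp.coeFn_nonneg g |>.2 hg
  refine integral_nonneg_of_ae ?_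
  filter_upwards [h1, h2] with x h3 h4
  exact mul_nonneg h3 h4

theorem nonneg_of_inner {h : L2} (hh : ∀ g : L2, 0 ≤ g → 0 ≤ ⟪g, h⟫_ℝ) : 0 ≤ h := by
  have h0 : (0 : L2) ≤ (-h) ⊔ 0 := le_sup_right
  have h1 := hh _ h0
  have h2 : ⟪(-h) ⊔ 0, h⟫_ℝ = - ⟪(-h) ⊔ 0, (-h) ⊔ 0⟫_ℝ := by
    rw [inner_eq, inner_eq, ← integral_neg]
    refine integral_congr_ae ?_
    filter_upwards [Lp.coeFn_sup (-h) 0, Lp.coeFn_neg h, Lp.coeFn_zero (E := ℝ) (p := 2)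
      (μ := (volume : Measure P2))] with x h3 h4 h5
    rw [h3, Pi.sup_apply, h4, h5]
    simp only [Pi.neg_apply, Pi.zero_apply]
    rcases le_total (-(h x)) 0 with h6 | h6
    · rw [sup_eq_right.2 h6]; simp
    · rw [sup_eq_left.2 h6]; ring
  have h3 : ⟪(-h) ⊔ 0, (-h) ⊔ 0⟫_ℝ = 0 := by
    have := real_inner_self_nonneg (x := (-h) ⊔ 0)
    linarith
  have h4 : (-h) ⊔ 0 = 0 := inner_self_eq_zero.1 h3
  have h5 : -h ≤ 0 := by rw [← h4]; exact le_sup_left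
  exact neg_nonpos.1 h5

theorem pow_mono {K K' : L2 →L[ℝ] L2} (hK : ∀ f g : L2, 0 ≤ f → 0 ≤ g →
    0 ≤ ⟪g, K f⟫_ℝ ∧ ⟪g, K f⟫_ℝ ≤ ⟪g, K' f⟫_ℝ) (m : ℕ) : ∀ f g : L2, 0 ≤ f → 0 ≤ g →
    0 ≤ ⟪g, (K ^ m) f⟫_ℝ ∧ ⟪g, (K ^ m) f⟫_ℝ ≤ ⟪g, (K' ^ m) f⟫_ℝ := by
  induction m with
  | zero => intro f g hf hg; simpa using inner_nonneg' hg hf
  | succ m ih =>
    intro f g hf hg
    have h1 : 0 ≤ K f := nonneg_of_inner fun g hg => (hK f g hf hg).1
    have h2 : 0 ≤ K' f - K f := nonneg_of_inner fun g hg => by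
      rw [inner_sub_right]; linarith [(hK f g hf hg).2]
    have h3 := ih _ g h1 hg
    have h4 := ih _ g h2 hg
    rw [map_sub, map_sub, inner_sub_right, inner_sub_right] at h4
    rw [pow_succ, pow_succ]
    simp only [ContinuousLinearMap.mul_apply]
    exact ⟨h3.1, by linarith [h3.2, h4.1, h4.2]⟩

theorem ind_univ (K : L2 →L[ℝ] L2) : (ind univ).comp K = K := by
  ext1 f
  refine Lp.ext ?_
  filter_upwards [ind_coe MeasurableSet.univ (K f)] with x hx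
  simpa using hx

end GmoAux

theorem gmo (mon : MonStatement) (hsd : HsdStatement) : GmoStatement := by
  intro Ω Ω' hΩ hΩ' h m
  have h1 := hsd _ _ (GmoAux.pow_mono (mon Ω Ω' hΩ hΩ' h) m) univ MeasurableSet.univ
  rwa [GmoAux.ind_univ, GmoAux.ind_univ] at h1

end Pool.SqDrum
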