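import Mathlib
import Pool.Agent.Lib.MP_2805c2_an.ST.Iface

set_option autoImplicit false

/-!
# GMT: the traces determine the spectrum
-/

namespace Pool.SqDrum

open MeasureTheory Set Filter Topology
open scoped ENNReal ContDiff InnerProductSpace unitInterval

noncomputable section

namespace GmtAux

/-- `κ_l²` -/
def kap (l : ℝ) : ℝ := (1 / (l + 1)) ^ 2

/-- `κ_l²` as a point of the unit interval -/
def kapI (l : ℝ) : I := projIcc (0 : ℝ) 1 zero_le_one (kap l)

theorem kap_pos {l : ℝ} (hl : 0 ≤ l) : 0 < kap l := by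
  unfold kap; positivity

theorem kap_le {l : ℝ} (hl : 0 ≤ l) : kap l ≤ 1 := by
  unfold kap
  have h : 1 / (l + 1) ≤ 1 := by
    rw [div_le_one (by linarith)]; linarith
  have h0 : 0 ≤ 1 / (l + 1) := by positivity
  nlinarith

theorem kapI_coe {l : ℝ} (hl : 0 ≤ l) : ((kapI l : I) : ℝ) = kap l := by
  unfold kapI
  rw [projIcc_of_mem zero_le_one ⟨(kap_pos hl).le, kap_le hl⟩]

theorem kap_inj {l l' : ℝ} (hl : 0 ≤ l) (hl' : 0 ≤ l') (h : kap l = kap l') : l = l' := by
  unfold kap at h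
  have h1 : (1 / (l + 1)) = 1 / (l' + 1) :=
    (pow_left_inj₀ (by positivity) (by positivity) (two_ne_zero)).1 h
  have h2 : l + 1 = l' + 1 := by
    have := congrArg (fun x => 1 / x) h1
    simpa using this
  linarith

/-- the measure with the moments `Tr` -/
def nu (a : ℝ → ℕ) : Measure I :=
  Measure.sum fun l : ℝ => ((a l : ℝ≥0∞) * ENNReal.ofReal (kap l)) • Measure.dirac (kapI l)

theorem lint (a : ℝ → ℕ) (f : I → ℝ≥0∞) (hf : Measurable f) :
    ∫⁻ x, f x ∂(nu a) = ∑' l : ℝ, ((a l : ℝ≥0∞) * ENNReal.ofReal (kap l)) * f (kapI l) := by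
  unfold nu
  rw [lintegral_sum_measure]
  refine tsum_congr fun l => ?_
  rw [lintegral_smul_measure, lintegral_dirac' _ hf, smul_eq_mul]

theorem moment (a : ℝ → ℕ) (ha : ∀ l, a l ≠ 0 → 0 ≤ l) (n : ℕ) :
    ∫⁻ x : I, ENNReal.ofReal ((x : ℝ) ^ n) ∂(nu a) =
      ∑' l : ℝ, (a l : ℝ≥0∞) * ENNReal.ofReal ((1 / (l + 1)) ^ (2 * (n + 1))) := by
  rw [lint a _ (by fun_prop)]
  refine tsum_congr fun l => ?_
  by_cases h : a l = 0
  · simp [h]
  · have hl := ha l h
    rw [kapI_coe hl, mul_assoc, ← ENNReal.ofReal_mul (kap_pos hl).le]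
    congr 2
    unfold kap
    rw [← pow_mul, ← pow_add]
    congr 1
    ring

theorem mass (a : ℝ → ℕ) (ha : ∀ l, a l ≠ 0 → 0 ≤ l) {l : ℝ} (hl : 0 ≤ l) :
    nu a {kapI l} = (a l : ℝ≥0∞) * ENNReal.ofReal (kap l) := by
  have h1 : nu a {kapI l} = ∫⁻ x, ({kapI l} : Set I).indicator 1 x ∂(nu a) := by
    rw [lintegral_indicator_one (measurableSet_singleton _)]
  rw [h1, lint a _ (measurable_one.indicator (measurableSet_singleton _))]
  rw [tsum_eq_single l]
  · simp
  · intro l' hl'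
    by_cases h : a l' = 0
    · simp [h]
    · have hl0 := ha l' h
      have : kapI l' ∉ ({kapI l} : Set I) := by
        intro hh
        apply hl'
        have h2 : kapI l' = kapI l := hh
        have h3 := congrArg (fun x : I => (x : ℝ)) h2
        simp only [kapI_coe hl0, kapI_coe hl] at h3
        exact kap_inj hl0 hl h3
      rw [indicator_of_notMem this, mul_zero]

theorem int_pow (a : ℝ → ℕ) (n : ℕ) :
    ∫ x : I, (x : ℝ) ^ n ∂(nu a) = (∫⁻ x : I, ENNReal.ofReal ((x : ℝ) ^ n) ∂(nu a)).toReal := by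
  rw [integral_eq_lintegral_of_nonneg_ae]
  · exact Filter.Eventually.of_forall fun x => pow_nonneg x.2.1 n
  · exact (by fun_prop : Continuous fun x : I => (x : ℝ) ^ n).aestronglyMeasurable

theorem measure_eq {μ ν : Measure I} [IsFiniteMeasure μ] [IsFiniteMeasure ν]
    (h : ∀ n : ℕ, ∫ x : I, (x : ℝ) ^ n ∂μ = ∫ x : I, (x : ℝ) ^ n ∂ν) : μ = ν := by
  have hint : ∀ (ρ : Measure I) [IsFiniteMeasure ρ] (f : C(I, ℝ)), Integrable f ρ := by
    intro ρ _ f
    exact (BoundedContinuousFunction.mkOfCompact f).integrable ρ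
  have hpoly : ∀ p : Polynomial ℝ, ∫ x : I, p.eval (x : ℝ) ∂μ = ∫ x : I, p.eval (x : ℝ) ∂ν := by
    intro p
    have : ∀ (ρ : Measure I) [IsFiniteMeasure ρ], ∫ x : I, p.eval (x : ℝ) ∂ρ =
        ∑ i ∈ Finset.range (p.natDegree + 1), p.coeff i * ∫ x : I, (x : ℝ) ^ i ∂ρ := by
      intro ρ _
      simp only [Polynomial.eval_eq_sum_range]
      rw [integral_finsetSum]
      · refine Finset.sum_congr rfl fun i _ => ?_
        rw [integral_const_mul]
      · intro i _
        exact hint ρ ⟨fun x : I => p.coeff i * (x : ℝ) ^ i, by fun_prop⟩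
    rw [this μ, this ν]
    exact Finset.sum_congr rfl fun i _ => by rw [h i]
  refine ext_of_forall_integral_eq_of_IsFiniteMeasure fun f => ?_
  have hmain : ∀ ε : ℝ, 0 < ε →
      |∫ x, f x ∂μ - ∫ x, f x ∂ν| ≤ ε * (μ.real univ + ν.real univ) := by
    intro ε hε
    obtain ⟨p, hp⟩ := exists_polynomial_near_continuousMap (0 : ℝ) 1
      (f : C(Icc (0 : ℝ) 1, ℝ)) ε hε
    have hp' : ∀ x : I, |p.eval (x : ℝ) - f x| ≤ ε := by
      intro x
      have h1 := (p.toContinuousMapOn (Icc (0 : ℝ) 1) -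
        (f : C(Icc (0 : ℝ) 1, ℝ))).norm_coe_le_norm x
      exact h1.trans hp.le
    have hb : ∀ (ρ : Measure I) [IsFiniteMeasure ρ],
        |∫ x : I, p.eval (x : ℝ) ∂ρ - ∫ x, f x ∂ρ| ≤ ε * ρ.real univ := by
      intro ρ _
      have i1 : Integrable (fun x : I => p.eval (x : ℝ)) ρ :=
        hint ρ ⟨fun x : I => p.eval (x : ℝ), by fun_prop⟩
      have i2 : Integrable (fun x : I => f x) ρ := f.integrable ρ
      rw [← integral_sub i1 i2]
      have h2 := norm_integral_le_of_norm_le_const (μ := ρ)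
        (f := fun x : I => p.eval (x : ℝ) - f x) (C := ε)
        (Filter.Eventually.of_forall fun x => hp' x)
      simpa using h2
    have e1 := hb μ
    have e2 := hb ν
    rw [hpoly p] at e1
    rw [abs_le] at e1 e2 ⊢
    constructor <;> nlinarith [e1.1, e1.2, e2.1, e2.2]
  by_contra hne
  have hpos : 0 < |∫ x, f x ∂μ - ∫ x, f x ∂ν| := abs_pos.2 (sub_ne_zero.2 hne)
  set c := |∫ x, f x ∂μ - ∫ x, f x ∂ν|
  set t := μ.real univ + ν.real univ
  have ht : 0 ≤ t := by positivity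
  have h3 := hmain (c / (2 * (t + 1))) (by positivity)
  have h4 : c / (2 * (t + 1)) * t ≤ c / 2 := by
    rw [div_mul_eq_mul_div, div_le_div_iff₀ (by positivity) (by positivity)]
    nlinarith
  linarith

end GmtAux

open GmtAux

theorem gmt (h1 : GspStatement) (h2 : PseStatement) : GmtStatement := by
  intro Ω Ω' hΩ hΩ' hb hb' h l
  have ha : ∀ l, mult Ω l ≠ 0 → 0 ≤ l := h2.1 Ω hΩ
  have ha' : ∀ l, mult Ω' l ≠ 0 → 0 ≤ l := h2.1 Ω' hΩ'
  by_cases hl : 0 ≤ l
  · have hm : ∀ n : ℕ, ∫⁻ x : I, ENNReal.ofReal ((x : ℝ) ^ n) ∂(nu (mult Ω)) =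
        Tr Ω (n + 1) := by
      intro n
      rw [moment _ ha, (h1 Ω hΩ hb (n + 1) (Nat.succ_pos n)).1]
    have hm' : ∀ n : ℕ, ∫⁻ x : I, ENNReal.ofReal ((x : ℝ) ^ n) ∂(nu (mult Ω')) =
        Tr Ω' (n + 1) := by
      intro n
      rw [moment _ ha', (h1 Ω' hΩ' hb' (n + 1) (Nat.succ_pos n)).1]
    have : IsFiniteMeasure (nu (mult Ω)) := by
      refine ⟨?_⟩
      have := hm 0
      simp only [pow_zero, ENNReal.ofReal_one, lintegral_one] at this
      rw [this]
      exact lt_top_iff_ne_top.2 (h1 Ω hΩ hb 1 one_pos).2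
    have : IsFiniteMeasure (nu (mult Ω')) := by
      refine ⟨?_⟩
      have := hm' 0
      simp only [pow_zero, ENNReal.ofReal_one, lintegral_one] at this
      rw [this]
      exact lt_top_iff_ne_top.2 (h1 Ω' hΩ' hb' 1 one_pos).2
    have heq : nu (mult Ω) = nu (mult Ω') := by
      refine measure_eq fun n => ?_
      rw [int_pow, int_pow, hm, hm', h (n + 1) (Nat.succ_pos n)]
    have h3 := mass (mult Ω) ha hl
    rw [heq, mass (mult Ω') ha' hl] at h3
    have hk : ENNReal.ofReal (kap l) ≠ 0 := by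
      rw [Ne, ENNReal.ofReal_eq_zero, not_le]
      exact kap_pos hl
    have h4 := (ENNReal.mul_left_inj hk ENNReal.ofReal_ne_top).1 h3
    exact_mod_cast h4.symm
  · have e1 : mult Ω l = 0 := by
      by_contra hh; exact hl (ha l hh)
    have e2 : mult Ω' l = 0 := by
      by_contra hh; exact hl (ha' l hh)
    rw [e1, e2]

end

end Pool.SqDrum
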