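import Pool.Agent.Lib.MP_2805c2_an.ST.Iface

set_option autoImplicit false

/-!
# GSC: scaling of the traces
-/

namespace Pool.SqDrum

open MeasureTheory Set Filter Topology
open scoped ENNReal ContDiff InnerProductSpace

namespace GscAux

theorem sim_smul (r : ℝ) : Sim r (fun x : P2 => r • x) := by
  refine ⟨r, 0, 0, 0, 1, Or.inl rfl, by ring, fun x => ?_⟩
  ext
  · simp
  · simp

theorem isOpen_image {r : ℝ} (hr : r ≠ 0) {Ω : Set P2} (hΩ : IsOpen Ω) :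
    IsOpen ((fun x : P2 => r • x) '' Ω) :=
  (Homeomorph.smulOfNeZero r hr).isOpenMap Ω hΩ

theorem isBounded_image {r : ℝ} {Ω : Set P2} (hΩ : Bornology.IsBounded Ω) :
    Bornology.IsBounded ((fun x : P2 => r • x) '' Ω) := by
  rw [isBounded_iff_forall_norm_le] at hΩ ⊢
  obtain ⟨C, hC⟩ := hΩ
  refine ⟨|r| * C, ?_⟩
  rintro _ ⟨x, hx, rfl⟩
  rw [norm_smul, Real.norm_eq_abs]
  exact mul_le_mul_of_nonneg_left (hC x hx) (abs_nonneg r)

theorem real_ineq {r l : ℝ} (hr : 1 ≤ r) (hl : 0 ≤ l) (m : ℕ) :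
    (1 / (l / r ^ 2 + 1)) ^ (2 * m) ≤ r ^ (4 * m) * (1 / (l + 1)) ^ (2 * m) := by
  have hr2 : 1 ≤ r ^ 2 := one_le_pow₀ hr
  have hr0 : 0 < r ^ 2 := by positivity
  have h1 : r ^ (4 * m) = (r ^ 2) ^ (2 * m) := by
    rw [← pow_mul]
    congr 1
    ring
  rw [h1, ← mul_pow]
  have h2 : 1 / (l / r ^ 2 + 1) = r ^ 2 * (1 / (l + r ^ 2)) := by
    have h3 : 0 < l / r ^ 2 + 1 := by positivity
    have h4 : 0 < l + r ^ 2 := by positivity
    field_simp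
  rw [h2]
  refine pow_le_pow_left₀ (by positivity) ?_ _
  refine mul_le_mul_of_nonneg_left ?_ hr0.le
  exact one_div_le_one_div_of_le (by linarith) (by linarith)

end GscAux

open GscAux in
/-- GSC. -/
theorem gsc (sim : SimStatement) (gsp : GspStatement) (pse : PseStatement) : GscStatement := by
  intro r Ω hr hΩ hb m hm
  have hr0 : 0 < r := lt_of_lt_of_le one_pos hr
  have hΩ' := isOpen_image hr0.ne' hΩ
  rw [(gsp _ hΩ' (isBounded_image hb) m hm).1, (gsp Ω hΩ hb m hm).1, ← ENNReal.tsum_mul_left]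
  have h1 : ∀ l : ℝ, mult ((fun x : P2 => r • x) '' Ω) l = mult Ω (r ^ 2 * l) :=
    sim r _ Ω hr0 (sim_smul r) hΩ
  have hr2 : (r ^ 2 : ℝ) ≠ 0 := by positivity
  have h2 : ∑' l : ℝ, (mult ((fun x : P2 => r • x) '' Ω) l : ℝ≥0∞) *
        ENNReal.ofReal ((1 / (l + 1)) ^ (2 * m)) =
      ∑' l : ℝ, (mult Ω l : ℝ≥0∞) * ENNReal.ofReal ((1 / (l / r ^ 2 + 1)) ^ (2 * m)) := by
    rw [← (Equiv.mulLeft₀ (r ^ 2) hr2).tsum_eq
      (fun l : ℝ => (mult Ω l : ℝ≥0∞) * ENNReal.ofReal ((1 / (l / r ^ 2 + 1)) ^ (2 * m)))]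
    refine tsum_congr fun l => ?_
    rw [h1 l, Equiv.mulLeft₀_apply, mul_div_cancel_left₀ _ hr2]
  rw [h2]
  refine ENNReal.tsum_le_tsum fun l => ?_
  by_cases hl : mult Ω l = 0
  · rw [hl]
    simp
  · have hl0 := pse.1 Ω hΩ l hl
    rw [mul_left_comm, ← ENNReal.ofReal_mul (by positivity)]
    exact mul_le_mul_right (ENNReal.ofReal_le_ofReal (real_ineq hr hl0 m)) _

end Pool.SqDrum
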