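import Pool.Agent.Lib.MP_2805c2_an.ST.Iface
import Pool.Agent.Lib.MP_2805c2_an.SQ.Fsp

set_option autoImplicit false

/-!
# GSP: the traces in terms of the spectrum
-/

namespace Pool.SqDrum

open scoped ENNReal

theorem gsp (hCMP : CmpStatement) (hDIA : DiaStatement) (hINJ : InjStatement)
    (hEBA : EbaStatement) : GspStatement := by
  intro Ω hΩ hb m hm
  refine ⟨fsp_gen hCMP hDIA hINJ hΩ hb m hm, ?_⟩
  obtain ⟨ι, b, s, -, -, h⟩ := hEBA Ω hΩ hb
  rw [(h m hm).2]
  exact ENNReal.ofReal_ne_top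

end Pool.SqDrum
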