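import Pool.Agent.Lib.MP_2805c2_an.ST.Iface

set_option autoImplicit false

/-!
# Module HSM (helper50): Hilbert–Schmidt operators as square summable families
-/

namespace Pool.SqDrum

open MeasureTheory Set Filter Topology
open scoped ENNReal InnerProductSpace

namespace HsmAux

section

variable {E F : Type} [NormedAddCommGroup E] [InnerProductSpace ℝ E] [CompleteSpace E]
  [NormedAddCommGroup F] [InnerProductSpace ℝ F] [CompleteSpace F] {ι : Type}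

theorem enorm_sq {G : Type} [NormedAddCommGroup G] (x : G) :
    ‖x‖ₑ ^ 2 = ENNReal.ofReal (‖x‖ ^ 2) := by
  rw [ENNReal.ofReal_pow (norm_nonneg _), ofReal_norm]

/-- Parseval in `ℝ≥0∞` -/
theorem parseval (b : HilbertBasis ι ℝ E) (f : E) :
    ‖f‖ₑ ^ 2 = ∑' i, ‖⟪b i, f⟫_ℝ‖ₑ ^ 2 := by
  have h := b.hasSum_inner_mul_inner f f
  have e1 : ∀ i, ⟪f, b i⟫_ℝ * ⟪b i, f⟫_ℝ = ‖⟪b i, f⟫_ℝ‖ ^ 2 := fun i => by
    rw [real_inner_comm, Real.norm_eq_abs, sq_abs, sq]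
  simp only [e1, real_inner_self_eq_norm_sq] at h
  rw [enorm_sq, ← h.tsum_eq,
    ENNReal.ofReal_tsum_of_nonneg (fun i => by positivity) h.summable]
  exact tsum_congr fun i => (enorm_sq _).symm

theorem swap (K : E →L[ℝ] E) (b : HilbertBasis ι ℝ E) :
    ∑' i, ‖K (b i)‖ₑ ^ 2 = ∑' j, ‖K.adjoint (b j)‖ₑ ^ 2 := by
  have e1 : ∀ i, ‖K (b i)‖ₑ ^ 2 = ∑' j, ‖⟪b j, K (b i)⟫_ℝ‖ₑ ^ 2 := fun i =>
    parseval b _
  have e2 : ∀ j, ‖K.adjoint (b j)‖ₑ ^ 2 = ∑' i, ‖⟪b j, K (b i)⟫_ℝ‖ₑ ^ 2 := fun j => by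
    rw [parseval b]
    refine tsum_congr fun i => ?_
    rw [ContinuousLinearMap.adjoint_inner_right, real_inner_comm]
  simp only [e1, e2]
  exact ENNReal.tsum_comm

/-- Bessel in `ℝ≥0∞` -/
theorem bessel (u : ι → F) (hu : Orthonormal ℝ u) (f : F) :
    ∑' i, ‖⟪u i, f⟫_ℝ‖ₑ ^ 2 ≤ ‖f‖ₑ ^ 2 := by
  have e : ∀ i, ‖⟪u i, f⟫_ℝ‖ₑ ^ 2 = ENNReal.ofReal (‖⟪u i, f⟫_ℝ‖ ^ 2) := fun i => enorm_sq _
  simp only [e]
  rw [← ENNReal.ofReal_tsum_of_nonneg (fun i => by positivity) (hu.inner_products_summable f),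
    enorm_sq]
  exact ENNReal.ofReal_le_ofReal (hu.tsum_inner_products_le f)

/-- the Hilbert–Schmidt estimate -/
theorem bound (c : E →L[ℝ] F) (b : HilbertBasis ι ℝ E) (s : ι → ℝ) (hs : ∀ i, 0 < s i)
    (hc : ∀ i, c.adjoint (c (b i)) = s i • b i) (M : F →L[ℝ] F) :
    ∑' i, ‖c.adjoint (M (c (b i)))‖ₑ ^ 2 ≤ 2 * (∑' i, ‖s i‖ₑ ^ 2) * ‖M‖ₑ ^ 2 := by
  classical
  set u : ι → F := fun i => (Real.sqrt (s i))⁻¹ • c (b i) with hu
  have hsq : ∀ i, Real.sqrt (s i) ≠ 0 := fun i => (Real.sqrt_pos.2 (hs i)).ne'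
  have hcb : ∀ i, c (b i) = Real.sqrt (s i) • u i := fun i => by
    rw [hu]
    simp only
    rw [smul_smul, mul_inv_cancel₀ (hsq i), one_smul]
  have hin : ∀ i j, ⟪c (b i), c (b j)⟫_ℝ = s j * ⟪b i, b j⟫_ℝ := fun i j => by
    rw [← ContinuousLinearMap.adjoint_inner_right, hc, inner_smul_right]
  have hon : Orthonormal ℝ u := by
    rw [orthonormal_iff_ite]
    intro i j
    have hb := (orthonormal_iff_ite.1 b.orthonormal) i j
    rw [hu]
    simp only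
    rw [inner_smul_left, inner_smul_right, hin, hb, RCLike.conj_to_real]
    by_cases hij : i = j
    · subst hij
      simp only [if_true, mul_one]
      have h1 : Real.sqrt (s i) * Real.sqrt (s i) = s i := Real.mul_self_sqrt (hs i).le
      have h2 := hsq i
      field_simp
      linarith [h1, sq (Real.sqrt (s i))]
    · simp [hij]
  have hterm : ∀ j k, ‖⟪b k, c.adjoint (M (c (b j)))⟫_ℝ‖ₑ ^ 2 ≤
      ‖s k‖ₑ ^ 2 * ‖⟪u k, M (u j)⟫_ℝ‖ₑ ^ 2 + ‖s j‖ₑ ^ 2 * ‖⟪u k, M (u j)⟫_ℝ‖ₑ ^ 2 := by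
    intro j k
    rw [ContinuousLinearMap.adjoint_inner_right, hcb k, hcb j, map_smul, inner_smul_left,
      inner_smul_right, RCLike.conj_to_real]
    rw [enorm_sq, enorm_sq, enorm_sq, enorm_sq, ← ENNReal.ofReal_mul (by positivity),
      ← ENNReal.ofReal_mul (by positivity), ← ENNReal.ofReal_add (by positivity) (by positivity)]
    refine ENNReal.ofReal_le_ofReal ?_
    simp only [Real.norm_eq_abs, sq_abs]
    have h1 : Real.sqrt (s k) ^ 2 = s k := Real.sq_sqrt (hs k).le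
    have h2 : Real.sqrt (s j) ^ 2 = s j := Real.sq_sqrt (hs j).le
    have h3 : (Real.sqrt (s k) * (Real.sqrt (s j) * ⟪u k, M (u j)⟫_ℝ)) ^ 2 =
        s k * s j * ⟪u k, M (u j)⟫_ℝ ^ 2 := by
      rw [mul_pow, mul_pow, h1, h2]
      ring
    rw [h3]
    nlinarith [sq_nonneg (s k - s j), sq_nonneg ⟪u k, M (u j)⟫_ℝ, sq_nonneg (s k), sq_nonneg (s j),
      mul_nonneg (sq_nonneg (s k - s j)) (sq_nonneg ⟪u k, M (u j)⟫_ℝ),
      mul_nonneg (mul_nonneg (hs k).le (hs j).le) (sq_nonneg ⟪u k, M (u j)⟫_ℝ)]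
  have hMu : ∀ (N : F →L[ℝ] F) j, ‖N (u j)‖ₑ ^ 2 ≤ ‖N‖ₑ ^ 2 := fun N j => by
    rw [enorm_sq, enorm_sq]
    refine ENNReal.ofReal_le_ofReal ?_
    have := N.le_opNorm (u j)
    rw [hon.1 j, mul_one] at this
    exact pow_le_pow_left₀ (norm_nonneg _) this 2
  have h1 : ∑' j, ∑' k, ‖s j‖ₑ ^ 2 * ‖⟪u k, M (u j)⟫_ℝ‖ₑ ^ 2 ≤
      (∑' i, ‖s i‖ₑ ^ 2) * ‖M‖ₑ ^ 2 := by
    rw [← ENNReal.tsum_mul_right]
    refine ENNReal.tsum_le_tsum fun j => ?_
    rw [ENNReal.tsum_mul_left]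
    exact mul_le_mul_right ((bessel u hon _).trans (hMu M j)) _
  have h2 : ∑' j, ∑' k, ‖s k‖ₑ ^ 2 * ‖⟪u k, M (u j)⟫_ℝ‖ₑ ^ 2 ≤
      (∑' i, ‖s i‖ₑ ^ 2) * ‖M‖ₑ ^ 2 := by
    rw [ENNReal.tsum_comm, ← ENNReal.tsum_mul_right]
    refine ENNReal.tsum_le_tsum fun k => ?_
    rw [ENNReal.tsum_mul_left]
    refine mul_le_mul_right ?_ _
    have e : ∀ j, ‖⟪u k, M (u j)⟫_ℝ‖ₑ ^ 2 = ‖⟪u j, M.adjoint (u k)⟫_ℝ‖ₑ ^ 2 := fun j => by
      rw [ContinuousLinearMap.adjoint_inner_right, real_inner_comm]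
    simp only [e]
    refine (bessel u hon _).trans ((hMu _ k).trans_eq ?_)
    rw [enorm_sq, enorm_sq, LinearIsometryEquiv.norm_map]
  calc ∑' i, ‖c.adjoint (M (c (b i)))‖ₑ ^ 2
      = ∑' j, ∑' k, ‖⟪b k, c.adjoint (M (c (b j)))⟫_ℝ‖ₑ ^ 2 :=
        tsum_congr fun j => parseval b _
    _ ≤ ∑' j, ∑' k, (‖s k‖ₑ ^ 2 * ‖⟪u k, M (u j)⟫_ℝ‖ₑ ^ 2 +
          ‖s j‖ₑ ^ 2 * ‖⟪u k, M (u j)⟫_ℝ‖ₑ ^ 2) :=
        ENNReal.tsum_le_tsum fun j => ENNReal.tsum_le_tsum fun k => hterm j k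
    _ = (∑' j, ∑' k, ‖s k‖ₑ ^ 2 * ‖⟪u k, M (u j)⟫_ℝ‖ₑ ^ 2) +
          ∑' j, ∑' k, ‖s j‖ₑ ^ 2 * ‖⟪u k, M (u j)⟫_ℝ‖ₑ ^ 2 := by
        rw [← ENNReal.tsum_add]
        exact tsum_congr fun j => ENNReal.tsum_add
    _ ≤ (∑' i, ‖s i‖ₑ ^ 2) * ‖M‖ₑ ^ 2 + (∑' i, ‖s i‖ₑ ^ 2) * ‖M‖ₑ ^ 2 := add_le_add h2 h1
    _ = 2 * (∑' i, ‖s i‖ₑ ^ 2) * ‖M‖ₑ ^ 2 := by ring

/-- bounded bilinear maps into the square summable families -/
theorem mkU {A B : Type} [NormedAddCommGroup A] [NormedSpace ℝ A] [NormedAddCommGroup B]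
    [NormedSpace ℝ B] (Φ : A →ₗ[ℝ] B →ₗ[ℝ] (ι → E)) (C : ℝ) (hC : 0 ≤ C)
    (h : ∀ M X, ∑' i, ‖Φ M X i‖ₑ ^ 2 ≤ ENNReal.ofReal ((C * ‖M‖ * ‖X‖) ^ 2)) :
    ∃ U : A →L[ℝ] B →L[ℝ] lp (fun _ : ι => E) 2, ∀ M X i, (U M X : ι → E) i = Φ M X i := by
  have hsum : ∀ M X, Summable (fun i => ‖Φ M X i‖ ^ 2) := by
    intro M X
    have h1 : ∑' i, ((‖Φ M X i‖₊ ^ 2 : NNReal) : ℝ≥0∞) ≠ ⊤ := by
      have h2 := (h M X).trans_lt ENNReal.ofReal_lt_top
      refine ne_of_lt (lt_of_le_of_lt (le_of_eq ?_) h2)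
      refine tsum_congr fun i => ?_
      rw [ENNReal.coe_pow]
      rfl
    have h3 := ENNReal.tsum_coe_ne_top_iff_summable.1 h1
    have h4 := NNReal.summable_coe.2 h3
    refine h4.congr fun i => ?_
    simp
  have hmem : ∀ M X, Memℓp (Φ M X) 2 := by
    intro M X
    refine memℓp_gen ?_
    refine (hsum M X).congr fun i => ?_
    simp
  let Ψ : A →ₗ[ℝ] B →ₗ[ℝ] lp (fun _ : ι => E) 2 :=
    LinearMap.mk₂ ℝ (fun M X => ⟨Φ M X, hmem M X⟩)
      (fun M M' X => Subtype.ext (by simp only [map_add, LinearMap.add_apply]; rfl))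
      (fun r M X => Subtype.ext (by simp only [map_smul, LinearMap.smul_apply]; rfl))
      (fun M X X' => Subtype.ext (by simp only [map_add]; rfl))
      (fun r M X => Subtype.ext (by simp only [map_smul]; rfl))
  have hΨ : ∀ M X, (Ψ M X : ι → E) = Φ M X := fun M X => rfl
  have hn : ∀ M X, ‖Ψ M X‖ ≤ C * ‖M‖ * ‖X‖ := by
    intro M X
    have h1 : ‖Ψ M X‖ ^ 2 = ∑' i, ‖Φ M X i‖ ^ 2 := by
      have := lp.norm_rpow_eq_tsum (p := 2) (by simp) (Ψ M X)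
      simp only [ENNReal.toReal_ofNat, Real.rpow_ofNat] at this
      exact this
    have h2 : ‖Ψ M X‖ ^ 2 ≤ (C * ‖M‖ * ‖X‖) ^ 2 := by
      rw [h1]
      have h3 := h M X
      have e : ∀ i, ‖Φ M X i‖ₑ ^ 2 = ENNReal.ofReal (‖Φ M X i‖ ^ 2) := fun i => enorm_sq _
      simp only [e] at h3
      rw [← ENNReal.ofReal_tsum_of_nonneg (fun i => by positivity) (hsum M X)] at h3
      exact (ENNReal.ofReal_le_ofReal_iff (by positivity)).1 h3
    exact (pow_le_pow_iff_left₀ (norm_nonneg _) (by positivity) two_ne_zero).1 h2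
  exact ⟨LinearMap.mkContinuous₂ Ψ C hn, fun M X i => rfl⟩

end

end HsmAux

open HsmAux in
/-- **HSM** -/
theorem hsm : HsmStatement := by
  intro E _ _ _ c ι b s hs hc hsum
  set S : ℝ := ∑' i, s i ^ 2 with hS
  have hS0 : 0 ≤ S := tsum_nonneg fun i => sq_nonneg _
  have hSe : ∑' i, ‖s i‖ₑ ^ 2 = ENNReal.ofReal S := by
    rw [hS, ENNReal.ofReal_tsum_of_nonneg (fun i => sq_nonneg _) hsum]
    refine tsum_congr fun i => ?_
    rw [enorm_sq, Real.norm_eq_abs, sq_abs]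
  set C : ℝ := Real.sqrt (2 * S) with hC
  have hC0 : 0 ≤ C := Real.sqrt_nonneg _
  have hC2 : C ^ 2 = 2 * S := Real.sq_sqrt (by positivity)
  -- the estimate for the adjoint
  have key : ∀ (M : L2 →L[ℝ] L2) (X : E →L[ℝ] E),
      ∑' i, ‖(c.adjoint.comp (M.comp (c.comp X))).adjoint (b i)‖ₑ ^ 2 ≤
        ENNReal.ofReal ((C * ‖M‖ * ‖X‖) ^ 2) := by
    intro M X
    have e1 : ∀ i, (c.adjoint.comp (M.comp (c.comp X))).adjoint (b i) =
        X.adjoint (c.adjoint (M.adjoint (c (b i)))) := by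
      intro i
      refine ext_inner_right ℝ fun y => ?_
      simp only [ContinuousLinearMap.adjoint_inner_left, ContinuousLinearMap.comp_apply]
      rw [ContinuousLinearMap.adjoint_inner_right]
    have h1 := bound c b s hs hc M.adjoint
    calc ∑' i, ‖(c.adjoint.comp (M.comp (c.comp X))).adjoint (b i)‖ₑ ^ 2
        ≤ ∑' i, ‖X‖ₑ ^ 2 * ‖c.adjoint (M.adjoint (c (b i)))‖ₑ ^ 2 := by
          refine ENNReal.tsum_le_tsum fun i => ?_
          rw [e1, ← mul_pow]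
          refine pow_le_pow_left' ?_ 2
          rw [← ofReal_norm, ← ofReal_norm, ← ofReal_norm,
            ← ENNReal.ofReal_mul (norm_nonneg _)]
          refine ENNReal.ofReal_le_ofReal ?_
          have := X.adjoint.le_opNorm (c.adjoint (M.adjoint (c (b i))))
          rwa [LinearIsometryEquiv.norm_map] at this
      _ = ‖X‖ₑ ^ 2 * ∑' i, ‖c.adjoint (M.adjoint (c (b i)))‖ₑ ^ 2 := ENNReal.tsum_mul_left
      _ ≤ ‖X‖ₑ ^ 2 * (2 * (∑' i, ‖s i‖ₑ ^ 2) * ‖M.adjoint‖ₑ ^ 2) := mul_le_mul_right h1 _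
      _ = ENNReal.ofReal ((C * ‖M‖ * ‖X‖) ^ 2) := by
          rw [hSe, enorm_sq, enorm_sq, LinearIsometryEquiv.norm_map, mul_pow, mul_pow, hC2]
          have h2 : ∀ x m y : ℝ, 0 ≤ x → 0 ≤ m → 0 ≤ y →
              ENNReal.ofReal x * (2 * ENNReal.ofReal y * ENNReal.ofReal m) =
                ENNReal.ofReal (2 * y * m * x) := by
            intro x m y hx hm hy
            rw [show (2 : ℝ≥0∞) = ENNReal.ofReal 2 by simp, ← ENNReal.ofReal_mul (by norm_num),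
              ← ENNReal.ofReal_mul (by positivity), ← ENNReal.ofReal_mul (by positivity)]
            congr 1
            ring
          exact h2 _ _ _ (by positivity) (by positivity) hS0
  have keyU : ∀ (M : L2 →L[ℝ] L2) (X : E →L[ℝ] E),
      ∑' i, ‖c.adjoint (M (c (X (b i))))‖ₑ ^ 2 ≤
        ENNReal.ofReal ((C * ‖M‖ * ‖X‖) ^ 2) := by
    intro M X
    refine le_trans (le_of_eq ?_) (key M X)
    exact swap (c.adjoint.comp (M.comp (c.comp X))) b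
  let ΦU : (L2 →L[ℝ] L2) →ₗ[ℝ] (E →L[ℝ] E) →ₗ[ℝ] (ι → E) :=
    LinearMap.mk₂ ℝ (fun M X i => c.adjoint (M (c (X (b i)))))
      (fun M M' X => by funext i; simp)
      (fun r M X => by funext i; simp)
      (fun M X X' => by funext i; simp)
      (fun r M X => by funext i; simp)
  let ΦV : (L2 →L[ℝ] L2) →ₗ[ℝ] (E →L[ℝ] E) →ₗ[ℝ] (ι → E) :=
    LinearMap.mk₂ ℝ (fun M X i => (c.adjoint.comp (M.comp (c.comp X))).adjoint (b i))
      (fun M M' X => by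
        funext i
        refine ext_inner_right ℝ fun y => ?_
        simp only [Pi.add_apply, inner_add_left, ContinuousLinearMap.adjoint_inner_left,
          ContinuousLinearMap.comp_apply, ContinuousLinearMap.add_apply, map_add, inner_add_right])
      (fun r M X => by
        funext i
        refine ext_inner_right ℝ fun y => ?_
        simp only [Pi.smul_apply, inner_smul_left, ContinuousLinearMap.adjoint_inner_left,
          ContinuousLinearMap.comp_apply, ContinuousLinearMap.smul_apply, map_smul,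
          inner_smul_right, RCLike.conj_to_real])
      (fun M X X' => by
        funext i
        refine ext_inner_right ℝ fun y => ?_
        simp only [Pi.add_apply, inner_add_left, ContinuousLinearMap.adjoint_inner_left,
          ContinuousLinearMap.comp_apply, ContinuousLinearMap.add_apply, map_add, inner_add_right])
      (fun r M X => by
        funext i
        refine ext_inner_right ℝ fun y => ?_
        simp only [Pi.smul_apply, inner_smul_left, ContinuousLinearMap.adjoint_inner_left,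
          ContinuousLinearMap.comp_apply, ContinuousLinearMap.smul_apply, map_smul,
          inner_smul_right, RCLike.conj_to_real])
  obtain ⟨U, hU⟩ := mkU ΦU C hC0 (fun M X => keyU M X)
  obtain ⟨V, hV⟩ := mkU ΦV C hC0 (fun M X => key M X)
  exact ⟨U, V, fun M X i => ⟨hU M X i, hV M X i⟩⟩

end Pool.SqDrum
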