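import Pool.Agent.Lib.MP_2805c2_an.ST.Iface

set_option autoImplicit false
set_option linter.all false

/-!
# ISL: isolated points of level sets
-/

namespace Pool.SqDrum

open MeasureTheory Set Filter Topology

theorem isl : IslStatement := by
  intro F z hF hdet
  have h1 : HasStrictFDerivAt F (fderiv ℝ F z) z := hF.hasStrictFDerivAt
  have h2 : HasStrictFDerivAt F
      (((fderiv ℝ F z).toContinuousLinearEquivOfDetNeZero hdet : Z5 ≃L[ℝ] Z5) : Z5 →L[ℝ] Z5) z := by
    rw [ContinuousLinearMap.coe_toContinuousLinearEquivOfDetNeZero]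
    exact h1
  filter_upwards [h2.eventually_left_inverse] with z' hz' e
  rw [← hz', e]
  exact h2.localInverse_apply_image

end Pool.SqDrum
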