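import Mathlib
import Pool.Agent.Lib.MP_2805c2_an.ST.Iface

set_option autoImplicit false

/-!
# LFI: near the square the traces have finite level sets
-/

namespace Pool.SqDrum

open MeasureTheory Set Filter Topology
open scoped ENNReal ContDiff InnerProductSpace

namespace LfiAux

theorem quad_open (q : Fin 4 → P2) : IsOpen (quad q) := isOpen_interior

theorem quad_bounded (q : Fin 4 → P2) : Bornology.IsBounded (quad q) := by
  refine Bornology.IsBounded.subset ?_ (interior_subset)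
  exact (isBounded_convexHull).2 (Set.finite_range q).isBounded

end LfiAux

theorem lfi (loc : LocStatement) (gmt : GmtStatement) (wcg : WcgStatement) (wop : WopStatement)
    (wcc : WccStatement) : LfiStatement := by
  have h1 : ∀ᶠ p : Z5 × Z5 in 𝓝 ((0 : Z5), (0 : Z5)),
      IsoSp (dom p.1) (dom p.2) → Cong (dom p.1) (dom p.2) := loc
  rw [nhds_prod_eq, Filter.eventually_prod_self_iff'] at h1
  obtain ⟨t, ht, h⟩ := h1
  obtain ⟨V, hVt, hVo, h0V⟩ := mem_nhds_iff.1 ht
  refine ⟨V ∩ WW, hVo.inter wop.1, ⟨h0V, wop.2.2⟩, Set.inter_subset_right, ?_⟩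
  rintro z₀ ⟨hz₀V, hz₀W⟩
  refine (wcg z₀ hz₀W).subset ?_
  rintro z ⟨⟨hzV, hzW⟩, hz⟩
  refine ⟨hzW, ?_⟩
  refine h z₀ (hVt hz₀V) z (hVt hzV) ?_
  have e0 := (wcc.2 z₀ hz₀W).2.1
  have e1 := (wcc.2 z hzW).2.1
  refine gmt (dom z₀) (dom z) ?_ ?_ ?_ ?_ (fun m hm => (hz m hm).symm)
  · rw [e0]; exact LfiAux.quad_open _
  · rw [e1]; exact LfiAux.quad_open _
  · rw [e0]; exact LfiAux.quad_bounded _
  · rw [e1]; exact LfiAux.quad_bounded _

end Pool.SqDrum
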