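import Pool.Agent.Lib.MP_2805c2_an.ST.Iface

/-!
# LIM: limits of quadrilaterals with given traces
-/

set_option autoImplicit false

namespace Pool.SqDrum

open MeasureTheory Set Filter Topology
open scoped ENNReal

namespace LimAux

theorem quad_open (v : Fin 4 → P2) : IsOpen (quad v) := isOpen_interior

theorem quad_bdd (v : Fin 4 → P2) : Bornology.IsBounded (quad v) := by
  refine Bornology.IsBounded.subset ?_ interior_subset
  exact isBounded_convexHull.2 (Set.finite_range v).isBounded

theorem vz_cont : Continuous vz := by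
  refine continuous_pi fun i => ?_
  unfold vz bz bil va vb vw
  fun_prop

theorem smul_open (r : ℝ) (hr : r ≠ 0) (U : Set P2) (hU : IsOpen U) :
    IsOpen ((fun x => r • x) '' U) :=
  (isOpenMap_smul₀ hr) U hU

theorem le_of_scaled {a b : ℝ≥0∞} {k : ℕ}
    (h : ∀ ε : ℝ, 0 < ε → a ≤ ENNReal.ofReal ((1 + ε) ^ k) * b) : a ≤ b := by
  have h1 : Tendsto (fun n : ℕ => ENNReal.ofReal ((1 + 1 / ((n : ℝ) + 1)) ^ k) * b) atTop
      (𝓝 (ENNReal.ofReal ((1 + 0) ^ k) * b)) := by
    refine ENNReal.Tendsto.mul_const ?_ (Or.inl ?_)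
    · refine ENNReal.tendsto_ofReal ?_
      exact (tendsto_const_nhds.add tendsto_one_div_add_atTop_nhds_zero_nat).pow k
    · simp
  have h2 : ENNReal.ofReal ((1 + 0) ^ k) * b = b := by simp
  rw [h2] at h1
  exact ge_of_tendsto' h1 fun n => h _ (by positivity)

end LimAux

open LimAux in
theorem lim (gmo : GmoStatement) (gsc : GscStatement) (snd : SndStatement) (ctr : CtrStatement)
    (wcc : WccStatement) : LimStatement := by
  intro z S c hz hS hcl hc _ m hm
  have h0 := ctr z hz
  have key : ∀ ε : ℝ, 0 < ε → Tr (quad (vz z)) m ≤ ENNReal.ofReal ((1 + ε) ^ (4 * m)) * c m ∧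
      c m ≤ ENNReal.ofReal ((1 + ε) ^ (4 * m)) * Tr (quad (vz z)) m := by
    intro ε hε
    have hε1 : (1 + ε) ≠ 0 := by positivity
    have h1 := vz_cont.continuousAt.eventually (snd (vz z) h0 ε hε)
    obtain ⟨z', hz'S, hz'⟩ := ((mem_closure_iff_frequently.1 hcl).and_eventually h1).exists
    have h2 : dom z' = quad (vz z') := (wcc.2 z' (hS hz'S)).2.1
    have h3 := hc z' hz'S m hm
    rw [h2] at h3
    constructor
    · calc Tr (quad (vz z)) m ≤ Tr ((fun x => (1 + ε) • x) '' quad (vz z')) m :=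
            gmo _ _ (quad_open _) (smul_open _ hε1 _ (quad_open _)) hz'.2 m
        _ ≤ ENNReal.ofReal ((1 + ε) ^ (4 * m)) * Tr (quad (vz z')) m :=
            gsc _ _ (by linarith) (quad_open _) (quad_bdd _) m hm
        _ = _ := by rw [h3]
    · calc c m = Tr (quad (vz z')) m := h3.symm
        _ ≤ Tr ((fun x => (1 + ε) • x) '' quad (vz z)) m :=
            gmo _ _ (quad_open _) (smul_open _ hε1 _ (quad_open _)) hz'.1 m
        _ ≤ _ := gsc _ _ (by linarith) (quad_open _) (quad_bdd _) m hm
  exact le_antisymm (le_of_scaled fun ε hε => (key ε hε).1) (le_of_scaled fun ε hε => (key ε hε).2)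

end Pool.SqDrum
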