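import Pool.Agent.Lib.MP_2805c2_an.ST.Iface

set_option autoImplicit false
set_option linter.all false

/-!
# NLM: images of null sets between spaces of dimension 8
-/

namespace Pool.SqDrum

open MeasureTheory Set Filter Topology

namespace NlmAux

/-- the preimage of a null set under a linear equivalence is null -/
theorem preim_null {E F : Type*} [NormedAddCommGroup E] [NormedSpace ℝ E] [MeasurableSpace E]
    [BorelSpace E] [FiniteDimensional ℝ E] [NormedAddCommGroup F] [NormedSpace ℝ F]
    [MeasurableSpace F] [BorelSpace F] [FiniteDimensional ℝ F] (μ : Measure E) (ν : Measure F)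
    [μ.IsAddHaarMeasure] [ν.IsAddHaarMeasure] (L : E ≃L[ℝ] F) {S : Set F} (hS : ν S = 0) :
    μ (L ⁻¹' S) = 0 := by
  haveI : (μ.map L).IsAddHaarMeasure := L.isAddHaarMeasure_map μ
  have h1 : μ.map L S = 0 := by
    rw [Measure.isAddLeftInvariant_eq_smul (μ.map L) ν, Measure.smul_apply, hS, smul_zero]
  have h2 : μ.map L S = μ (L ⁻¹' S) :=
    (L.toHomeomorph.toMeasurableEquiv.map_apply S)
  rw [← h2, h1]

end NlmAux

theorem nlm : NlmStatement := by
  intro S f hf hS
  have hdim : Module.finrank ℝ (Fin 4 → P2) = Module.finrank ℝ (Z5 × P2 × ℝ) := by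
    simp [Module.finrank_pi_fintype]
  haveI i1 : (volume : Measure P2).IsAddHaarMeasure := Measure.prod.instIsAddHaarMeasure _ _
  haveI i2 : (volume : Measure (P2 × ℝ)).IsAddHaarMeasure := Measure.prod.instIsAddHaarMeasure _ _
  haveI i3 : (volume : Measure (Z5 × P2 × ℝ)).IsAddHaarMeasure :=
    Measure.prod.instIsAddHaarMeasure _ _
  let L : (Fin 4 → P2) ≃L[ℝ] (Z5 × P2 × ℝ) := ContinuousLinearEquiv.ofFinrankEq hdim
  have h1 : volume ((fun x => L (f x)) '' S) = 0 := by
    refine addHaar_image_eq_zero_of_differentiableOn_of_addHaar_eq_zero volume ?_ hS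
    intro x hx
    exact ((L : (Fin 4 → P2) →L[ℝ] (Z5 × P2 × ℝ)).differentiableAt.comp x
      (hf x hx)).differentiableWithinAt
  have h2 := NlmAux.preim_null (volume : Measure (Fin 4 → P2)) (volume : Measure (Z5 × P2 × ℝ)) L h1
  refine measure_mono_null ?_ h2
  rintro y ⟨x, hx, rfl⟩
  exact ⟨x, hx, rfl⟩

end Pool.SqDrum
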