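import Pool.Agent.Lib.MP_2805c2_an.ST.Iface
import Pool.Agent.Lib.MP_2805c2_an.SQ.Ibp

set_option autoImplicit false

/-!
# PCR: Poincaré's inequality in a strip
-/

namespace Pool.SqDrum

open MeasureTheory Set Filter Topology
open scoped ENNReal ContDiff InnerProductSpace

namespace PcrAux

theorem norm_cl {g : P2 → ℝ} (hg : MemLp g 2 (volume : Measure P2)) :
    ‖cl g‖ ^ 2 = ∫ x, g x ^ 2 := by
  rw [← real_inner_self_eq_norm_sq, inner_eq]
  refine integral_congr_ae ?_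
  filter_upwards [cl_coe hg] with x hx
  rw [hx]
  ring

/-- pointwise inequality -/
theorem pointwise {n1 n2 N h f p g1 g2 : ℝ} (hN : N = n1 * n1 + n2 * n2) (hN0 : 0 < N)
    (hf : |f| ≤ h) :
    -(f * (2 * p * (-n2 * g1 + n1 * g2))) ≤ N / 2 * p ^ 2 + 2 * h ^ 2 * (g1 ^ 2 + g2 ^ 2) := by
  have h1 : (-n2 * g1 + n1 * g2) ^ 2 ≤ N * (g1 ^ 2 + g2 ^ 2) := by
    rw [hN]
    nlinarith [sq_nonneg (n1 * g1 + n2 * g2)]
  have h2 : f ^ 2 ≤ h ^ 2 := by
    rw [← sq_abs f]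
    exact pow_le_pow_left₀ (abs_nonneg f) hf 2
  have h3 : f ^ 2 * (-n2 * g1 + n1 * g2) ^ 2 ≤ h ^ 2 * (N * (g1 ^ 2 + g2 ^ 2)) :=
    mul_le_mul h2 h1 (sq_nonneg _) (sq_nonneg _)
  have h4 : 0 ≤ (N * p + 2 * (f * (-n2 * g1 + n1 * g2))) ^ 2 := sq_nonneg _
  have h5 : 0 ≤ N * (N / 2 * p ^ 2 + 2 * h ^ 2 * (g1 ^ 2 + g2 ^ 2) +
      f * (2 * p * (-n2 * g1 + n1 * g2))) := by
    nlinarith
  have h6 := nonneg_of_mul_nonneg_right h5 hN0
  linarith

theorem test_ineq {Ω : Set P2} {n : P2} {h : ℝ} (hx : ∀ x ∈ Ω, |det2 n x| ≤ h)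
    {φ : P2 → ℝ} (hφ : Test Ω φ) :
    dot2 n n * ∫ x, φ x ^ 2 ≤ 4 * h ^ 2 * ((∫ x, pd1 φ x ^ 2) + ∫ x, pd2 φ x ^ 2) := by
  have i0 : Integrable (fun x => φ x ^ 2) (volume : Measure P2) := hφ.memLp.integrable_sq
  have i1 : Integrable (fun x => pd1 φ x ^ 2) (volume : Measure P2) := hφ.pd1_memLp.integrable_sq
  have i2 : Integrable (fun x => pd2 φ x ^ 2) (volume : Measure P2) := hφ.pd2_memLp.integrable_sq
  have hN : dot2 n n = n.1 * n.1 + n.2 * n.2 := rfl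
  have hN0 : 0 ≤ dot2 n n := by
    rw [hN]
    nlinarith [mul_self_nonneg n.1, mul_self_nonneg n.2]
  have hR : 0 ≤ (∫ x, pd1 φ x ^ 2) + ∫ x, pd2 φ x ^ 2 :=
    add_nonneg (integral_nonneg fun x => sq_nonneg _) (integral_nonneg fun x => sq_nonneg _)
  rcases hN0.eq_or_lt with h0 | h0
  · rw [← h0, zero_mul]
    positivity
  -- the linear function
  let v : P2 := (-n.2, n.1)
  let f : P2 →L[ℝ] ℝ := n.1 • ContinuousLinearMap.snd ℝ ℝ ℝ - n.2 • ContinuousLinearMap.fst ℝ ℝ ℝ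
  have hf : ∀ x, f x = det2 n x := by
    intro x
    simp [f, det2]
  have hfv : f v = dot2 n n := by
    rw [hf, hN]
    simp [det2, v]
  have hfd : ∀ x, fderiv ℝ (fun x => f x) x v = dot2 n n := by
    intro x
    rw [f.fderiv, hfv]
  have hv : ∀ x, fderiv ℝ φ x v = -n.2 * pd1 φ x + n.1 * pd2 φ x := by
    intro x
    have : v = (-n.2) • ((1, 0) : P2) + n.1 • ((0, 1) : P2) := by
      ext
      · simp [v]
      · simp [v]
    rw [this, map_add, map_smul, map_smul]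
    rfl
  have hsq : ContDiff ℝ ∞ (fun x => φ x ^ 2) := hφ.smooth.pow 2
  have hsc : HasCompactSupport (fun x => φ x ^ 2) :=
    hφ.compact.comp_left (g := fun t : ℝ => t ^ 2) (by simp)
  have hibp := ibp_dir (ψ := fun x => f x) (φ := fun x => φ x ^ 2) f.contDiff hsq hsc v
  have hd : ∀ x, fderiv ℝ (fun x => φ x ^ 2) x v =
      2 * φ x * (-n.2 * pd1 φ x + n.1 * pd2 φ x) := by
    intro x
    rw [fderiv_fun_pow 2 (hφ.diff x), _root_.smul_apply, hv x]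
    simp [smul_eq_mul]
  have e1 : ∫ x, fderiv ℝ (fun x => f x) x v * φ x ^ 2 = dot2 n n * ∫ x, φ x ^ 2 := by
    rw [← integral_const_mul]
    refine integral_congr_ae (Eventually.of_forall fun x => ?_)
    beta_reduce
    rw [hfd x]
  rw [e1] at hibp
  have e2 : dot2 n n * ∫ x, φ x ^ 2 =
      ∫ x, -(f x * fderiv ℝ (fun x => φ x ^ 2) x v) := by
    rw [integral_neg, hibp, neg_neg]
  have c1 : Continuous (fun x => fderiv ℝ (fun x => φ x ^ 2) x v) :=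
    (hsq.continuous_fderiv (by simp)).clm_apply continuous_const
  have s1 : HasCompactSupport (fun x => fderiv ℝ (fun x => φ x ^ 2) x v) :=
    hsc.fderiv_apply (𝕜 := ℝ) v
  have j1 : Integrable (fun x => -(f x * fderiv ℝ (fun x => φ x ^ 2) x v))
      (volume : Measure P2) :=
    ((f.continuous.mul c1).integrable_of_hasCompactSupport s1.mul_left).neg
  have j2 : Integrable (fun x => dot2 n n / 2 * φ x ^ 2 +
      2 * h ^ 2 * (pd1 φ x ^ 2 + pd2 φ x ^ 2)) (volume : Measure P2) :=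
    (i0.const_mul _).add ((i1.add i2).const_mul _)
  have e3 : ∫ x, -(f x * fderiv ℝ (fun x => φ x ^ 2) x v) ≤
      ∫ x, (dot2 n n / 2 * φ x ^ 2 + 2 * h ^ 2 * (pd1 φ x ^ 2 + pd2 φ x ^ 2)) := by
    refine integral_mono j1 j2 fun x => ?_
    beta_reduce
    rw [hf, hd]
    by_cases hxΩ : x ∈ Ω
    · exact pointwise hN h0 (hx x hxΩ)
    · rw [hφ.eq_zero hxΩ, hφ.pd1_eq_zero hxΩ, hφ.pd2_eq_zero hxΩ]
      simp
  have i12 : Integrable (fun x => pd1 φ x ^ 2 + pd2 φ x ^ 2) (volume : Measure P2) := i1.add i2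
  have e4 : ∫ x, (dot2 n n / 2 * φ x ^ 2 + 2 * h ^ 2 * (pd1 φ x ^ 2 + pd2 φ x ^ 2)) =
      dot2 n n / 2 * (∫ x, φ x ^ 2) + 2 * h ^ 2 * ((∫ x, pd1 φ x ^ 2) + ∫ x, pd2 φ x ^ 2) := by
    rw [integral_add (i0.const_mul _) (i12.const_mul _), integral_const_mul,
      integral_const_mul, integral_add i1 i2]
  rw [e4, ← e2] at e3
  linarith

end PcrAux

open PcrAux in
/-- PCR. -/
theorem pcr : PcrStatement := by
  intro Ω n h hΩ hh hx F hF
  refine H_induction (P := fun F => dot2 n n * ‖F 0‖ ^ 2 ≤ 4 * h ^ 2 * (‖F 1‖ ^ 2 + ‖F 2‖ ^ 2))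
    ?_ ?_ hF
  · have hc : ∀ i : Fin 3, Continuous fun F : LL => F i := fun i => PiLp.continuous_apply 2 _ i
    exact isClosed_le (continuous_const.mul ((hc 0).norm.pow 2))
      (continuous_const.mul (((hc 1).norm.pow 2).add ((hc 2).norm.pow 2)))
  · intro φ hφ
    rw [jet, trip_zero, trip_one, trip_two, norm_cl hφ.memLp, norm_cl hφ.pd1_memLp,
      norm_cl hφ.pd2_memLp]
    exact test_ineq hx hφ

end Pool.SqDrum
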