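import Pool.Agent.Lib.MP_2805c2_an.ST.Iface

/-!
# PLR: the polar decomposition of a `2 × 2` matrix with positive determinant
-/

set_option autoImplicit false

namespace Pool.SqDrum

theorem plr : PlrStatement := by
  intro a b hab
  unfold det2 at hab
  have hr2 : 0 < (a.1 + b.2) ^ 2 + (a.2 - b.1) ^ 2 := by
    nlinarith [sq_nonneg (a.1 - b.2), sq_nonneg (a.2 + b.1)]
  obtain ⟨r, hr⟩ : ∃ r, r = Real.sqrt ((a.1 + b.2) ^ 2 + (a.2 - b.1) ^ 2) := ⟨_, rfl⟩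
  have hr0 : 0 < r := by rw [hr]; exact Real.sqrt_pos.2 hr2
  have hrr : r ^ 2 = (a.1 + b.2) ^ 2 + (a.2 - b.1) ^ 2 := by
    rw [hr]; exact Real.sq_sqrt hr2.le
  obtain ⟨c, hc⟩ : ∃ c, c = (a.1 + b.2) / r := ⟨_, rfl⟩
  obtain ⟨s, hs⟩ : ∃ s, s = (a.2 - b.1) / r := ⟨_, rfl⟩
  have hcr : c * r = a.1 + b.2 := by rw [hc]; exact div_mul_cancel₀ _ hr0.ne'
  have hsr : s * r = a.2 - b.1 := by rw [hs]; exact div_mul_cancel₀ _ hr0.ne'
  have hcs : c ^ 2 + s ^ 2 = 1 := by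
    have h1 : (c ^ 2 + s ^ 2) * r ^ 2 = 1 * r ^ 2 := by
      have h2 : (c ^ 2 + s ^ 2) * r ^ 2 = (c * r) ^ 2 + (s * r) ^ 2 := by ring
      rw [h2, hcr, hsr, hrr]
      ring
    exact mul_right_cancel₀ (pow_ne_zero 2 hr0.ne') h1
  have hsym : -(s * a.1) + c * a.2 = c * b.1 + s * b.2 := by
    have h1 : (-(s * a.1) + c * a.2) * r = (c * b.1 + s * b.2) * r := by
      linear_combination (a.2 - b.1) * hcr - (a.1 + b.2) * hsr
    exact mul_right_cancel₀ hr0.ne' h1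
  have htr : (c * a.1 + s * a.2 + (-(s * b.1) + c * b.2)) / 2 = r / 2 := by
    have h1 : (c * a.1 + s * a.2 + (-(s * b.1) + c * b.2)) * r = r * r := by
      linear_combination (a.1 + b.2) * hcr + (a.2 - b.1) * hsr - hrr
    rw [mul_right_cancel₀ hr0.ne' h1]
  refine ⟨c, s, ![(c * a.1 + s * a.2 + (-(s * b.1) + c * b.2)) / 2 - 1,
    (c * a.1 + s * a.2 - (-(s * b.1) + c * b.2)) / 2, -(s * a.1) + c * a.2, 0, 0],
    hcs, ?_, rfl, rfl, ?_, ?_⟩
  · show 0 < 1 + ((c * a.1 + s * a.2 + (-(s * b.1) + c * b.2)) / 2 - 1)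
    rw [htr]
    linarith
  · show ((c * (1 + ((c * a.1 + s * a.2 + (-(s * b.1) + c * b.2)) / 2 - 1) +
        (c * a.1 + s * a.2 - (-(s * b.1) + c * b.2)) / 2) - s * (-(s * a.1) + c * a.2),
      s * (1 + ((c * a.1 + s * a.2 + (-(s * b.1) + c * b.2)) / 2 - 1) +
        (c * a.1 + s * a.2 - (-(s * b.1) + c * b.2)) / 2) + c * (-(s * a.1) + c * a.2)) : P2) = a
    refine Prod.ext ?_ ?_
    · simp only
      linear_combination a.1 * hcs
    · simp only
      linear_combination a.2 * hcs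
  · show ((c * (-(s * a.1) + c * a.2) - s * (1 + ((c * a.1 + s * a.2 +
        (-(s * b.1) + c * b.2)) / 2 - 1) - (c * a.1 + s * a.2 - (-(s * b.1) + c * b.2)) / 2),
      s * (-(s * a.1) + c * a.2) + c * (1 + ((c * a.1 + s * a.2 +
        (-(s * b.1) + c * b.2)) / 2 - 1) - (c * a.1 + s * a.2 - (-(s * b.1) + c * b.2)) / 2)) : P2)
      = b
    rw [hsym]
    refine Prod.ext ?_ ?_
    · simp only
      linear_combination b.1 * hcs
    · simp only
      linear_combination b.2 * hcs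

end Pool.SqDrum
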