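import Pool.Agent.Lib.MP_2805c2_an.ST.Iface

set_option autoImplicit false

/-! PSE: eigenvalues are nonnegative, and there are some. -/

namespace Pool.SqDrum

open MeasureTheory Set Filter Topology
open scoped ENNReal ContDiff InnerProductSpace

/-- a nonzero eigenfunction has a nonnegative eigenvalue -/
theorem PseAux.nonneg {Ω : Set P2} {l : ℝ} {F : LL} (hF : F ∈ Eig Ω l) (h0 : F ≠ 0) : 0 ≤ l := by
  obtain ⟨hH, he⟩ := hF
  have e := he F hH
  rw [real_inner_self_eq_norm_sq, real_inner_self_eq_norm_sq, real_inner_self_eq_norm_sq] at e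
  by_contra hl
  rw [not_le] at hl
  apply h0
  have h1 := sq_nonneg ‖F 1‖
  have h2 := sq_nonneg ‖F 2‖
  have h3 : l * ‖F 0‖ ^ 2 ≤ 0 := mul_nonpos_of_nonpos_of_nonneg hl.le (sq_nonneg _)
  have e1 : ‖F 1‖ ^ 2 = 0 := by linarith
  have e2 : ‖F 2‖ ^ 2 = 0 := by linarith
  have e3 : l * ‖F 0‖ ^ 2 = 0 := by linarith
  have e4 : ‖F 0‖ ^ 2 = 0 := (mul_eq_zero.mp e3).resolve_left hl.ne
  have f0 : F 0 = 0 := by simpa using e4
  have f1 : F 1 = 0 := by simpa using e1
  have f2 : F 2 = 0 := by simpa using e2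
  ext i : 1
  fin_cases i
  · exact f0
  · exact f1
  · exact f2

theorem PseAux.exists_of_mult {Ω : Set P2} {l : ℝ} (h : mult Ω l ≠ 0) :
    ∃ F ∈ Eig Ω l, F ≠ 0 := by
  by_contra hc
  push Not at hc
  apply h
  have hbot : Eig Ω l = ⊥ := (Submodule.eq_bot_iff _).2 hc
  unfold mult
  rw [hbot]
  exact finrank_bot ℝ LL

theorem PseAux.H_empty : H (∅ : Set P2) = ⊥ := by
  have h : Submodule.span ℝ {F : LL | ∃ φ, Test (∅ : Set P2) φ ∧ F = jet φ} = ⊥ := by
    rw [Submodule.span_eq_bot]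
    rintro F ⟨φ, hφ, rfl⟩
    have h0 : φ = 0 := by
      have : tsupport φ = ∅ := subset_empty_iff.1 hφ.sub
      exact tsupport_eq_empty_iff.1 this
    subst h0
    have hz : cl (0 : P2 → ℝ) = 0 := by
      have hm : MemLp (0 : P2 → ℝ) 2 (volume : Measure P2) := MemLp.zero
      rw [cl_eq hm]
      exact MemLp.toLp_zero _
    have hp1 : pd1 (0 : P2 → ℝ) = 0 := by
      funext x
      simp [pd1]
    have hp2 : pd2 (0 : P2 → ℝ) = 0 := by
      funext x
      simp [pd2]
    ext i : 1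
    fin_cases i
    · exact hz
    · show cl (pd1 0) = 0
      rw [hp1, hz]
    · show cl (pd2 0) = 0
      rw [hp2, hz]
  unfold H
  rw [h]
  refine (Submodule.eq_bot_iff _).2 fun x hx => ?_
  have hx' : x ∈ closure (((⊥ : Submodule ℝ LL) : Set LL)) := by
    rw [← Submodule.topologicalClosure_coe]
    exact hx
  have hb : (((⊥ : Submodule ℝ LL) : Set LL)) = {0} := Submodule.bot_coe
  rw [hb, closure_singleton] at hx'
  exact hx'

theorem PseAux.mult_empty (l : ℝ) : mult (∅ : Set P2) l = 0 := by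
  by_contra h
  obtain ⟨F, hF, h0⟩ := PseAux.exists_of_mult h
  have : F ∈ H (∅ : Set P2) := hF.1
  rw [PseAux.H_empty] at this
  exact h0 ((Submodule.mem_bot ℝ).1 this)

theorem pse (are : AreStatement) : PseStatement := by
  refine ⟨fun Ω _ l hl => ?_, fun Ω hΩ hb hv => ?_⟩
  · obtain ⟨F, hF, h0⟩ := PseAux.exists_of_mult hl
    exact PseAux.nonneg hF h0
  · by_contra hc
    push Not at hc
    have hiso : IsoSp Ω ∅ := fun l => by rw [hc l, PseAux.mult_empty]
    have := are Ω ∅ hΩ isOpen_empty hb Bornology.isBounded_empty hiso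
    rw [this] at hv
    simp at hv

end Pool.SqDrum
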