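import Pool.Agent.Lib.MP_2805c2_an.ST.Iface

/-!
# RIG: rigid motions and interiors of convex hulls
-/

set_option autoImplicit false

namespace Pool.SqDrum

namespace RigAux

/-- the rotation as a linear equivalence -/
noncomputable def rotE (c s : ℝ) (h : c ^ 2 + s ^ 2 = 1) : P2 ≃ₗ[ℝ] P2 where
  toFun x := (c * x.1 - s * x.2, s * x.1 + c * x.2)
  invFun x := (c * x.1 + s * x.2, -(s * x.1) + c * x.2)
  map_add' x y := by
    refine Prod.ext ?_ ?_
    · simp only [Prod.fst_add, Prod.snd_add]; ring
    · simp only [Prod.fst_add, Prod.snd_add]; ring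
  map_smul' r x := by
    refine Prod.ext ?_ ?_
    · simp only [Prod.smul_fst, Prod.smul_snd, smul_eq_mul, RingHom.id_apply]; ring
    · simp only [Prod.smul_fst, Prod.smul_snd, smul_eq_mul, RingHom.id_apply]; ring
  left_inv x := by
    refine Prod.ext ?_ ?_
    · simp only
      linear_combination x.1 * h
    · simp only
      linear_combination x.2 * h
  right_inv x := by
    refine Prod.ext ?_ ?_
    · simp only
      linear_combination x.1 * h
    · simp only
      linear_combination x.2 * h

/-- affine equivalences and interiors of convex hulls -/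
theorem img_int {n : ℕ} (R : P2 ≃ᵃ[ℝ] P2) (p : Fin n → P2) :
    interior (convexHull ℝ (Set.range (fun i => R (p i)))) =
      R '' interior (convexHull ℝ (Set.range p)) := by
  have h1 := R.toContinuousAffineEquiv.toHomeomorph.image_interior (convexHull ℝ (Set.range p))
  have h1' : R '' interior (convexHull ℝ (Set.range p)) =
      interior (R '' convexHull ℝ (Set.range p)) := h1
  rw [h1']
  have h2 := AffineMap.image_convexHull R.toAffineMap (Set.range p)
  rw [AffineEquiv.coe_toAffineMap] at h2
  rw [h2, ← Set.range_comp]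
  rfl

end RigAux

open RigAux in
theorem rig : RigStatement := by
  intro n p q c s t h hq
  obtain ⟨R, hR⟩ : ∃ R : P2 ≃ᵃ[ℝ] P2, ∀ x, R x = t + rot c s x :=
    ⟨(rotE c s h).toAffineEquiv.trans (AffineEquiv.constVAdd ℝ P2 t), fun _ => rfl⟩
  refine ⟨R, ⟨c, s, t.1, t.2, 1, Or.inl rfl, by rw [h]; norm_num, fun x => ?_⟩, ?_⟩
  · rw [hR]
    refine Prod.ext ?_ ?_
    · show t.1 + (c * x.1 - s * x.2) = c * x.1 - 1 * s * x.2 + t.1
      ring
    · show t.2 + (s * x.1 + c * x.2) = s * x.1 + 1 * c * x.2 + t.2
      ring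
  · rw [← img_int R p]
    have h1 : (fun i => R (p i)) = q := by
      funext i
      rw [hR, hq i]
    rw [h1]

end Pool.SqDrum
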