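import Mathlib
import Pool.Agent.Lib.MP_2805c2_an.ST.Iface

set_option autoImplicit false

/-!
# RNK: functions with finite common level sets have full rank somewhere
-/

namespace Pool.SqDrum

open MeasureTheory Set Filter Topology
open scoped ENNReal ContDiff InnerProductSpace

noncomputable section

namespace RnkAux

/-- there is a point of `U` at which `r` differentials are independent -/
def HasRank (U : Set Z5) (G : ℕ → Z5 → ℝ) (r : ℕ) : Prop :=
  ∃ z ∈ U, ∃ μ : Fin r → ℕ, LinearIndependent ℝ (fun i => fderiv ℝ (G (μ i)) z)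

theorem step (h1 : RkcStatement) (U : Set Z5) (G : ℕ → Z5 → ℝ) (hU : IsOpen U)
    (hG : ∀ m, ∀ z ∈ U, AnalyticAt ℝ (G m) z)
    (hfin : ∀ z₀ ∈ U, {z | z ∈ U ∧ ∀ m, G m z = G m z₀}.Finite) (r : ℕ) (hr : r < 5)
    (h : HasRank U G r) : HasRank U G (r + 1) := by
  by_contra hno
  obtain ⟨z, hz, μ, hli⟩ := h
  obtain ⟨φ, φ', δ, hφ0, hδ, hinj, hφ⟩ :=
    h1 r (fun i => G (μ i)) z hr (fun i => hG (μ i) z hz) hli
  -- the differentials stay independent near `z`
  have hcont : ContinuousAt (fun y => fun i => fderiv ℝ (G (μ i)) y) z :=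
    continuousAt_pi.2 fun i => (hG (μ i) z hz).fderiv.continuousAt
  have hev : ∀ᶠ y in 𝓝 z, LinearIndependent ℝ (fun i => fderiv ℝ (G (μ i)) y) :=
    hcont.eventually (isOpen_setOfPred_linearIndependent.mem_nhds hli)
  have hev2 : ∀ᶠ y in 𝓝 z, y ∈ U ∧ LinearIndependent ℝ (fun i => fderiv ℝ (G (μ i)) y) :=
    (hU.eventually_mem hz).and hev
  have hφc : ContinuousAt φ 0 := (hφ 0 ⟨by linarith, hδ⟩).1.continuousAt
  have hev3 : ∀ᶠ t in 𝓝 (0 : ℝ), φ t ∈ U ∧
      LinearIndependent ℝ (fun i => fderiv ℝ (G (μ i)) (φ t)) := by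
    have := hφc.tendsto
    rw [hφ0] at this
    exact this.eventually hev2
  obtain ⟨ε, hε, hball⟩ := Metric.eventually_nhds_iff.1 hev3
  set η := min δ ε with hη
  have hη0 : 0 < η := lt_min hδ hε
  have hsub : Ioo (-η) η ⊆ Ioo (-δ) δ := fun t ht =>
    ⟨by linarith [ht.1, min_le_left δ ε], by linarith [ht.2, min_le_left δ ε]⟩
  have hgood : ∀ t ∈ Ioo (-η) η, φ t ∈ U ∧
      LinearIndependent ℝ (fun i => fderiv ℝ (G (μ i)) (φ t)) := by
    intro t ht
    apply hball
    rw [Real.dist_eq, sub_zero, abs_lt]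
    exact ⟨by linarith [ht.1, min_le_right δ ε], by linarith [ht.2, min_le_right δ ε]⟩
  -- all the functions are constant along the curve
  have hker : ∀ t ∈ Ioo (-η) η, ∀ m, fderiv ℝ (G m) (φ t) (φ' t) = 0 := by
    intro t ht m
    have hmem : fderiv ℝ (G m) (φ t) ∈
        Submodule.span ℝ (Set.range fun i => fderiv ℝ (G (μ i)) (φ t)) := by
      by_contra hn
      apply hno
      refine ⟨φ t, (hgood t ht).1, Fin.cons m μ, ?_⟩
      have h2 : (fun i : Fin (r + 1) => fderiv ℝ (G ((Fin.cons m μ : Fin (r + 1) → ℕ) i)) (φ t)) =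
          (Fin.cons (fderiv ℝ (G m) (φ t)) (fun i => fderiv ℝ (G (μ i)) (φ t)) :
            Fin (r + 1) → (Z5 →L[ℝ] ℝ)) := by
        funext i
        refine Fin.cases ?_ (fun j => ?_) i
        · simp
        · simp
      rw [h2, linearIndependent_finCons]
      exact ⟨(hgood t ht).2, hn⟩
    have hle : Submodule.span ℝ (Set.range fun i => fderiv ℝ (G (μ i)) (φ t)) ≤
        LinearMap.ker (ContinuousLinearMap.apply ℝ ℝ (φ' t)).toLinearMap := by
      rw [Submodule.span_le]
      rintro _ ⟨i, rfl⟩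
      exact (hφ t (hsub ht)).2 i
    exact hle hmem
  have hconst : ∀ t ∈ Ioo (-η) η, ∀ m, G m (φ t) = G m z := by
    intro t ht m
    have hd : ∀ s ∈ Ioo (-η) η, HasDerivAt (fun s => G m (φ s)) 0 s := by
      intro s hs
      have h3 := (hG m (φ s) (hgood s hs).1).differentiableAt.hasFDerivAt
      have h4 := h3.comp_hasDerivAt s (hφ s (hsub hs)).1
      rw [hker s hs m] at h4
      exact h4
    have h5 := (convex_Ioo (-η) η).is_const_of_fderivWithin_eq_zero (𝕜 := ℝ)
      (f := fun s => G m (φ s))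
      (fun s hs => (hd s hs).differentiableAt.differentiableWithinAt)
      (fun s hs => by
        rw [fderivWithin_of_isOpen isOpen_Ioo hs]
        ext
        simp [(hd s hs).hasFDerivAt.fderiv]) ht (⟨by linarith, hη0⟩ : (0 : ℝ) ∈ Ioo (-η) η)
    simpa [hφ0] using h5
  have hmaps : MapsTo φ (Ioo (-η) η) {y | y ∈ U ∧ ∀ m, G m y = G m z} :=
    fun t ht => ⟨(hgood t ht).1, hconst t ht⟩
  exact (Set.Ioo_infinite (by linarith : -η < η)).mono (subset_refl _)
    (Set.Finite.of_injOn hmaps (hinj.mono hsub) (hfin z hz))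

end RnkAux

theorem rnk (h1 : RkcStatement) : RnkStatement := by
  intro U G hU hne hG hfin
  have h0 : RnkAux.HasRank U G 0 := by
    obtain ⟨z, hz⟩ := hne
    exact ⟨z, hz, Fin.elim0, linearIndependent_empty_type⟩
  have hall : ∀ r, r ≤ 5 → RnkAux.HasRank U G r := by
    intro r
    induction r with
    | zero => exact fun _ => h0
    | succ n ih => exact fun hn => RnkAux.step h1 U G hU hG hfin n (by omega) (ih (by omega))
  exact hall 5 le_rfl

end

end Pool.SqDrum
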