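import Pool.Agent.Lib.MP_2805c2_an.ST.Iface

set_option autoImplicit false

/-!
# STP: long quadrilaterals have large eigenvalues
-/

namespace Pool.SqDrum

open MeasureTheory Set Filter Topology
open scoped ENNReal ContDiff InnerProductSpace

namespace StpAux

theorem exists_eig {Ω : Set P2} {l : ℝ} (h : mult Ω l ≠ 0) :
    ∃ F : LL, F ∈ H Ω ∧ F 0 ≠ 0 ∧ ‖F 1‖ ^ 2 + ‖F 2‖ ^ 2 = l * ‖F 0‖ ^ 2 := by
  have h1 : Eig Ω l ≠ ⊥ := by
    intro h0
    apply h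
    unfold mult
    rw [h0]
    simp
  obtain ⟨F, hF, hne⟩ := Submodule.exists_mem_ne_zero_of_ne_bot h1
  have hF1 : F ∈ H Ω := hF.1
  have e := hF.2 F hF1
  rw [real_inner_self_eq_norm_sq, real_inner_self_eq_norm_sq, real_inner_self_eq_norm_sq] at e
  refine ⟨F, hF1, ?_, e⟩
  intro h0
  rw [h0, norm_zero] at e
  have h1 : ‖F 1‖ ^ 2 = 0 := by nlinarith [sq_nonneg ‖F 1‖, sq_nonneg ‖F 2‖]
  have h2 : ‖F 2‖ ^ 2 = 0 := by nlinarith [sq_nonneg ‖F 1‖, sq_nonneg ‖F 2‖]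
  apply hne
  have e1 : F 1 = 0 := by simpa using h1
  have e2 : F 2 = 0 := by simpa using h2
  ext i : 1
  fin_cases i
  · exact h0
  · exact e1
  · exact e2

theorem bound {Ω : Set P2} {n : P2} {A l : ℝ} (pcr : PcrStatement) (hΩ : IsOpen Ω) (hA : 0 < A)
    (hb : ∀ x ∈ Ω, |det2 n x| ≤ A) (h : mult Ω l ≠ 0) : dot2 n n ≤ 4 * A ^ 2 * l := by
  obtain ⟨F, hF, h0, e⟩ := exists_eig h
  have k := pcr Ω n A hΩ hA hb F hF
  rw [e] at k
  have h1 : 0 < ‖F 0‖ ^ 2 := by positivity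
  have h2 : dot2 n n * ‖F 0‖ ^ 2 ≤ (4 * A ^ 2 * l) * ‖F 0‖ ^ 2 := by linarith
  exact le_of_mul_le_mul_right h2 h1

theorem est {A u y1 y2 : ℝ} (hA : 0 < A) (hu : |u| ≤ 2 * A) (h1 : |y1| ≤ 1 / 2)
    (h2 : |y2| ≤ 1 / 2) : |y2 * A + y1 * y2 * u| ≤ A := by
  have e : y2 * A + y1 * y2 * u = y2 * (A + y1 * u) := by ring
  rw [e, abs_mul]
  have h3 : |A + y1 * u| ≤ 2 * A := by
    refine (abs_add_le _ _).trans ?_
    rw [abs_mul, abs_of_pos hA]
    nlinarith [abs_nonneg y1, abs_nonneg u]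
  nlinarith [abs_nonneg y2, abs_nonneg (A + y1 * u)]

end StpAux

theorem stp (pcr : PcrStatement) (wcc : WccStatement) : StpStatement := by
  intro z hz l hl
  obtain ⟨hccw, hq, -, hA⟩ := wcc.2 z hz
  have hopen : IsOpen (dom z) := by rw [hq]; exact isOpen_interior
  have hw := hz.2
  have hD : ∀ y ∈ D, |y.1| ≤ 1 / 2 ∧ |y.2| ≤ 1 / 2 := by
    intro y hy
    simp only [D, Sq, mem_prod, mem_Ioo] at hy
    constructor <;> rw [abs_le] <;> constructor <;> linarith [hy.1.1, hy.1.2, hy.2.1, hy.2.2]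
  have hw1 : |det2 (va z) (vw z)| ≤ 2 * ar z := by linarith [abs_nonneg (det2 (vw z) (vb z))]
  have hw2 : |det2 (vw z) (vb z)| ≤ 2 * ar z := by linarith [abs_nonneg (det2 (va z) (vw z))]
  constructor
  · refine StpAux.bound pcr hopen hA ?_ hl
    rintro x ⟨y, hy, rfl⟩
    have e : det2 (va z) (bil 0 (va z) (vb z) (vw z) y) =
        y.2 * ar z + y.1 * y.2 * det2 (va z) (vw z) := by
      simp only [det2, bil, ar, Prod.fst_add, Prod.snd_add, Prod.smul_fst, Prod.smul_snd,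
        smul_eq_mul, Prod.fst_zero, Prod.snd_zero]
      ring
    rw [e]
    exact StpAux.est hA hw1 (hD y hy).1 (hD y hy).2
  · refine StpAux.bound pcr hopen hA ?_ hl
    rintro x ⟨y, hy, rfl⟩
    have e : det2 (vb z) (bil 0 (va z) (vb z) (vw z) y) =
        -(y.1 * ar z + y.2 * y.1 * det2 (vw z) (vb z)) := by
      simp only [det2, bil, ar, Prod.fst_add, Prod.snd_add, Prod.smul_fst, Prod.smul_snd,
        smul_eq_mul, Prod.fst_zero, Prod.snd_zero]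
      ring
    rw [e, abs_neg]
    exact StpAux.est hA hw2 (hD y hy).2 (hD y hy).1

end Pool.SqDrum
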