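import Pool.Agent.Lib.MP_2805c2_an.ST.Iface
import Pool.Agent.Lib.MP_2805c2_an.SQ.Fin

set_option autoImplicit false

/-!
# TEE: almost every convex quadrilateral, over `EuclideanSpace ℝ (Fin 2)`
-/

namespace Pool.SqDrum

open MeasureTheory Set Filter Topology
open scoped ENNReal ContDiff InnerProductSpace

noncomputable section

namespace TeeAux

open FinAux

/-- coordinates of a quadrilateral -/
def co4 (p : Fin 4 → E.E2) : Fin 4 → P2 := fun i => cc (p i)

/-- the coordinates as an affine equivalence -/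
def ccA : E.E2 ≃ᵃ[ℝ] P2 := cc.toLinearEquiv.toAffineEquiv

theorem ccA_apply (x : E.E2) : ccA x = cc x := rfl

theorem drum_co (p : Fin 4 → E.E2) : cc '' E.drum p = quad (co4 p) := by
  have h := img_int ccA p
  exact h.symm

theorem hull_co (p : Fin 4 → E.E2) :
    cc '' convexHull ℝ (Set.range p) = convexHull ℝ (Set.range (co4 p)) := by
  have h := img_hull ccA (Set.range p)
  rw [← Set.range_comp] at h
  exact h.symm

theorem mult_co (hBrg : BrgStatement) (p : Fin 4 → E.E2) (μ : ℝ) :
    E.mult (E.drum p) μ = mult (quad (co4 p)) μ := by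
  have ho : IsOpen (E.drum p) := isOpen_interior
  rw [hBrg _ _ ho, ← drum_co]
  rfl

theorem pos_co (p : Fin 4 → E.E2) (hp : E.ConvexPosition p) :
    ∀ i, co4 p i ∉ convexHull ℝ (co4 p '' {j | j ≠ i}) := by
  intro i hi
  refine hp i ?_
  have h1 : convexHull ℝ (co4 p '' {j | j ≠ i}) = cc '' convexHull ℝ (p '' {j | j ≠ i}) := by
    have h := img_hull ccA (p '' {j | j ≠ i})
    rw [← Set.image_comp] at h
    exact h
  rw [h1] at hi
  obtain ⟨y, hy, hyi⟩ := hi
  have h2 : y = p i := cc.injective hyi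
  rwa [h2] at hy

theorem quad_perm (q : Fin 4 → P2) (σ : Equiv.Perm (Fin 4)) : quad (q ∘ σ) = quad q := by
  unfold quad
  rw [Set.range_comp, σ.surjective.range_eq, Set.image_univ]

theorem quad_ne (hQda : QdaStatement) (r : Fin 4 → P2) (hr : Ccw r) : (quad r).Nonempty := by
  rw [(hQda r hr).1]
  refine ⟨_, Set.mem_image_of_mem _ (?_ : ((0 : ℝ), (0 : ℝ)) ∈ D)⟩
  unfold D Sq
  rw [Set.mem_prod]
  constructor <;> constructor <;> norm_num

/-- congruent open quadrilaterals have congruent closures -/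
theorem hull_of_cong (q r : Fin 4 → P2) (hq : (quad q).Nonempty) (hr : (quad r).Nonempty)
    (h : Cong (quad q) (quad r)) : ∃ f : E.E2 ≃ᵢ E.E2,
      f '' (cc.symm '' convexHull ℝ (Set.range q)) = cc.symm '' convexHull ℝ (Set.range r) := by
  obtain ⟨f, hf⟩ := ce_of_cong h
  refine ⟨f, ?_⟩
  have hcl1 := clos q hq
  have hcl2 := clos r hr
  have hhull : (fun y => cc (f (cc.symm y))) '' convexHull ℝ (Set.range q) =
      convexHull ℝ (Set.range r) := by
    rw [← hcl1, ← hcl2, ← hf]
    exact (cc.symm.toHomeomorph.trans (f.toHomeomorph.trans cc.toHomeomorph)).image_closure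
      (quad q)
  rw [← hhull, ← Set.image_comp, ← Set.image_comp]
  refine Set.image_congr fun y _ => ?_
  simp

end TeeAux

open FinAux TeeAux in
/-- TEE -/
theorem tee (hTrn : TrnStatement) (hCyc : CycStatement) (hEnl : EnlStatement)
    (hWnf : WnfStatement) (hRig : RigStatement) (hCng : CngStatement) (hBrg : BrgStatement)
    (hWcc : WccStatement) (hQda : QdaStatement) : TeeStatement := by
  have hnull : ∀ σ : Equiv.Perm (Fin 4), ∀ᵐ p : Fin 4 → E.E2,
      ¬ ((fun i => ((p (σ i) 0, p (σ i) 1) : P2)) ∈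
        {q : Fin 4 → P2 | Ccw q ∧ ¬ (Part (quad q)).Finite}) := by
    intro σ
    have h := hEnl _ hTrn σ
    rw [ae_iff]
    simpa only [not_not] using h
  have hall := ae_all_iff.2 hnull
  filter_upwards [hall] with p hp hconv
  obtain ⟨σ, hσ⟩ := hCyc (co4 p) (pos_co p hconv)
  have hfin : (Part (quad (co4 p))).Finite := by
    by_contra hinf
    refine hp σ ⟨hσ, ?_⟩
    have e : quad (fun i => ((p (σ i) 0, p (σ i) 1) : P2)) = quad (co4 p) :=
      quad_perm (co4 p) σ
    rw [e]
    exact hinf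
  refine ⟨(fun z : Z5 => fun i => cc.symm (vz z i)) '' Part (quad (co4 p)),
    hfin.image _, ?_⟩
  intro q hq hspec
  obtain ⟨τ, hτ⟩ := hCyc (co4 q) (pos_co q hq)
  obtain ⟨c, s, t, z, hcs, hz, hzq⟩ := hWnf _ hτ
  obtain ⟨hccw, hdom, -, -⟩ := hWcc.2 z hz
  have hcong : Cong (quad (vz z)) (quad (co4 q)) := by
    have h := hRig 4 (vz z) (co4 q ∘ τ) c s t hcs hzq
    have e : interior (convexHull ℝ (Set.range (co4 q ∘ τ))) = quad (co4 q) :=
      quad_perm (co4 q) τ
    rw [e] at h
    exact h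
  have hiso : IsoSp (quad (co4 p)) (quad (co4 q)) := by
    intro l
    rw [← mult_co hBrg, ← mult_co hBrg]
    exact hspec l
  have hiso2 : IsoSp (quad (vz z)) (quad (co4 q)) := hCng.2.2 _ _ (quad_open _) hcong
  have hzP : z ∈ Part (quad (co4 p)) := by
    refine ⟨hz, ?_⟩
    rw [hdom]
    exact isoSp_trans hiso (isoSp_symm hiso2)
  refine ⟨_, Set.mem_image_of_mem _ hzP, ?_⟩
  have hne1 : (quad (co4 q)).Nonempty := by
    rw [← quad_perm _ τ]
    exact quad_ne hQda _ hτ
  have hne2 : (quad (vz z)).Nonempty := quad_ne hQda _ hccw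
  obtain ⟨f, hf⟩ := hull_of_cong (co4 q) (vz z) hne1 hne2 (hCng.1 _ _ hcong)
  refine ⟨f, ?_⟩
  have e1 : cc.symm '' convexHull ℝ (Set.range (co4 q)) = convexHull ℝ (Set.range q) := by
    rw [← hull_co, ← Set.image_comp]
    have : (cc.symm ∘ cc : E.E2 → E.E2) = id := by
      funext x
      exact cc.symm_apply_apply x
    rw [this, Set.image_id]
  have e2 : cc.symm '' convexHull ℝ (Set.range (vz z)) =
      convexHull ℝ (Set.range (fun i => cc.symm (vz z i))) := by
    have h := img_hull ccA.symm (Set.range (vz z))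
    rw [← Set.range_comp] at h
    exact h.symm
  rw [e1, e2] at hf
  exact hf

end

end Pool.SqDrum
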