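import Pool.Agent.Lib.MP_2805c2_an.ST.Iface

set_option autoImplicit false

/-! TNL: the values of triangles are a null set. -/

namespace Pool.SqDrum

open MeasureTheory Set Filter Topology
open scoped ENNReal ContDiff InnerProductSpace

theorem TnlAux.D0_open : IsOpen D0 := by
  have h1 : IsOpen D := by
    unfold D Sq
    exact isOpen_Ioo.prod isOpen_Ioo
  have h2 : IsOpen {x : P2 | x.1 + x.2 < 0} :=
    isOpen_lt (continuous_fst.add continuous_snd) continuous_const
  exact h1.inter h2

theorem TnlAux.null3 : volume {z : Z5 | z 3 = 0} = 0 := by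
  have h : {z : Z5 | z 3 = 0} = ((LinearMap.ker (LinearMap.proj (3 : Fin 5) : Z5 →ₗ[ℝ] ℝ) :
      Submodule ℝ Z5) : Set Z5) := by
    ext z
    simp
  rw [h]
  refine Measure.addHaar_submodule volume _ ?_
  intro ht
  have : (Pi.single (3 : Fin 5) (1 : ℝ) : Z5) ∈
      (LinearMap.ker (LinearMap.proj (3 : Fin 5) : Z5 →ₗ[ℝ] ℝ) : Submodule ℝ Z5) := by
    rw [ht]
    trivial
  simp at this

theorem tnl (gan : GanStatement) : TnlStatement := by
  intro μ hμ
  have hG := fun i => gan D0 TnlAux.D0_open (fun x hx => hx.1) (μ i) (hμ i)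
  choose g hg using hG
  have hdiff : DifferentiableOn ℝ (fun (z : Z5) (i : Fin 5) => g i z) (WW ∩ {z : Z5 | z 3 = 0}) := by
    intro z hz
    refine DifferentiableAt.differentiableWithinAt ?_
    rw [differentiableAt_pi]
    exact fun i => (hg i z hz.1).1.differentiableAt
  have hnull : volume (WW ∩ {z : Z5 | z 3 = 0}) = 0 :=
    measure_mono_null inter_subset_right TnlAux.null3
  have himg := addHaar_image_eq_zero_of_differentiableOn_of_addHaar_eq_zero
    (volume : Measure Z5) hdiff hnull
  refine measure_mono_null ?_ himg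
  rintro y ⟨hy, z, hz, h3, -, hT⟩
  refine ⟨z, ⟨hz, h3⟩, ?_⟩
  funext i
  obtain ⟨-, hnn, hTr⟩ := hg i z hz
  have := hT i
  rw [hTr] at this
  exact (ENNReal.ofReal_eq_ofReal_iff hnn (hy i)).1 this

end Pool.SqDrum
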