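import Pool.Agent.Lib.MP_2805c2_an.ST.Iface

set_option autoImplicit false

/-!
# TRA: the trace and changes of the scalar product
-/

namespace Pool.SqDrum

open MeasureTheory Set Filter Topology
open scoped ENNReal ContDiff InnerProductSpace

namespace TraAux

variable {E : Type} [NormedAddCommGroup E] [InnerProductSpace ℝ E]

/-- Parseval. -/
lemma hasSum_sq {ι : Type} (b : HilbertBasis ι ℝ E) (x : E) :
    HasSum (fun i => ⟪b i, x⟫_ℝ ^ 2) (‖x‖ ^ 2) := by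
  have h := b.hasSum_inner_mul_inner x x
  rw [real_inner_self_eq_norm_sq] at h
  have e : (fun i => ⟪x, b i⟫_ℝ * ⟪b i, x⟫_ℝ) = fun i => ⟪b i, x⟫_ℝ ^ 2 := by
    funext i
    rw [real_inner_comm, sq]
  rwa [e] at h

/-- the double family of squares is summable -/
lemma summable_sq {ι ι' : Type} (b : HilbertBasis ι ℝ E) (p : ι' → E)
    (hp : Summable (fun j => ‖p j‖ ^ 2)) :
    Summable (fun x : ι' × ι => ⟪b x.2, p x.1⟫_ℝ ^ 2) := by
  rw [summable_prod_of_nonneg (fun x => sq_nonneg _)]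
  refine ⟨fun j => (hasSum_sq b (p j)).summable, ?_⟩
  have e : (fun j => ∑' i, ⟪b (j, i).2, p (j, i).1⟫_ℝ ^ 2) = fun j => ‖p j‖ ^ 2 := by
    funext j
    exact (hasSum_sq b (p j)).tsum_eq
  rw [e]
  exact hp

/-- exchange of the double sum -/
lemma hasSum_double {ι ι' : Type} (b : HilbertBasis ι ℝ E) (p q : ι' → E)
    (hp : Summable (fun j => ‖p j‖ ^ 2)) (hq : Summable (fun j => ‖q j‖ ^ 2)) :
    HasSum (fun x : ι × ι' => ⟪q x.2, b x.1⟫_ℝ * ⟪b x.1, p x.2⟫_ℝ) (∑' j, ⟪q j, p j⟫_ℝ) := by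
  have hs : Summable (fun x : ι' × ι => ⟪q x.1, b x.2⟫_ℝ * ⟪b x.2, p x.1⟫_ℝ) := by
    refine Summable.of_norm_bounded
      (g := fun x : ι' × ι => ⟪b x.2, q x.1⟫_ℝ ^ 2 + ⟪b x.2, p x.1⟫_ℝ ^ 2)
      ((summable_sq b q hq).add (summable_sq b p hp)) ?_
    intro x
    rw [Real.norm_eq_abs, abs_mul, real_inner_comm]
    nlinarith [sq_nonneg (|⟪b x.2, q x.1⟫_ℝ| - |⟪b x.2, p x.1⟫_ℝ|),
      sq_abs ⟪b x.2, q x.1⟫_ℝ, sq_abs ⟪b x.2, p x.1⟫_ℝ,
      sq_nonneg (⟪b x.2, q x.1⟫_ℝ), sq_nonneg (⟪b x.2, p x.1⟫_ℝ)]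
  have h1 : HasSum (fun j => ⟪q j, p j⟫_ℝ)
      (∑' x : ι' × ι, ⟪q x.1, b x.2⟫_ℝ * ⟪b x.2, p x.1⟫_ℝ) :=
    hs.hasSum.prod_fiberwise (fun j => b.hasSum_inner_mul_inner (q j) (p j))
  have h2 := hs.hasSum
  rw [← h1.tsum_eq] at h2
  exact (Equiv.prodComm ι ι').hasSum_iff.mpr h2

end TraAux

open TraAux in
/-- TRA -/
theorem tra : TraStatement := by
  intro E E' _ _ _ _ _ _ V R ι ι' b e K hR hsum hK
  set W : E →L[ℝ] E' := (V : E →L[ℝ] E') with hW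
  set Vi : E' →L[ℝ] E := (V.symm : E' →L[ℝ] E) with hVi
  have hVW : ∀ y, W (Vi y) = y := fun y => V.apply_symm_apply y
  have hWV : ∀ x, Vi (W x) = x := fun x => V.symm_apply_apply x
  have hadj : ∀ x : E, W.adjoint (Vi.adjoint x) = x := by
    intro x
    apply ext_inner_right ℝ
    intro y
    rw [ContinuousLinearMap.adjoint_inner_left, ContinuousLinearMap.adjoint_inner_left, hWV]
  -- the operator and its adjoint
  have hK1 : ∀ x, K x = W.adjoint (R (Vi.adjoint x)) := by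
    intro x
    rw [← hK, hadj]
  have hK2 : ∀ x, K.adjoint x = Vi (R (W x)) := by
    intro x
    apply ext_inner_left ℝ
    intro y
    rw [ContinuousLinearMap.adjoint_inner_right, hK1,
      ContinuousLinearMap.adjoint_inner_left, hR, ContinuousLinearMap.adjoint_inner_left]
  set p : ι' → E := fun j => Vi (R (e j)) with hp
  set q : ι' → E := fun j => W.adjoint (R (e j)) with hq
  have hps : Summable (fun j => ‖p j‖ ^ 2) := by
    refine Summable.of_nonneg_of_le (fun j => sq_nonneg _) (fun j => ?_)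
      (hsum.mul_left (‖Vi‖ ^ 2))
    rw [← mul_pow]
    exact pow_le_pow_left₀ (norm_nonneg _) (Vi.le_opNorm _) 2
  have hqs : Summable (fun j => ‖q j‖ ^ 2) := by
    refine Summable.of_nonneg_of_le (fun j => sq_nonneg _) (fun j => ?_)
      (hsum.mul_left (‖W.adjoint‖ ^ 2))
    rw [← mul_pow]
    exact pow_le_pow_left₀ (norm_nonneg _) (W.adjoint.le_opNorm _) 2
  have hqp : ∀ j, ⟪q j, p j⟫_ℝ = ‖R (e j)‖ ^ 2 := by
    intro j
    change ⟪W.adjoint (R (e j)), Vi (R (e j))⟫_ℝ = _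
    rw [ContinuousLinearMap.adjoint_inner_left, hVW, real_inner_self_eq_norm_sq]
  have hd := hasSum_double b p q hps hqs
  have hd' : (∑' j, ⟪q j, p j⟫_ℝ) = ∑' j, ‖R (e j)‖ ^ 2 := by
    exact tsum_congr hqp
  rw [hd'] at hd
  refine hd.prod_fiberwise (fun i => ?_)
  have h1 := e.hasSum_inner_mul_inner (R (Vi.adjoint (b i))) (R (W (b i)))
  have h2 : ⟪R (Vi.adjoint (b i)), R (W (b i))⟫_ℝ = ⟪K (b i), K.adjoint (b i)⟫_ℝ := by
    rw [hK1, hK2, ContinuousLinearMap.adjoint_inner_left, hVW]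
  rw [h2] at h1
  have e1 : (fun j => ⟪R (Vi.adjoint (b i)), e j⟫_ℝ * ⟪e j, R (W (b i))⟫_ℝ) =
      fun j => ⟪q j, b i⟫_ℝ * ⟪b i, p j⟫_ℝ := by
    funext j
    have e2 : ⟪q j, b i⟫_ℝ = ⟪e j, R (W (b i))⟫_ℝ := by
      change ⟪W.adjoint (R (e j)), b i⟫_ℝ = _
      rw [ContinuousLinearMap.adjoint_inner_left, hR]
    have e3 : ⟪b i, p j⟫_ℝ = ⟪R (Vi.adjoint (b i)), e j⟫_ℝ := by
      change ⟪b i, Vi (R (e j))⟫_ℝ = _
      rw [← ContinuousLinearMap.adjoint_inner_left, hR]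
    rw [e2, e3, mul_comm]
  rw [e1] at h1
  exact h1

end Pool.SqDrum
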