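import Pool.Agent.Lib.MP_2805c2_an.ST.Iface

/-!
# WNF: the normal form of a convex quadrilateral
-/

set_option autoImplicit false

namespace Pool.SqDrum

namespace WnfAux

theorem det_rot (c s : ℝ) (h : c ^ 2 + s ^ 2 = 1) (u v : P2) :
    det2 (rot c s u) (rot c s v) = det2 u v := by
  unfold det2 rot
  simp only
  linear_combination (u.1 * v.2 - u.2 * v.1) * h

theorem rot_add (c s : ℝ) (u v : P2) : rot c s (u + v) = rot c s u + rot c s v := by
  unfold rot
  refine Prod.ext ?_ ?_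
  · simp only [Prod.fst_add, Prod.snd_add]; ring
  · simp only [Prod.fst_add, Prod.snd_add]; ring

theorem rot_smul (c s r : ℝ) (u : P2) : rot c s (r • u) = r • rot c s u := by
  unfold rot
  refine Prod.ext ?_ ?_
  · simp only [Prod.smul_fst, Prod.smul_snd, smul_eq_mul]; ring
  · simp only [Prod.smul_fst, Prod.smul_snd, smul_eq_mul]; ring

theorem rot_zero (c s : ℝ) : rot c s 0 = 0 := by
  unfold rot
  refine Prod.ext ?_ ?_
  · simp
  · simp

theorem rot_inv (c s : ℝ) (h : c ^ 2 + s ^ 2 = 1) (u : P2) :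
    rot c s (c * u.1 + s * u.2, -(s * u.1) + c * u.2) = u := by
  unfold rot
  refine Prod.ext ?_ ?_
  · simp only
    linear_combination u.1 * h
  · simp only
    linear_combination u.2 * h

theorem q_eq (q : Fin 4 → P2) (i : Fin 4) :
    q i = qc q + ((cor i).1 • qa q + (cor i).2 • qb q + ((cor i).1 * (cor i).2) • qw q) := by
  unfold qc qa qb qw
  fin_cases i
  · refine Prod.ext ?_ ?_ <;>
    · simp [cor, Prod.smul_fst, Prod.smul_snd]
      ring
  · refine Prod.ext ?_ ?_ <;>
    · simp [cor, Prod.smul_fst, Prod.smul_snd]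
      ring
  · refine Prod.ext ?_ ?_ <;>
    · simp [cor, Prod.smul_fst, Prod.smul_snd]
      ring
  · refine Prod.ext ?_ ?_ <;>
    · simp [cor, Prod.smul_fst, Prod.smul_snd]
      ring

/-- the four Jacobians at the corners are positive -/
theorem corners (q : Fin 4 → P2) (h : Ccw q) :
    |det2 (qa q) (qw q)| + |det2 (qw q) (qb q)| < 2 * det2 (qa q) (qb q) := by
  have h0 : 0 < det2 (q 1 - q 0) (q 3 - q 0) := h 0 3 (by decide) (by decide)
  have h1 : 0 < det2 (q 1 - q 0) (q 2 - q 0) := h 0 2 (by decide) (by decide)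
  have h2 : 0 < det2 (q 2 - q 1) (q 3 - q 1) := h 1 3 (by decide) (by decide)
  have h3 : 0 < det2 (q 3 - q 2) (q 0 - q 2) := h 2 0 (by decide) (by decide)
  have e0 : 2 * det2 (q 1 - q 0) (q 3 - q 0) =
      2 * det2 (qa q) (qb q) - det2 (qa q) (qw q) - det2 (qw q) (qb q) := by
    unfold det2 qa qb qw
    simp only [Prod.fst_add, Prod.snd_add, Prod.fst_sub, Prod.snd_sub, Prod.smul_fst,
      Prod.smul_snd, smul_eq_mul]
    ring
  have e1 : 2 * det2 (q 1 - q 0) (q 2 - q 0) =
      2 * det2 (qa q) (qb q) + det2 (qa q) (qw q) - det2 (qw q) (qb q) := by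
    unfold det2 qa qb qw
    simp only [Prod.fst_add, Prod.snd_add, Prod.fst_sub, Prod.snd_sub, Prod.smul_fst,
      Prod.smul_snd, smul_eq_mul]
    ring
  have e2 : 2 * det2 (q 2 - q 1) (q 3 - q 1) =
      2 * det2 (qa q) (qb q) + det2 (qa q) (qw q) + det2 (qw q) (qb q) := by
    unfold det2 qa qb qw
    simp only [Prod.fst_add, Prod.snd_add, Prod.fst_sub, Prod.snd_sub, Prod.smul_fst,
      Prod.smul_snd, smul_eq_mul]
    ring
  have e3 : 2 * det2 (q 3 - q 2) (q 0 - q 2) =
      2 * det2 (qa q) (qb q) - det2 (qa q) (qw q) + det2 (qw q) (qb q) := by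
    unfold det2 qa qb qw
    simp only [Prod.fst_add, Prod.snd_add, Prod.fst_sub, Prod.snd_sub, Prod.smul_fst,
      Prod.smul_snd, smul_eq_mul]
    ring
  rcases abs_cases (det2 (qa q) (qw q)) with ⟨k1, _⟩ | ⟨k1, _⟩ <;>
    rcases abs_cases (det2 (qw q) (qb q)) with ⟨k2, _⟩ | ⟨k2, _⟩ <;>
    rw [k1, k2] <;> linarith

end WnfAux

open WnfAux in
theorem wnf (hplr : PlrStatement) : WnfStatement := by
  intro q hq
  have hc := corners q hq
  have hpos : 0 < det2 (qa q) (qb q) := by
    have h1 := abs_nonneg (det2 (qa q) (qw q))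
    have h2 := abs_nonneg (det2 (qw q) (qb q))
    linarith
  obtain ⟨c, s, z, hcs, hz0, -, -, ha, hb⟩ := hplr (qa q) (qb q) hpos
  obtain ⟨z', hz'⟩ : ∃ z' : Z5, z' = ![z 0, z 1, z 2, c * (qw q).1 + s * (qw q).2,
    -(s * (qw q).1) + c * (qw q).2] := ⟨_, rfl⟩
  have hva : va z' = va z := by rw [hz']; rfl
  have hvb : vb z' = vb z := by rw [hz']; rfl
  have hvw : rot c s (vw z') = qw q := by
    have h1 : vw z' = (c * (qw q).1 + s * (qw q).2, -(s * (qw q).1) + c * (qw q).2) := by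
      rw [hz']; rfl
    rw [h1]
    exact rot_inv c s hcs (qw q)
  refine ⟨c, s, qc q, z', hcs, ⟨?_, ?_⟩, fun i => ?_⟩
  · have h1 : z' 0 = z 0 := by rw [hz']; rfl
    rw [h1]
    exact hz0
  · unfold ar
    rw [← det_rot c s hcs (va z') (vw z'), ← det_rot c s hcs (vw z') (vb z'),
      ← det_rot c s hcs (va z') (vb z'), hvw, hva, hvb, ha, hb]
    exact hc
  · have h1 : vz z' i = (cor i).1 • va z' + (cor i).2 • vb z' +
        ((cor i).1 * (cor i).2) • vw z' := by
      show (0 : P2) + (cor i).1 • va z' + (cor i).2 • vb z' +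
        ((cor i).1 * (cor i).2) • vw z' = _
      rw [zero_add]
    rw [h1, rot_add, rot_add, rot_smul, rot_smul, rot_smul, hvw, hva, hvb, ha, hb]
    exact q_eq q i

end Pool.SqDrum
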