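import Pool.Agent.Lib.MP_2805c2_an.ST.Iface
import Pool.Agent.Lib.MP_2805c2_an.ST.Rig
import Pool.Agent.Lib.MP_2805c2_an.ST.Wnf

set_option autoImplicit false

/-!
# TRE: all triangles
-/

namespace Pool.SqDrum

open MeasureTheory Set Filter Topology

namespace TreAux

/-- the vertices of the reference triangle -/
noncomputable def ref : Fin 3 → P2 := ![(-1/2, -1/2), (1/2, -1/2), (-1/2, 1/2)]

/-- the closed reference triangle -/
def T3 : Set P2 := {x | -1/2 ≤ x.1 ∧ -1/2 ≤ x.2 ∧ x.1 + x.2 ≤ 0}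

theorem hull_ref : convexHull ℝ (Set.range ref) = T3 := by
  apply Subset.antisymm
  · refine convexHull_min ?_ ?_
    · rintro _ ⟨i, rfl⟩
      fin_cases i <;> simp [ref, T3] <;> norm_num
    · intro x hx y hy a b ha hb hab
      obtain ⟨x1, x2, x3⟩ := hx
      obtain ⟨y1, y2, y3⟩ := hy
      refine ⟨?_, ?_, ?_⟩
      · simp only [Prod.fst_add, Prod.smul_fst, smul_eq_mul]
        nlinarith [mul_nonneg ha (sub_nonneg.2 x1), mul_nonneg hb (sub_nonneg.2 y1)]
      · simp only [Prod.snd_add, Prod.smul_snd, smul_eq_mul]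
        nlinarith [mul_nonneg ha (sub_nonneg.2 x2), mul_nonneg hb (sub_nonneg.2 y2)]
      · simp only [Prod.fst_add, Prod.smul_fst, smul_eq_mul, Prod.snd_add, Prod.smul_snd]
        nlinarith [mul_nonneg ha (sub_nonneg.2 x3), mul_nonneg hb (sub_nonneg.2 y3)]
  · rintro x ⟨x1, x2, x3⟩
    have h0 : ref 0 ∈ convexHull ℝ (Set.range ref) := subset_convexHull _ _ ⟨0, rfl⟩
    have h1 : ref 1 ∈ convexHull ℝ (Set.range ref) := subset_convexHull _ _ ⟨1, rfl⟩
    have h2 : ref 2 ∈ convexHull ℝ (Set.range ref) := subset_convexHull _ _ ⟨2, rfl⟩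
    have key := (convex_convexHull ℝ (Set.range ref)).sum_mem (t := Finset.univ)
      (w := ![-x.1 - x.2, x.1 + 1/2, x.2 + 1/2]) (z := ref) ?_ ?_ ?_
    · have e : ∑ i : Fin 3, (![-x.1 - x.2, x.1 + 1/2, x.2 + 1/2] : Fin 3 → ℝ) i • ref i = x := by
        simp only [Fin.sum_univ_three, ref, Matrix.cons_val_zero, Matrix.cons_val_one,
          Matrix.cons_val_two, Matrix.head_cons, Matrix.tail_cons]
        refine Prod.ext ?_ ?_
        · simp only [Prod.fst_add, Prod.smul_fst, smul_eq_mul]
          ring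
        · simp only [Prod.snd_add, Prod.smul_snd, smul_eq_mul]
          ring
      rwa [e] at key
    · intro i _
      fin_cases i
      · simp; linarith
      · simp; linarith
      · simp; linarith
    · simp only [Fin.sum_univ_three, Matrix.cons_val_zero, Matrix.cons_val_one,
        Matrix.cons_val_two, Matrix.head_cons, Matrix.tail_cons]
      ring
    · intro i _
      exact subset_convexHull _ _ ⟨i, rfl⟩

theorem int_T3 : interior T3 = D0 := by
  apply Subset.antisymm
  · intro x hx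
    have e1 : x ∈ interior ((Prod.fst : P2 → ℝ) ⁻¹' Ici (-1/2)) :=
      interior_mono (fun y hy => hy.1) hx
    have e2 : x ∈ interior ((Prod.snd : P2 → ℝ) ⁻¹' Ici (-1/2)) :=
      interior_mono (fun y hy => hy.2.1) hx
    have e3 : x ∈ interior ((fun y : P2 => y.1 + y.2) ⁻¹' Iic 0) :=
      interior_mono (fun y hy => hy.2.2) hx
    rw [← isOpenMap_fst.preimage_interior_eq_interior_preimage continuous_fst, interior_Ici] at e1
    rw [← isOpenMap_snd.preimage_interior_eq_interior_preimage continuous_snd, interior_Ici] at e2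
    have ho : IsOpenMap (fun y : P2 => y.1 + y.2) := by
      have hs : Function.Surjective (ContinuousLinearMap.fst ℝ ℝ ℝ + ContinuousLinearMap.snd ℝ ℝ ℝ :
          P2 →L[ℝ] ℝ) := fun r => ⟨(r, 0), by simp⟩
      exact (ContinuousLinearMap.fst ℝ ℝ ℝ + ContinuousLinearMap.snd ℝ ℝ ℝ :
        P2 →L[ℝ] ℝ).isOpenMap hs
    have hc : Continuous (fun y : P2 => y.1 + y.2) := by fun_prop
    rw [← ho.preimage_interior_eq_interior_preimage hc, interior_Iic] at e3
    have a1 : -1/2 < x.1 := e1
    have a2 : -1/2 < x.2 := e2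
    have a3 : x.1 + x.2 < 0 := e3
    exact ⟨⟨⟨a1, by linarith⟩, a2, by linarith⟩, a3⟩
  · refine interior_maximal ?_ ?_
    · rintro x ⟨⟨⟨h1, h2⟩, h3, h4⟩, h5⟩
      exact ⟨h1.le, h3.le, h5.le⟩
    · have hD : IsOpen D := isOpen_Ioo.prod isOpen_Ioo
      have hc : Continuous (fun y : P2 => y.1 + y.2) := by fun_prop
      exact hD.inter (isOpen_lt hc continuous_const)

/-- the linear equivalence with given images of the basis vectors -/
noncomputable def linE (a b : P2) (h : det2 a b ≠ 0) : P2 ≃ₗ[ℝ] P2 where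
  toFun x := x.1 • a + x.2 • b
  invFun y := (det2 y b / det2 a b, det2 a y / det2 a b)
  map_add' x y := by
    refine Prod.ext ?_ ?_ <;>
    · simp only [Prod.fst_add, Prod.snd_add, Prod.smul_fst, Prod.smul_snd, smul_eq_mul]
      ring
  map_smul' r x := by
    refine Prod.ext ?_ ?_ <;>
    · simp only [Prod.fst_add, Prod.snd_add, Prod.smul_fst, Prod.smul_snd, smul_eq_mul,
        RingHom.id_apply]
      ring
  left_inv x := by
    refine Prod.ext ?_ ?_
    · show det2 (x.1 • a + x.2 • b) b / det2 a b = x.1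
      rw [div_eq_iff h]
      unfold det2
      simp only [Prod.fst_add, Prod.snd_add, Prod.smul_fst, Prod.smul_snd, smul_eq_mul]
      ring
    · show det2 a (x.1 • a + x.2 • b) / det2 a b = x.2
      rw [div_eq_iff h]
      unfold det2
      simp only [Prod.fst_add, Prod.snd_add, Prod.smul_fst, Prod.smul_snd, smul_eq_mul]
      ring
  right_inv y := by
    have h' : a.1 * b.2 - a.2 * b.1 ≠ 0 := h
    refine Prod.ext ?_ ?_
    · show (det2 y b / det2 a b) * a.1 + (det2 a y / det2 a b) * b.1 = y.1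
      rw [div_mul_eq_mul_div, div_mul_eq_mul_div, ← add_div, div_eq_iff h]
      unfold det2
      ring
    · show (det2 y b / det2 a b) * a.2 + (det2 a y / det2 a b) * b.2 = y.2
      rw [div_mul_eq_mul_div, div_mul_eq_mul_div, ← add_div, div_eq_iff h]
      unfold det2
      ring

theorem rot_neg_rot (c s : ℝ) (h : c ^ 2 + s ^ 2 = 1) (x : P2) :
    rot c (-s) (rot c s x) = x := by
  unfold rot
  refine Prod.ext ?_ ?_
  · simp only
    linear_combination x.1 * h
  · simp only
    linear_combination x.2 * h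

end TreAux

open TreAux in
/-- TRE -/
theorem tre (plr : PlrStatement) (rig : RigStatement) : TreStatement := by
  intro u hu
  obtain ⟨c, s, z, hcs, hz0, hz3, hz4, ha, hb⟩ := plr _ _ hu
  have hw : vw z = 0 := by
    unfold vw
    rw [hz3, hz4]
    rfl
  have har : 0 < ar z := by
    unfold ar
    rw [← WnfAux.det_rot c s hcs, ha, hb]
    exact hu
  have hdet : det2 (va z) (vb z) ≠ 0 := har.ne'
  refine ⟨z, ⟨hz0, ?_⟩, hz3, hz4, ?_⟩
  · rw [hw]
    have e1 : det2 (va z) 0 = 0 := by simp [det2]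
    have e2 : det2 0 (vb z) = 0 := by simp [det2]
    rw [e1, e2, abs_zero, add_zero]
    linarith
  obtain ⟨R, hR⟩ : ∃ R : P2 ≃ᵃ[ℝ] P2, ∀ x, R x = bz z x :=
    ⟨(linE (va z) (vb z) hdet).toAffineEquiv, fun x => by
      show x.1 • va z + x.2 • vb z = 0 + x.1 • va z + x.2 • vb z + (x.1 * x.2) • vw z
      rw [hw, smul_zero, add_zero, zero_add]⟩
  have himg : bz z '' D0 = interior (convexHull ℝ (Set.range fun i => bz z (ref i))) := by
    have h1 := RigAux.img_int R ref
    rw [hull_ref, int_T3] at h1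
    have h2 : (fun i => R (ref i)) = fun i => bz z (ref i) := funext fun i => hR _
    have h3 : (R : P2 → P2) = bz z := funext hR
    rw [h2, h3] at h1
    exact h1.symm
  rw [himg]
  refine rig 3 u (fun i => bz z (ref i)) c (-s) (-(rot c (-s) (u 0)) + bz z (ref 0))
    (by rw [neg_sq]; exact hcs) fun i => ?_
  have h01 : bz z (ref 1) = bz z (ref 0) + va z := by
    show (0 : P2) + (ref 1).1 • va z + (ref 1).2 • vb z + ((ref 1).1 * (ref 1).2) • vw z =
      (0 + (ref 0).1 • va z + (ref 0).2 • vb z + ((ref 0).1 * (ref 0).2) • vw z) + va z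
    rw [hw]
    refine Prod.ext ?_ ?_ <;>
    · simp [ref]
      ring
  have h02 : bz z (ref 2) = bz z (ref 0) + vb z := by
    show (0 : P2) + (ref 2).1 • va z + (ref 2).2 • vb z + ((ref 2).1 * (ref 2).2) • vw z =
      (0 + (ref 0).1 • va z + (ref 0).2 • vb z + ((ref 0).1 * (ref 0).2) • vw z) + vb z
    rw [hw]
    refine Prod.ext ?_ ?_ <;>
    · simp [ref]
      ring
  have ha' : va z = rot c (-s) (u 1 - u 0) := by rw [← ha, rot_neg_rot c s hcs]
  have hb' : vb z = rot c (-s) (u 2 - u 0) := by rw [← hb, rot_neg_rot c s hcs]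
  have hsub : ∀ x y : P2, rot c (-s) (x - y) = rot c (-s) x - rot c (-s) y := fun x y => by
    unfold rot
    refine Prod.ext ?_ ?_
    · simp only [Prod.fst_sub, Prod.snd_sub]; ring
    · simp only [Prod.fst_sub, Prod.snd_sub]; ring
  fin_cases i
  · show bz z (ref 0) = -(rot c (-s) (u 0)) + bz z (ref 0) + rot c (-s) (u 0)
    abel
  · show bz z (ref 1) = -(rot c (-s) (u 0)) + bz z (ref 0) + rot c (-s) (u 1)
    rw [h01, ha', hsub]
    abel
  · show bz z (ref 2) = -(rot c (-s) (u 0)) + bz z (ref 0) + rot c (-s) (u 2)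
    rw [h02, hb', hsub]
    abel

end Pool.SqDrum
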