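import Pool.Agent.Lib.MP_2805c2_an.ST.Iface

set_option autoImplicit false

/-!
# TRN: almost all convex quadrilaterals
-/

namespace Pool.SqDrum

open MeasureTheory Set Filter Topology
open scoped ENNReal ContDiff InnerProductSpace

noncomputable section

namespace TrnAux

/-- the quadrilateral with the parameters `z`, moved by a rigid motion -/
def Psi (x : Z5 × P2 × ℝ) : Fin 4 → P2 :=
  fun i => x.2.1 + rot (Real.cos x.2.2) (Real.sin x.2.2) (vz x.1 i)

theorem psi_diff (x : Z5 × P2 × ℝ) : DifferentiableAt ℝ Psi x := by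
  rw [differentiableAt_pi]
  intro i
  have hd : DifferentiableAt ℝ (fun x : Z5 × P2 × ℝ =>
      ((x.2.1.1 + (Real.cos x.2.2 *
          ((cor i).1 * (1 + x.1 0 + x.1 1) + (cor i).2 * x.1 2 + ((cor i).1 * (cor i).2) * x.1 3)
        - Real.sin x.2.2 *
          ((cor i).1 * x.1 2 + (cor i).2 * (1 + x.1 0 - x.1 1) + ((cor i).1 * (cor i).2) * x.1 4)),
        x.2.1.2 + (Real.sin x.2.2 *
          ((cor i).1 * (1 + x.1 0 + x.1 1) + (cor i).2 * x.1 2 + ((cor i).1 * (cor i).2) * x.1 3)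
        + Real.cos x.2.2 *
          ((cor i).1 * x.1 2 + (cor i).2 * (1 + x.1 0 - x.1 1) +
            ((cor i).1 * (cor i).2) * x.1 4))) : P2)) x := by
    fun_prop
  refine hd.congr_of_eventuallyEq (Eventually.of_forall fun y => ?_)
  simp only [Psi, rot, vz, bz, bil, va, vb, vw]
  ext <;> simp [Prod.fst_add, Prod.snd_add]

theorem part_eq {Ω Ω' : Set P2} (h : IsoSp Ω Ω') : Part Ω = Part Ω' := by
  ext z
  constructor
  · rintro ⟨h1, h2⟩
    exact ⟨h1, fun l => (h l).symm.trans (h2 l)⟩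
  · rintro ⟨h1, h2⟩
    exact ⟨h1, fun l => (h l).trans (h2 l)⟩

theorem exists_angle {c s : ℝ} (h : c ^ 2 + s ^ 2 = 1) :
    ∃ θ : ℝ, Real.cos θ = c ∧ Real.sin θ = s := by
  have hn : ‖(⟨c, s⟩ : ℂ)‖ = 1 := by
    rw [Complex.norm_def, Complex.normSq_mk, Real.sqrt_eq_one]
    linarith [h]
  refine ⟨Complex.arg ⟨c, s⟩, ?_, ?_⟩
  · have h0 : (⟨c, s⟩ : ℂ) ≠ 0 := by
      intro h0
      rw [h0] at hn
      simp at hn
    rw [Complex.cos_arg h0, hn, div_one]
  · rw [Complex.sin_arg, hn, div_one]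

end TrnAux

theorem trn (tzn : TznStatement) (wnf : WnfStatement) (rig : RigStatement) (cng : CngStatement)
    (nlm : NlmStatement) (wcc : WccStatement) : TrnStatement := by
  have hS : volume ({z : Z5 | z ∈ WW ∧ ¬ (Part (dom z)).Finite} ×ˢ (univ : Set (P2 × ℝ))) = 0 := by
    rw [Measure.volume_eq_prod, Measure.prod_prod, tzn, zero_mul]
  have h := nlm _ TrnAux.Psi (fun x _ => TrnAux.psi_diff x) hS
  refine measure_mono_null ?_ h
  rintro p ⟨hp, hfin⟩
  obtain ⟨c, s, t, z, hcs, hz, he⟩ := wnf p hp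
  obtain ⟨θ, rfl, rfl⟩ := TrnAux.exists_angle hcs
  obtain ⟨-, hq, -, -⟩ := wcc.2 z hz
  have hc : Cong (dom z) (quad p) := by
    rw [hq]
    exact rig 4 (vz z) p _ _ t hcs he
  have hopen : IsOpen (dom z) := by rw [hq]; exact isOpen_interior
  have hiso : IsoSp (dom z) (quad p) := cng.2.2 _ _ hopen hc
  refine ⟨(z, t, θ), ⟨⟨hz, ?_⟩, mem_univ _⟩, ?_⟩
  · show ¬ (Part (dom z)).Finite
    rw [TrnAux.part_eq hiso]
    exact hfin
  · funext i
    exact (he i).symm

end

end Pool.SqDrum
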