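import Pool.Agent.Lib.MP_2805c2_an.ST.Iface

set_option autoImplicit false

/-!
# Module TZN (helper50): almost all parameters have finitely many isospectral parameters
-/

namespace Pool.SqDrum

open MeasureTheory Set Filter Topology
open scoped ENNReal InnerProductSpace

namespace TznAux

theorem isOpen_D : IsOpen D := isOpen_Ioo.prod isOpen_Ioo

theorem cont_ar : Continuous ar := by
  unfold ar det2 va vb
  fun_prop

theorem ar_eq (z : Z5) : ar z = (1 + z 0) ^ 2 - z 1 ^ 2 - z 2 ^ 2 := by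
  unfold ar det2 va vb
  ring

theorem cont_J : Continuous fun z : Z5 => |det2 (va z) (vw z)| + |det2 (vw z) (vb z)| := by
  unfold det2 va vb vw
  fun_prop

theorem quad_open (q : Fin 4 → P2) : IsOpen (quad q) := isOpen_interior

theorem quad_bdd (q : Fin 4 → P2) : Bornology.IsBounded (quad q) := by
  unfold quad
  exact (isBounded_convexHull.2 (Set.finite_range q).isBounded).subset interior_subset

/-- isospectral sets have the same traces -/
theorem tr_iso (gsp : GspStatement) (Ω Ω' : Set P2) (h1 : IsOpen Ω) (h2 : IsOpen Ω')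
    (h3 : Bornology.IsBounded Ω) (h4 : Bornology.IsBounded Ω') (h : IsoSp Ω Ω') (m : ℕ)
    (hm : 0 < m) : Tr Ω m = Tr Ω' m := by
  rw [(gsp Ω h1 h3 m hm).1, (gsp Ω' h2 h4 m hm).1]
  refine tsum_congr fun l => ?_
  rw [h l]

end TznAux

open TznAux in
/-- **TZN** -/
theorem tzn (gan : GanStatement) (rnk : RnkStatement) (lfi : LfiStatement) (det : DetStatement)
    (zer : ZerStatement) (wop : WopStatement) (srd : SrdStatement) (tnl : TnlStatement)
    (bdd : BddStatement) (isl : IslStatement) (deg : DegStatement) (tre : TreStatement)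
    (lim : LimStatement) (cng : CngStatement) (gsp : GspStatement) (wcc : WccStatement)
    (wdf : WdfStatement) : TznStatement := by
  obtain ⟨hWo, hWc, hW0⟩ := wop
  -- the traces
  have hg := fun m : ℕ => gan D isOpen_D subset_rfl (m + 1) (Nat.succ_pos m)
  choose G hG using hg
  have hGa : ∀ m, ∀ z ∈ WW, AnalyticAt ℝ (G m) z := fun m z hz => (hG m z hz).1
  have hG0 : ∀ m, ∀ z ∈ WW, 0 ≤ G m z := fun m z hz => (hG m z hz).2.1
  have hGT : ∀ m, ∀ z ∈ WW, Tr (dom z) (m + 1) = ENNReal.ofReal (G m z) :=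
    fun m z hz => (hG m z hz).2.2
  have hdo : ∀ z ∈ WW, IsOpen (dom z) := fun z hz => by
    rw [(wcc.2 z hz).2.1]
    exact quad_open _
  have hdb : ∀ z ∈ WW, Bornology.IsBounded (dom z) := fun z hz => by
    rw [(wcc.2 z hz).2.1]
    exact quad_bdd _
  -- full rank somewhere
  obtain ⟨U, hUo, hU0, hUW, hUf⟩ := lfi
  obtain ⟨z₁, hz₁, μ, hμ⟩ := rnk U G hUo ⟨0, hU0⟩ (fun m z hz => hGa m z (hUW hz)) (by
    intro z₀ hz₀
    refine (hUf z₀ hz₀).subset ?_
    rintro z ⟨hz, h⟩
    refine ⟨hz, fun m hm => ?_⟩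
    obtain ⟨n, rfl⟩ := Nat.exists_eq_succ_of_ne_zero hm.ne'
    have e1 := hGT n z (hUW hz)
    have e2 := hGT n z₀ (hUW hz₀)
    rw [h n] at e1
    exact e1.trans e2.symm)
  set F : Z5 → Z5 := fun (x : Z5) (i : Fin 5) => G (μ i) x with hF
  set J : Z5 → ℝ := fun y => (fderiv ℝ F y).det with hJ
  have hJa : ∀ z ∈ WW, AnalyticAt ℝ J z := fun z hz =>
    (det (fun i => G (μ i)) z (fun i => hGa _ z hz)).1
  have hFa : ∀ z ∈ WW, AnalyticAt ℝ F z := fun z hz =>
    (det (fun i => G (μ i)) z (fun i => hGa _ z hz)).2.1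
  have hJ1 : J z₁ ≠ 0 :=
    (det (fun i => G (μ i)) z₁ (fun i => hGa _ z₁ (hUW hz₁))).2.2 hμ
  have hJ0 : volume {z | z ∈ WW ∧ J z = 0} = 0 := zer WW J hWo hWc hJa z₁ (hUW hz₁) hJ1
  set N : Set Z5 := {y : Z5 | (∀ i, 0 ≤ y i) ∧ ∃ z ∈ WW, z 3 = 0 ∧ z 4 = 0 ∧
    ∀ i, Tr (bz z '' D0) (μ i + 1) = ENNReal.ofReal (y i)} with hN
  have hN0 : volume N = 0 := tnl (fun i => μ i + 1) (fun i => Nat.succ_pos _)
  have hmain := srd F WW N hWo hFa hJ0 hN0
  refine measure_mono_null ?_ hmain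
  rintro z ⟨hz, hinf⟩
  refine ⟨hz, ?_⟩
  by_contra hcon
  push Not at hcon
  obtain ⟨hFN, hcr⟩ := hcon
  -- the isospectral set
  set S : Set Z5 := Part (dom z) with hS
  have hSinf : S.Infinite := hinf
  have hSW : S ⊆ WW := fun z' h => h.1
  have hSiso : ∀ z' ∈ S, IsoSp (dom z) (dom z') := fun z' h => h.2
  have hSG : ∀ z' ∈ S, ∀ m, G m z' = G m z := by
    intro z' hz' m
    have h1 := tr_iso gsp (dom z) (dom z') (hdo z hz) (hdo z' (hSW hz')) (hdb z hz)
      (hdb z' (hSW hz')) (hSiso z' hz') (m + 1) (Nat.succ_pos m)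
    rw [hGT m z hz, hGT m z' (hSW hz')] at h1
    exact ((ENNReal.ofReal_eq_ofReal_iff (hG0 m z hz) (hG0 m z' (hSW hz'))).1 h1).symm
  have hSF : ∀ z' ∈ S, F z' = F z := fun z' hz' => funext fun i => hSG z' hz' (μ i)
  obtain ⟨R, hR⟩ := bdd z hz
  have hSb : S ⊆ Metric.closedBall (0 : Z5) R := fun z' hz' => by
    rw [mem_closedBall_zero_iff]
    exact (hR z' hz').1
  obtain ⟨z', -, hacc⟩ := hSinf.exists_accPt_of_subset_isCompact
    (isCompact_closedBall (0 : Z5) R) hSb
  have hcl : z' ∈ closure S := mem_closure_iff_clusterPt.2 hacc.clusterPt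
  have har : ar z' = ar z := by
    have : S ⊆ {y | ar y = ar z} := fun y hy => (hR y hy).2
    exact closure_minimal this (isClosed_eq cont_ar continuous_const) hcl
  have harpos : 0 < ar z := (wcc.2 z hz).2.2.2
  have h0 : 0 ≤ 1 + z' 0 := by
    have : S ⊆ {y : Z5 | 0 ≤ 1 + y 0} := fun y hy => (hSW hy).1.le
    exact closure_minimal this (isClosed_le continuous_const (by fun_prop)) hcl
  have h0' : 0 < 1 + z' 0 := by
    refine lt_of_le_of_ne h0 fun h => ?_
    have h1 := ar_eq z'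
    rw [← h, har] at h1
    nlinarith [sq_nonneg (z' 1), sq_nonneg (z' 2)]
  have hle : |det2 (va z') (vw z')| + |det2 (vw z') (vb z')| ≤ 2 * ar z' := by
    have : S ⊆ {y : Z5 | |det2 (va y) (vw y)| + |det2 (vw y) (vb y)| ≤ 2 * ar y} :=
      fun y hy => (hSW hy).2.le
    exact closure_minimal this (isClosed_le cont_J (continuous_const.mul cont_ar)) hcl
  rcases lt_or_eq_of_le hle with hlt | heq
  · -- an interior accumulation point
    have hzW : z' ∈ WW := ⟨h0', hlt⟩
    have hFz : F z' = F z := by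
      have h1 : Tendsto F (𝓝[S] z') (𝓝 (F z')) :=
        (hFa z' hzW).continuousAt.tendsto.mono_left nhdsWithin_le_nhds
      have h2 : Tendsto F (𝓝[S] z') (𝓝 (F z)) := by
        refine tendsto_const_nhds.congr' ?_
        filter_upwards [self_mem_nhdsWithin] with y hy
        exact (hSF y hy).symm
      have : (𝓝[S] z').NeBot := mem_closure_iff_nhdsWithin_neBot.1 hcl
      exact tendsto_nhds_unique h1 h2
    have hJz : J z' ≠ 0 := fun h => hcr z' hzW h hFz
    have h3 := isl F z' (hFa z' hzW) hJz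
    have h4 := accPt_iff_frequently.1 hacc
    obtain ⟨y, hy, hyS⟩ := (h4.and_eventually h3).exists
    exact hy.1 (hyS (by rw [hSF y hy.2, hFz]))
  · -- a degenerate limit: a triangle
    have harp' : 0 < ar z' := by rw [har]; exact harpos
    obtain ⟨u, hu, hqu⟩ := deg z' harp' heq
    obtain ⟨z₂, hz₂, hz3, hz4, hcong⟩ := tre u hu
    rw [← hqu] at hcong
    have hiso : IsoSp (quad (vz z')) (bz z₂ '' D0) := cng.2.2 _ _ (quad_open _) hcong
    have hD0o : IsOpen D0 := by
      have h : IsOpen {x : P2 | x.1 + x.2 < 0} := isOpen_lt (by fun_prop) continuous_const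
      exact isOpen_D.inter h
    have hD0D : D0 ⊆ D := fun x hx => hx.1
    have hw := (wdf.2 z₂ hz₂ D0 hD0o hD0D).2
    have hl := lim z' S (fun m => if m = 0 then 0 else Tr (dom z) m) harp' hSW hcl (by
      intro y hy m hm
      rw [if_neg hm.ne']
      exact (tr_iso gsp (dom z) (dom y) (hdo z hz) (hdo y (hSW hy)) (hdb z hz)
        (hdb y (hSW hy)) (hSiso y hy) m hm).symm) (by
      intro m
      by_cases hm : m = 0
      · simp [hm]
      · simp only [if_neg hm]
        exact (gsp (dom z) (hdo z hz) (hdb z hz) m (Nat.pos_of_ne_zero hm)).2)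
    refine hFN ⟨fun i => hG0 (μ i) z hz, z₂, hz₂, hz3, hz4, fun i => ?_⟩
    have h5 := hl (μ i + 1) (Nat.succ_pos _)
    rw [if_neg (Nat.succ_ne_zero _)] at h5
    have h6 := tr_iso gsp _ _ (quad_open (vz z')) hw.1 (quad_bdd _) hw.2 hiso (μ i + 1)
      (Nat.succ_pos _)
    rw [← h6, h5, hGT (μ i) z hz]

end Pool.SqDrum
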