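import Pool.Agent.Lib.MP_2805c2_an.ST.Iface
import Pool.Agent.Lib.MP_2805c2_an.SQ.Trf
import Pool.Agent.Lib.MP_2805c2_an.SQ.Fsp

set_option autoImplicit false

/-!
# VTR: the change of variables as a linear equivalence
-/

namespace Pool.SqDrum

open scoped ENNReal InnerProductSpace

theorem vtr (hT : TfnStatement) (hI : TfiStatement) (hV : VanStatement) : VtrStatement := by
  intro Φ Ω Ω' hD
  obtain ⟨e, he⟩ := trf_graph hT hI hV hD
  set M := mss Ω (fun x => fderiv ℝ Φ x (1, 0)) (fun x => fderiv ℝ Φ x (0, 1)) with hM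
  set S := stf Ω (fun x => fderiv ℝ Φ x (1, 0)) (fun x => fderiv ℝ Φ x (0, 1)) with hS
  have h2 : ∀ F G : H Ω, ⟪e F, e G⟫_ℝ = ⟪(S + M) F, G⟫_ℝ := fun F G => by
    obtain ⟨h0, h1⟩ := he F G
    show ⟪(e F : LL), (e G : LL)⟫_ℝ = ⟪S F + M F, G⟫_ℝ
    rw [LL_inner, inner_add_left, ← h0, ← h1]
    ring
  have hcont : Continuous e := by
    refine AddMonoidHomClass.continuous_of_bound e (Real.sqrt ‖S + M‖) fun F => ?_
    refine le_of_sq_le_sq ?_ (by positivity)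
    have h3 : ‖e F‖ ^ 2 = ⟪(S + M) F, F⟫_ℝ := by
      rw [← real_inner_self_eq_norm_sq, h2]
    have h4 : Real.sqrt ‖S + M‖ ^ 2 = ‖S + M‖ := Real.sq_sqrt (norm_nonneg (S + M))
    rw [h3, mul_pow, h4, pow_two, ← mul_assoc]
    exact (real_inner_le_norm _ _).trans
      (mul_le_mul_of_nonneg_right ((S + M).le_opNorm F) (norm_nonneg _))
  obtain ⟨V, hVe⟩ : ∃ V : H Ω ≃L[ℝ] H Ω', ∀ F, V F = e F :=
    ⟨e.toContinuousLinearEquivOfContinuous hcont, fun F => rfl⟩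
  refine ⟨V, fun F G => ⟨?_, ?_⟩⟩
  · rw [hVe, hVe]
    exact h2 F G
  · rw [fsp_Tin, hVe, hVe]
    exact (he F G).1

end Pool.SqDrum
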