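import Pool.Agent.Lib.MP_2805c2_an.ST.Iface
import Pool.Agent.Lib.MP_2805c2_an.SQ.Ana

set_option autoImplicit false

/-!
# WAN: analyticity of the coefficients on the whole parameter space
-/

namespace Pool.SqDrum

open MeasureTheory Set Filter Topology
open scoped ENNReal ContDiff InnerProductSpace

noncomputable section

namespace WanAux

open AnaAux

theorem an_of' {f : Z5 → ℝ} (h : ContDiff ℝ ω f) (z₀ : Z5) : AnalyticAt ℝ f z₀ :=
  (contDiff_omega_iff_analyticOnNhd.1 h) z₀ (mem_univ _)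

theorem an_a0' (z₀ : Z5) : AnalyticAt ℝ a0 z₀ := by
  refine an_of' ?_ z₀
  unfold a0 det2 va vb
  simp only
  fun_prop

theorem an_a1' (z₀ : Z5) : AnalyticAt ℝ a1 z₀ := by
  refine an_of' ?_ z₀
  unfold a1 det2 va vw
  simp only
  fun_prop

theorem an_a2' (z₀ : Z5) : AnalyticAt ℝ a2 z₀ := by
  refine an_of' ?_ z₀
  unfold a2 det2 vb vw
  simp only
  fun_prop

/-- the lower bound of the Jacobian on the unit square -/
def low (z : Z5) : ℝ := a0 z - (|a1 z| + |a2 z|) / 2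

theorem low_le (z : Z5) {x : P2} (hx : x ∈ D) : low z ≤ a0 z + a1 z * x.1 + a2 z * x.2 := by
  obtain ⟨x1, x2⟩ := mem_D hx
  have t1 : |a1 z * x.1| ≤ |a1 z| / 2 := by
    rw [abs_mul]; nlinarith [abs_nonneg (a1 z), abs_nonneg x.1]
  have t2 : |a2 z * x.2| ≤ |a2 z| / 2 := by
    rw [abs_mul]; nlinarith [abs_nonneg (a2 z), abs_nonneg x.2]
  have := (abs_le.1 t1).1
  have := (abs_le.1 t2).1
  unfold low
  linarith

theorem low_pos {z : Z5} (hz : z ∈ WW) : 0 < low z := by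
  have h : |a1 z| + |a2 z| < 2 * a0 z := hz.2
  unfold low
  linarith

theorem low_cont (z₀ : Z5) : ContinuousAt low z₀ := by
  unfold low
  exact (an_a0' z₀).continuousAt.sub
    (((an_a1' z₀).continuousAt.abs.add (an_a2' z₀).continuousAt.abs).div_const 2)

theorem ev_low {z₀ : Z5} (hz : z₀ ∈ WW) : ∀ᶠ z in 𝓝 z₀, low z₀ / 2 < low z :=
  (low_cont z₀).eventually (lt_mem_nhds (by linarith [low_pos hz]))

theorem one_mem : MemLp (fun _ : P2 => (1 : ℝ)) ⊤ (volume : Measure P2) :=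
  memLp_top_const (1 : ℝ)

theorem P_mem (b : Fin 6 → ℝ) : MemLp (D.indicator (P b)) ⊤ (volume : Measure P2) :=
  memLp_top_ind D_meas (P_meas _) (by positivity) fun x hx => P_le _ hx

theorem key' {g : P2 → ℝ} (hg : Measurable g) {a0 a1 a2 c : ℝ} (hc : 0 < c) {b : Fin 6 → ℝ}
    (ha : ∀ x ∈ D, c ≤ a0 + a1 * x.1 + a2 * x.2)
    (h : ∀ x ∈ D, g x * (a0 + a1 * x.1 + a2 * x.2) = P b x) :
    (mul (D.indicator g)).comp (Jm a0 a1 a2) = L6 b := by
  set C : ℝ := |b 0| + |b 1| + |b 2| + |b 3| + |b 4| + |b 5| with hC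
  have hC0 : 0 ≤ C := by positivity
  have hgb : ∀ x ∈ D, |g x| ≤ C / c := fun x hx => by
    have h1 := ha x hx
    have h2 := h x hx
    have h3 : |g x| * (a0 + a1 * x.1 + a2 * x.2) ≤ C := by
      have : |g x| * (a0 + a1 * x.1 + a2 * x.2) = |P b x| := by
        rw [← h2, abs_mul, abs_of_nonneg (by linarith : (0:ℝ) ≤ a0 + a1 * x.1 + a2 * x.2)]
      rw [this]
      exact P_le b hx
    rw [le_div_iff₀ hc]
    nlinarith [abs_nonneg (g x)]
  have m1 : MemLp (D.indicator g) ⊤ (volume : Measure P2) :=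
    memLp_top_ind D_meas hg (by positivity) hgb
  have m2 : MemLp ((fun _ : P2 => (1 : ℝ)) + D.indicator (P ![a0 - 1, a1, a2, 0, 0, 0])) ⊤
      (volume : Measure P2) := one_mem.add (P_mem _)
  have e : D.indicator g * ((fun _ : P2 => (1 : ℝ)) +
      D.indicator (P ![a0 - 1, a1, a2, 0, 0, 0])) = D.indicator (P b) := by
    funext x
    by_cases hx : x ∈ D
    · simp only [Pi.mul_apply, Pi.add_apply, indicator_of_mem hx, ← h x hx]
      simp [P]
      left
      ring
    · simp [hx]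
  have m3 : MemLp (D.indicator g * ((fun _ : P2 => (1 : ℝ)) +
      D.indicator (P ![a0 - 1, a1, a2, 0, 0, 0]))) ⊤ (volume : Measure P2) := by
    rw [e]
    exact P_mem _
  rw [Jm_eq, mul_mul m1 m2 m3, e, mul_P]

/-- the multiplication by the Jacobian is invertible -/
theorem Jm_unit {a0 a1 a2 c : ℝ} (hc : 0 < c)
    (ha : ∀ x ∈ D, c ≤ a0 + a1 * x.1 + a2 * x.2) : IsUnit (Jm a0 a1 a2) := by
  set q : P2 → ℝ := fun x => (a0 + a1 * x.1 + a2 * x.2)⁻¹ - 1 with hq
  have hqm : Measurable q :=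
    (Continuous.measurable (by fun_prop : Continuous fun x : P2 => a0 + a1 * x.1 + a2 * x.2)).inv.sub_const 1
  have hqb : ∀ x ∈ D, |q x| ≤ c⁻¹ + 1 := fun x hx => by
    have h1 := ha x hx
    have h2 : 0 < a0 + a1 * x.1 + a2 * x.2 := by linarith
    have h3 : (a0 + a1 * x.1 + a2 * x.2)⁻¹ ≤ c⁻¹ := inv_anti₀ hc h1
    have h4 : 0 < (a0 + a1 * x.1 + a2 * x.2)⁻¹ := inv_pos.2 h2
    rw [abs_le]
    constructor <;> simp only [hq] <;> linarith [inv_pos.2 hc]
  have m1 : MemLp ((fun _ : P2 => (1 : ℝ)) + D.indicator q) ⊤ (volume : Measure P2) :=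
    one_mem.add (memLp_top_ind D_meas hqm (by positivity) hqb)
  have m2 : MemLp ((fun _ : P2 => (1 : ℝ)) + D.indicator (P ![a0 - 1, a1, a2, 0, 0, 0])) ⊤
      (volume : Measure P2) := one_mem.add (P_mem _)
  have e : ((fun _ : P2 => (1 : ℝ)) + D.indicator q) * ((fun _ : P2 => (1 : ℝ)) +
      D.indicator (P ![a0 - 1, a1, a2, 0, 0, 0])) = fun _ => 1 := by
    funext x
    by_cases hx : x ∈ D
    · have h1 := ha x hx
      have h2 : a0 + a1 * x.1 + a2 * x.2 ≠ 0 := by
        have : 0 < a0 + a1 * x.1 + a2 * x.2 := by linarith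
        exact this.ne'
      simp only [Pi.mul_apply, Pi.add_apply, indicator_of_mem hx, hq]
      have h3 : (1 : ℝ) + P ![a0 - 1, a1, a2, 0, 0, 0] x = a0 + a1 * x.1 + a2 * x.2 := by
        simp [P]
        ring
      rw [h3]
      field_simp
      ring
    · simp [hx]
  have e' : ((fun _ : P2 => (1 : ℝ)) + D.indicator (P ![a0 - 1, a1, a2, 0, 0, 0])) *
      ((fun _ : P2 => (1 : ℝ)) + D.indicator q) = fun _ => 1 := by
    rw [mul_comm, e]
  refine ⟨⟨Jm a0 a1 a2, mul ((fun _ : P2 => (1 : ℝ)) + D.indicator q), ?_, ?_⟩, rfl⟩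
  · change (Jm a0 a1 a2).comp _ = 1
    rw [Jm_eq, mul_mul m2 m1 (by rw [e']; exact one_mem), e', mul_one_fun]
  · change ContinuousLinearMap.comp _ (Jm a0 a1 a2) = 1
    rw [Jm_eq, mul_mul m1 m2 (by rw [e]; exact one_mem), e, mul_one_fun]

theorem unit_of {z : Z5} (hz : 0 < low z) : IsUnit (Jm (a0 z) (a1 z) (a2 z)) :=
  Jm_unit hz fun _ hx => low_le z hx

theorem an_Jm' (z₀ : Z5) : AnalyticAt ℝ (fun z => Jm (a0 z) (a1 z) (a2 z)) z₀ := by
  unfold Jm
  exact analyticAt_const.add (((((an_a0' z₀).sub analyticAt_const).smul analyticAt_const).add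
    ((an_a1' z₀).smul analyticAt_const)).add ((an_a2' z₀).smul analyticAt_const))

theorem an_inv' {z₀ : Z5} (hz : z₀ ∈ WW) :
    AnalyticAt ℝ (fun z => Ring.inverse (Jm (a0 z) (a1 z) (a2 z))) z₀ := by
  obtain ⟨u, hu⟩ := unit_of (low_pos hz)
  have h : AnalyticAt ℝ (Ring.inverse : (L2 →L[ℝ] L2) → (L2 →L[ℝ] L2))
      (Jm (a0 z₀) (a1 z₀) (a2 z₀)) := by
    rw [← hu]
    exact analyticAt_inverse u
  exact AnalyticAt.fun_comp (f := fun z => Jm (a0 z) (a1 z) (a2 z)) h (an_Jm' z₀)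

theorem an_L6' {z₀ : Z5} {b : Z5 → Fin 6 → ℝ} (hb : ∀ i, AnalyticAt ℝ (fun z => b z i) z₀) :
    AnalyticAt ℝ (fun z => L6 (b z)) z₀ := by
  unfold L6
  exact ((((((hb 0).smul analyticAt_const).add ((hb 1).smul analyticAt_const)).add
    ((hb 2).smul analyticAt_const)).add ((hb 3).smul analyticAt_const)).add
    ((hb 4).smul analyticAt_const)).add ((hb 5).smul analyticAt_const)

theorem an_quot' {z₀ : Z5} (hz : z₀ ∈ WW) {g : Z5 → P2 → ℝ} (hg : ∀ z, Measurable (g z))
    {b : Z5 → Fin 6 → ℝ} (hb : ∀ i, AnalyticAt ℝ (fun z => b z i) z₀)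
    (h : ∀ z x, 0 < a0 z + a1 z * x.1 + a2 z * x.2 →
      g z x * (a0 z + a1 z * x.1 + a2 z * x.2) = P (b z) x) :
    AnalyticAt ℝ (fun z => mul (D.indicator (g z))) z₀ := by
  refine ((an_L6' hb).mul (an_inv' hz)).congr ?_
  filter_upwards [ev_low hz] with z h1
  have hl : 0 < low z := by linarith [low_pos hz]
  have e := key' (hg z) hl (fun x hx => low_le z hx) fun x hx =>
    h z x (by linarith [low_le z hx])
  change L6 (b z) * Ring.inverse (Jm (a0 z) (a1 z) (a2 z)) = _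
  rw [← e]
  exact Ring.mul_inverse_cancel_right _ _ (unit_of hl)

theorem an_jc' {z₀ : Z5} (hz : z₀ ∈ WW) :
    AnalyticAt ℝ (fun z => mul (D.indicator (jc (px z) (py z)))) z₀ := by
  have hb : ∀ i, AnalyticAt ℝ (fun z => (![a0 z, a1 z, a2 z, 0, 0, 0] : Fin 6 → ℝ) i) z₀ := by
    intro i
    fin_cases i
    · exact an_a0' z₀
    · exact an_a1' z₀
    · exact an_a2' z₀
    all_goals exact analyticAt_const
  refine (an_L6' hb).congr ?_
  filter_upwards [ev_low hz] with z h1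
  have hl : 0 < low z := by linarith [low_pos hz]
  rw [← mul_P]
  congr 1
  funext x
  by_cases hx : x ∈ D
  · have := low_le z hx
    simp only [indicator_of_mem hx, jc, det_eq]
    rw [abs_of_nonneg (by linarith)]
    simp [P]
  · simp [hx]

theorem an_c11' {z₀ : Z5} (hz : z₀ ∈ WW) :
    AnalyticAt ℝ (fun z => mul (D.indicator (c11 (px z) (py z)))) z₀ := by
  refine an_quot' hz (b := fun z => ![dot2 (vb z) (vb z), 2 * dot2 (vb z) (vw z), 0,
    dot2 (vw z) (vw z), 0, 0]) (fun z => ?_) (fun i => ?_) fun z x hx => ?_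
  · unfold c11 jc dot2 det2 px py
    exact (Continuous.measurable (by fun_prop)).div (Continuous.measurable (by fun_prop))
  · fin_cases i <;> refine an_of' ?_ z₀ <;> simp only [dot2, vb, vw, Fin.zero_eta, Fin.mk_one,
      Fin.reduceFinMk, Matrix.cons_val] <;> fun_prop
  · have e : |a0 z + a1 z * x.1 + a2 z * x.2| = a0 z + a1 z * x.1 + a2 z * x.2 :=
      abs_of_pos hx
    simp only [c11, jc, det_eq, e]
    rw [div_mul_cancel₀ _ hx.ne']
    simp [P, dot2, py]
    ring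

theorem an_c12' {z₀ : Z5} (hz : z₀ ∈ WW) :
    AnalyticAt ℝ (fun z => mul (D.indicator (c12 (px z) (py z)))) z₀ := by
  refine an_quot' hz (b := fun z => ![-dot2 (va z) (vb z), -dot2 (va z) (vw z),
    -dot2 (vw z) (vb z), 0, -dot2 (vw z) (vw z), 0]) (fun z => ?_) (fun i => ?_)
    fun z x hx => ?_
  · unfold c12 jc dot2 det2 px py
    exact (Continuous.measurable (by fun_prop)).div (Continuous.measurable (by fun_prop))
  · fin_cases i <;> refine an_of' ?_ z₀ <;> simp only [dot2, va, vb, vw, Fin.zero_eta,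
      Fin.mk_one, Fin.reduceFinMk, Matrix.cons_val] <;> fun_prop
  · have e : |a0 z + a1 z * x.1 + a2 z * x.2| = a0 z + a1 z * x.1 + a2 z * x.2 :=
      abs_of_pos hx
    simp only [c12, jc, det_eq, e]
    rw [div_mul_cancel₀ _ hx.ne']
    simp [P, dot2, px, py]
    ring

theorem an_c22' {z₀ : Z5} (hz : z₀ ∈ WW) :
    AnalyticAt ℝ (fun z => mul (D.indicator (c22 (px z) (py z)))) z₀ := by
  refine an_quot' hz (b := fun z => ![dot2 (va z) (va z), 0, 2 * dot2 (va z) (vw z), 0, 0,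
    dot2 (vw z) (vw z)]) (fun z => ?_) (fun i => ?_) fun z x hx => ?_
  · unfold c22 jc dot2 det2 px py
    exact (Continuous.measurable (by fun_prop)).div (Continuous.measurable (by fun_prop))
  · fin_cases i <;> refine an_of' ?_ z₀ <;> simp only [dot2, va, vw, Fin.zero_eta, Fin.mk_one,
      Fin.reduceFinMk, Matrix.cons_val] <;> fun_prop
  · have e : |a0 z + a1 z * x.1 + a2 z * x.2| = a0 z + a1 z * x.1 + a2 z * x.2 :=
      abs_of_pos hx
    simp only [c22, jc, det_eq, e]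
    rw [div_mul_cancel₀ _ hx.ne']
    simp [P, dot2, px]
    ring

end WanAux

open WanAux in
/-- WAN: analyticity of the coefficients on `WW` -/
theorem wan : WanStatement := fun _ hz =>
  ⟨an_c11' hz, an_c12' hz, an_c22' hz, an_jc' hz⟩

end

end Pool.SqDrum
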