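import Pool.Agent.Lib.MP_2805c2_an.ST.Iface
import Pool.Agent.Lib.MP_2805c2_an.SQ.Bil

set_option autoImplicit false

/-!
# WCC: the vertices of `dom z`
-/

namespace Pool.SqDrum

open MeasureTheory Set Filter Topology

namespace WccAux

/-- the four corner Jacobians -/
theorem corners {z : Z5} (hz : z ∈ WW) :
    (0 < ar z + det2 (va z) (vw z) / 2 + det2 (vw z) (vb z) / 2) ∧
    (0 < ar z + det2 (va z) (vw z) / 2 - det2 (vw z) (vb z) / 2) ∧
    (0 < ar z - det2 (va z) (vw z) / 2 + det2 (vw z) (vb z) / 2) ∧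
    (0 < ar z - det2 (va z) (vw z) / 2 - det2 (vw z) (vb z) / 2) := by
  have h := hz.2
  have h1 := le_abs_self (det2 (va z) (vw z))
  have h2 := neg_abs_le (det2 (va z) (vw z))
  have h3 := le_abs_self (det2 (vw z) (vb z))
  have h4 := neg_abs_le (det2 (vw z) (vb z))
  refine ⟨?_, ?_, ?_, ?_⟩ <;> linarith

theorem ar_pos {z : Z5} (hz : z ∈ WW) : 0 < ar z := by
  obtain ⟨h1, -, -, h4⟩ := corners hz
  linarith

theorem ccw_vz {z : Z5} (hz : z ∈ WW) : Ccw (vz z) := by
  obtain ⟨h1, h2, h3, h4⟩ := corners hz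
  simp only [ar, det2, va, vb, vw] at h1 h2 h3 h4
  intro i j hi hj
  fin_cases i <;> fin_cases j <;> simp [Fin.ext_iff] at hi hj <;>
    simp [vz, bz, bil, cor, va, vb, vw, det2] <;> nlinarith [h1, h2, h3, h4]

end WccAux

open WccAux in
/-- WCC -/
theorem wcc (qda : QdaStatement) (qdb : QdbStatement) : WccStatement := by
  refine ⟨fun z => ⟨bq_c z, bq_a z, bq_b z, bq_w z⟩, fun z hz => ?_⟩
  have hc := ccw_vz hz
  have h1 := (qda _ hc).1
  have h5 := qdb _ hc
  have ec : qc (vz z) = 0 := bq_c z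
  have ea : qa (vz z) = va z := bq_a z
  have eb : qb (vz z) = vb z := bq_b z
  have ew : qw (vz z) = vw z := bq_w z
  rw [ec, ea, eb, ew] at h1
  rw [ea, eb] at h5
  have hdom : dom z = quad (vz z) := h1.symm
  exact ⟨hc, hdom, by rw [hdom]; exact h5, ar_pos hz⟩

end Pool.SqDrum
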