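import Mathlib
import Pool.Agent.Lib.MP_2805c2_an.ST.Iface

set_option autoImplicit false

/-!
# WCG: finitely many parameters for a congruence class
-/

namespace Pool.SqDrum

open MeasureTheory Set Filter Topology
open scoped ENNReal ContDiff InnerProductSpace

theorem wcg (cgd : CgdStatement) (ddz : DdzStatement) (wcc : WccStatement) : WcgStatement := by
  intro z hz
  let S : Equiv.Perm (Fin 4) → Set Z5 := fun π => {z' | z' ∈ WW ∧ ∀ i j,
    dot2 (vz z' i - vz z' j) (vz z' i - vz z' j) =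
      dot2 (vz z (π i) - vz z (π j)) (vz z (π i) - vz z (π j))}
  have hS : ∀ π, (S π).Finite := by
    intro π
    apply Set.Subsingleton.finite
    intro y hy y' hy'
    refine ddz y y' hy.1.1 hy'.1.1 (wcc.2 y hy.1).2.2.2 (wcc.2 y' hy'.1).2.2.2 ?_
    intro i j
    rw [hy.2 i j, hy'.2 i j]
  refine (Set.finite_iUnion hS).subset ?_
  rintro z' ⟨hz', hc⟩
  obtain ⟨h1, h2, -, -⟩ := wcc.2 z hz
  obtain ⟨h1', h2', -, -⟩ := wcc.2 z' hz'
  rw [h2, h2'] at hc
  obtain ⟨π, hπ⟩ := cgd (vz z) (vz z') h1 h1' hc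
  exact Set.mem_iUnion.2 ⟨π, hz', hπ⟩

end Pool.SqDrum
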