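import Pool.Agent.Lib.MP_2805c2_an.ST.Iface
import Pool.Agent.Lib.MP_2805c2_an.SQ.Bil

set_option autoImplicit false

/-!
# WDF: the change of variables
-/

namespace Pool.SqDrum

open MeasureTheory Set Filter Topology
open scoped ENNReal ContDiff InnerProductSpace

namespace WdfAux

theorem fd_px (z : Z5) : (fun x => fderiv ℝ (bz z) x (1, 0)) = px z := by
  funext x
  have h : fderiv ℝ (bz z) x = _ := (bil_fderiv 0 (va z) (vb z) (vw z) x).fderiv
  rw [h]
  simp [px]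

theorem fd_py (z : Z5) : (fun x => fderiv ℝ (bz z) x (0, 1)) = py z := by
  funext x
  have h : fderiv ℝ (bz z) x = _ := (bil_fderiv 0 (va z) (vb z) (vw z) x).fderiv
  rw [h]
  simp [py]

end WdfAux

open WdfAux in
/-- WDF -/
theorem wdf (wcc : WccStatement) (qda : QdaStatement) (tfn : TfnStatement) : WdfStatement := by
  refine ⟨fun z => ⟨fd_px z, fd_py z⟩, fun z hz Ω₀ hO hD => ?_⟩
  obtain ⟨ec, ea, eb, ew⟩ := wcc.1 z
  obtain ⟨hc, hdom, -, -⟩ := wcc.2 z hz
  obtain ⟨h1, h2, ⟨c, hc0, h3⟩, h4, -⟩ := qda (vz z) hc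
  rw [ec, ea, eb, ew] at h1 h2
  rw [ea, eb, ew] at h3
  have hs : ContDiff ℝ ∞ (bz z) := bil_smooth _ _ _ _
  have hdiff : Diffeo (bz z) Ω₀ (bz z '' Ω₀) :=
    { smooth := hs
      isOpen := hO
      inj := h2.mono hD
      img := rfl
      bdd := by
        have hK : IsCompact (Icc (-1/2 : ℝ) (-1/2 + 1) ×ˢ Icc (-1/2 : ℝ) (-1/2 + 1)) :=
          isCompact_Icc.prod isCompact_Icc
        have hcont : Continuous fun x : P2 => ‖fderiv ℝ (bz z) x‖ :=
          (hs.continuous_fderiv (by simp)).norm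
        obtain ⟨C, hC⟩ := hK.bddAbove_image hcont.continuousOn
        refine ⟨C, fun x hx => hC ⟨x, ?_, rfl⟩⟩
        have hxD := hD hx
        exact ⟨⟨hxD.1.1.le, hxD.1.2.le⟩, hxD.2.1.le, hxD.2.2.le⟩
      det := ⟨c, hc0, fun x hx => by
        have e1 : fderiv ℝ (bz z) x (1, 0) = px z x := congrFun (fd_px z) x
        have e2 : fderiv ℝ (bz z) x (0, 1) = py z x := congrFun (fd_py z) x
        rw [e1, e2]
        exact (h3 x (hD hx)).trans (le_abs_self _)⟩ }
  refine ⟨hdiff, (tfn _ _ _ hdiff).1, h4.subset ?_⟩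
  rw [h1]
  exact image_mono hD

end Pool.SqDrum
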