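import Pool.Agent.Lib.MP_2805c2_an.ST.Iface
import Pool.Agent.Lib.MP_2805c2_an.SQ.Ana
import Pool.Agent.Lib.MP_2805c2_an.SQ.Tfi

set_option autoImplicit false

/-!
# WFR: analyticity of the operators
-/

namespace Pool.SqDrum

open MeasureTheory Set Filter Topology
open scoped ENNReal ContDiff InnerProductSpace

noncomputable section

namespace WfrAux

/-- the closed square -/
def K : Set P2 := Icc (-1/2 : ℝ) (1/2) ×ˢ Icc (-1/2 : ℝ) (1/2)

theorem K_compact : IsCompact K := isCompact_Icc.prod isCompact_Icc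

theorem D_sub_K : D ⊆ K := by
  rintro x ⟨⟨h1, h2⟩, h3, h4⟩
  exact ⟨⟨h1.le, by linarith⟩, h3.le, by linarith⟩

/-- functions continuous on the closed square are essentially bounded on the open one -/
theorem memLp_of_cont {g : P2 → ℝ} (hm : Measurable g) (hc : ContinuousOn g K) :
    MemLp (D.indicator g) ⊤ (volume : Measure P2) := by
  obtain ⟨C, hC⟩ := K_compact.exists_bound_of_continuousOn hc
  refine memLp_top_ind AnaAux.D_meas hm (C := max C 0) (le_max_right _ _) fun x hx => ?_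
  exact (hC x (D_sub_K hx)).trans (le_max_left _ _)

theorem cut {Ω₀ : Set P2} (hΩ : MeasurableSet Ω₀) (hD : Ω₀ ⊆ D) {g : P2 → ℝ}
    (hg : MemLp (D.indicator g) ⊤ (volume : Measure P2)) :
    (mul (Ω₀.indicator (1 : P2 → ℝ))).comp (mul (D.indicator g)) = mul (Ω₀.indicator g) := by
  have e : Ω₀.indicator (1 : P2 → ℝ) * D.indicator g = Ω₀.indicator g := by
    funext x
    by_cases hx : x ∈ Ω₀
    · simp [hx, hD hx]
    · simp [hx]
  have e2 : Ω₀.indicator g = Ω₀.indicator (D.indicator g) := by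
    rw [indicator_indicator, inter_eq_left.2 hD]
  rw [mul_mul (memLp_indicator_one hΩ) hg (by rw [e, e2]; exact hg.indicator hΩ), e]

theorem isOpen_WW : IsOpen WW := by
  have c0 : Continuous fun z : Z5 => 1 + z 0 := by fun_prop
  have c1 : Continuous fun z : Z5 => |det2 (va z) (vw z)| + |det2 (vw z) (vb z)| := by
    unfold det2 va vw vb
    simp only
    fun_prop
  have c2 : Continuous fun z : Z5 => 2 * ar z := by
    unfold ar det2 va vb
    simp only
    fun_prop
  exact (isOpen_lt continuous_const c0).inter (isOpen_lt c1 c2)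

/-- the Jacobian is positive on the closed square -/
theorem jac_pos {z : Z5} (hz : z ∈ WW) {x : P2} (hx : x ∈ K) : 0 < jc (px z) (py z) x := by
  have h := hz.2
  obtain ⟨⟨x1, x2⟩, x3, x4⟩ := hx
  have h1 : |x.1| ≤ 1 / 2 := abs_le.2 ⟨by linarith, x2⟩
  have h2 : |x.2| ≤ 1 / 2 := abs_le.2 ⟨by linarith, x4⟩
  have t1 : |det2 (va z) (vw z) * x.1| ≤ |det2 (va z) (vw z)| / 2 := by
    rw [abs_mul]; nlinarith [abs_nonneg (det2 (va z) (vw z)), abs_nonneg x.1]
  have t2 : |det2 (vw z) (vb z) * x.2| ≤ |det2 (vw z) (vb z)| / 2 := by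
    rw [abs_mul]; nlinarith [abs_nonneg (det2 (vw z) (vb z)), abs_nonneg x.2]
  have s1 := (abs_le.1 t1).1
  have s2 := (abs_le.1 t2).1
  unfold jc
  rw [AnaAux.det_eq]
  refine abs_pos.2 (ne_of_gt ?_)
  unfold AnaAux.a0 AnaAux.a1 AnaAux.a2
  have h' : |det2 (va z) (vw z)| + |det2 (vw z) (vb z)| < 2 * det2 (va z) (vb z) := h
  linarith

theorem cont_jc (z : Z5) : Continuous (jc (px z) (py z)) := by
  unfold jc det2 px py
  fun_prop

theorem mem_jc (z : Z5) : MemLp (D.indicator (jc (px z) (py z))) ⊤ (volume : Measure P2) :=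
  memLp_of_cont (cont_jc z).measurable (cont_jc z).continuousOn

theorem mem_quot {z : Z5} (hz : z ∈ WW) {g : P2 → ℝ} (hg : Continuous g) :
    MemLp (D.indicator fun x => g x / jc (px z) (py z) x) ⊤ (volume : Measure P2) :=
  memLp_of_cont (hg.measurable.div (cont_jc z).measurable)
    (hg.continuousOn.div (cont_jc z).continuousOn fun _ hx => (jac_pos hz hx).ne')

theorem mem_c11 {z : Z5} (hz : z ∈ WW) :
    MemLp (D.indicator (c11 (px z) (py z))) ⊤ (volume : Measure P2) :=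
  mem_quot hz (g := fun x => dot2 (py z x) (py z x)) (by unfold dot2 py; fun_prop)

theorem mem_c12 {z : Z5} (hz : z ∈ WW) :
    MemLp (D.indicator (c12 (px z) (py z))) ⊤ (volume : Measure P2) :=
  mem_quot hz (g := fun x => -dot2 (px z x) (py z x)) (by unfold dot2 px py; fun_prop)

theorem mem_c22 {z : Z5} (hz : z ∈ WW) :
    MemLp (D.indicator (c22 (px z) (py z))) ⊤ (volume : Measure P2) :=
  mem_quot hz (g := fun x => dot2 (px z x) (px z x)) (by unfold dot2 px; fun_prop)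

/-- composition with fixed operators -/
def Phi {E F : Type} [NormedAddCommGroup E] [NormedSpace ℝ E] [NormedAddCommGroup F]
    [NormedSpace ℝ F] (A : L2 →L[ℝ] F) (B : E →L[ℝ] L2) : (L2 →L[ℝ] L2) →L[ℝ] (E →L[ℝ] F) where
  toFun S := A.comp (S.comp B)
  map_add' S T := by ext1 x; simp
  map_smul' c S := by ext1 x; simp
  cont := continuous_const.clm_comp (continuous_id.clm_comp continuous_const)

theorem an_comp {E F : Type} [NormedAddCommGroup E] [NormedSpace ℝ E] [NormedAddCommGroup F]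
    [NormedSpace ℝ F] {z₀ : Z5} {T : Z5 → L2 →L[ℝ] L2} (hT : AnalyticAt ℝ T z₀)
    (A : L2 →L[ℝ] F) (B : E →L[ℝ] L2) : AnalyticAt ℝ (fun z => A.comp ((T z).comp B)) z₀ := by
  have h : AnalyticAt ℝ (fun S : L2 →L[ℝ] L2 => Phi A B S) (T z₀) :=
    @ContinuousLinearMap.analyticAt ℝ _ (L2 →L[ℝ] L2) _ _ (E →L[ℝ] F) _ _ (Phi A B) (T z₀)
  exact AnalyticAt.fun_comp (g := fun S : L2 →L[ℝ] L2 => Phi A B S) (f := T) h hT

theorem an_cut {Ω₀ : Set P2} (hΩ : MeasurableSet Ω₀) (hD : Ω₀ ⊆ D) {z₀ : Z5} (hz : z₀ ∈ WW)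
    {g : Z5 → P2 → ℝ} (hg : ∀ z ∈ WW, MemLp (D.indicator (g z)) ⊤ (volume : Measure P2))
    (h : AnalyticAt ℝ (fun z => mul (D.indicator (g z))) z₀) :
    AnalyticAt ℝ (fun z => mul (Ω₀.indicator (g z))) z₀ := by
  refine (an_comp h (mul (Ω₀.indicator (1 : P2 → ℝ))) (ContinuousLinearMap.id ℝ L2)).congr ?_
  filter_upwards [isOpen_WW.mem_nhds hz] with z hz'
  rw [ContinuousLinearMap.comp_id]
  exact cut hΩ hD (hg z hz')

theorem mss_eq (Ω₀ : Set P2) (p q : P2 → P2) : mss Ω₀ p q =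
    (co Ω₀ 0).adjoint.comp ((mul (Ω₀.indicator (jc p q))).comp (co Ω₀ 0)) := by
  unfold mss frm
  simp only [Set.indicator_zero', tfi_mul_zero, ContinuousLinearMap.zero_comp,
    ContinuousLinearMap.comp_zero, zero_add]

end WfrAux

open WfrAux in
/-- WFR -/
theorem wfr (wan : WanStatement) : WfrStatement := by
  refine ⟨mss_eq, fun Ω₀ hΩ hD z₀ hz => ?_⟩
  obtain ⟨a11, a12, a22, aj⟩ := wan z₀ hz
  have hj := an_cut hΩ hD hz (fun z _ => mem_jc z) aj
  have h11 := an_cut hΩ hD hz (fun z hz => mem_c11 hz) a11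
  have h12 := an_cut hΩ hD hz (fun z hz => mem_c12 hz) a12
  have h22 := an_cut hΩ hD hz (fun z hz => mem_c22 hz) a22
  refine ⟨hj, ?_, ?_⟩
  · have h0 : AnalyticAt ℝ (fun _ : Z5 => mul (Ω₀.indicator (0 : P2 → ℝ))) z₀ := analyticAt_const
    unfold stf frm
    exact ((((an_comp h11 _ _).add (an_comp h12 _ _)).add (an_comp h12 _ _)).add
      (an_comp h22 _ _)).add (an_comp h0 _ _)
  · simp only [mss_eq]
    exact an_comp hj _ _

end

end Pool.SqDrum
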