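import Mathlib
import Pool.Agent.Lib.MP_2805c2_an.ST.Iface
import Pool.Agent.Lib.MP_2805c2_an.SQ.Trf

set_option autoImplicit false

/-!
# WIN: the inverse operator
-/

namespace Pool.SqDrum

open MeasureTheory Set Filter Topology
open scoped ENNReal ContDiff InnerProductSpace

noncomputable section

namespace WinAux

theorem unit_of_coer {E : Type} [NormedAddCommGroup E] [InnerProductSpace ℝ E] [CompleteSpace E]
    (A B : E →L[ℝ] E) (κ : ℝ) (hκ : 0 < κ)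
    (h : ∀ F : E, κ * ‖F‖ ^ 2 ≤ ⟪A F, F⟫_ℝ + ⟪B F, F⟫_ℝ) : IsUnit (A + B) := by
  refine ContinuousLinearMap.isUnit_of_forall_le_norm_inner_map _ (c := κ.toNNReal)
    (Real.toNNReal_pos.2 hκ) fun F => ?_
  rw [Real.coe_toNNReal κ hκ.le, _root_.add_apply, inner_add_left, mul_comm]
  exact (h F).trans (le_abs_self _)

theorem analytic_inv {E : Type} [NormedAddCommGroup E] [NormedSpace ℝ E] [CompleteSpace E]
    (S : E →L[ℝ] E) (h : IsUnit S) :
    AnalyticAt ℝ (Ring.inverse : (E →L[ℝ] E) → (E →L[ℝ] E)) S :=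
  analyticOnNhd_inverse (𝕜 := ℝ) (A := E →L[ℝ] E) S h

end WinAux

theorem win (hR : WfrStatement) (hW : WdfStatement) (hV : VanStatement) : WinStatement := by
  intro Ω₀ hO hsub
  refine ⟨fun z => Ring.inverse (stf Ω₀ (px z) (py z) + mss Ω₀ (px z) (py z)), fun z hz => ?_⟩
  have hU : IsUnit (stf Ω₀ (px z) (py z) + mss Ω₀ (px z) (py z)) := by
    obtain ⟨κ, hκ, h⟩ := trf_coer hV (hW.2 z hz Ω₀ hO hsub).1
    rw [(hW.1 z).1, (hW.1 z).2] at h
    exact WinAux.unit_of_coer _ _ κ hκ h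
  refine ⟨?_, Ring.mul_inverse_cancel _ hU, Ring.inverse_mul_cancel _ hU⟩
  obtain ⟨_, h2, h3⟩ := hR.2 Ω₀ hO.measurableSet hsub z hz
  exact AnalyticAt.comp (g := (Ring.inverse : (H Ω₀ →L[ℝ] H Ω₀) → (H Ω₀ →L[ℝ] H Ω₀)))
    (f := fun z : Z5 => stf Ω₀ (px z) (py z) + mss Ω₀ (px z) (py z))
    (WinAux.analytic_inv _ hU) (h2.add h3)

end

end Pool.SqDrum
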