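import Pool.Agent.Lib.MP_2805c2_an.ST.Iface

set_option autoImplicit false

/-!
# WOP: the parameter space is open and connected
-/

namespace Pool.SqDrum

open MeasureTheory Set Filter Topology

namespace WopAux

theorem mem_WW (z : Z5) : z ∈ WW ↔ 0 < 1 + z 0 ∧
    |(1 + z 0 + z 1) * z 4 - z 2 * z 3| + |z 3 * (1 + z 0 - z 1) - z 4 * z 2| <
      2 * ((1 + z 0 + z 1) * (1 + z 0 - z 1) - z 2 * z 2) := Iff.rfl

theorem isOpen_WW : IsOpen WW := by
  have h : WW = {z : Z5 | 0 < 1 + z 0} ∩ {z : Z5 |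
    |(1 + z 0 + z 1) * z 4 - z 2 * z 3| + |z 3 * (1 + z 0 - z 1) - z 4 * z 2| <
      2 * ((1 + z 0 + z 1) * (1 + z 0 - z 1) - z 2 * z 2)} := rfl
  rw [h]
  exact (isOpen_lt (by fun_prop) (by fun_prop)).inter (isOpen_lt (by fun_prop) (by fun_prop))

/-- scaling of `w` -/
noncomputable def p1 (z : Z5) (s : ℝ) : Z5 := ![z 0, z 1, z 2, s * z 3, s * z 4]

/-- scaling of `(σ, δ, τ)` -/
noncomputable def p2 (z : Z5) (s : ℝ) : Z5 := ![s * z 0, s * z 1, s * z 2, 0, 0]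

theorem p1_cont (z : Z5) : Continuous (p1 z) := by
  refine continuous_pi fun i => ?_
  fin_cases i <;> simp [p1] <;> fun_prop

theorem p2_cont (z : Z5) : Continuous (p2 z) := by
  refine continuous_pi fun i => ?_
  fin_cases i <;> simp [p2] <;> fun_prop

theorem p1_one (z : Z5) : p1 z 1 = z := by
  ext i
  fin_cases i <;> simp [p1]

theorem p2_zero (z : Z5) : p2 z 0 = 0 := by
  ext i
  fin_cases i <;> simp [p2]

theorem p1_zero (z : Z5) : p1 z 0 = p2 z 1 := by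
  ext i
  fin_cases i <;> simp [p1, p2]

theorem p1_mem {z : Z5} (hz : z ∈ WW) {s : ℝ} (h0 : 0 ≤ s) (h1 : s ≤ 1) : p1 z s ∈ WW := by
  obtain ⟨g1, g2⟩ := (mem_WW z).1 hz
  refine (mem_WW _).2 ⟨by simpa [p1] using g1, ?_⟩
  have e0 : p1 z s 0 = z 0 := rfl
  have e1 : p1 z s 1 = z 1 := rfl
  have e2 : p1 z s 2 = z 2 := rfl
  have e3 : p1 z s 3 = s * z 3 := rfl
  have e4 : p1 z s 4 = s * z 4 := rfl
  rw [e0, e1, e2, e3, e4]
  have f1 : (1 + z 0 + z 1) * (s * z 4) - z 2 * (s * z 3) =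
      s * ((1 + z 0 + z 1) * z 4 - z 2 * z 3) := by ring
  have f2 : (s * z 3) * (1 + z 0 - z 1) - (s * z 4) * z 2 =
      s * (z 3 * (1 + z 0 - z 1) - z 4 * z 2) := by ring
  rw [f1, f2, abs_mul, abs_mul, abs_of_nonneg h0, ← _root_.mul_add]
  refine lt_of_le_of_lt ?_ g2
  exact mul_le_of_le_one_left (by positivity) h1

theorem p2_mem {z : Z5} (hz : z ∈ WW) {s : ℝ} (h0 : 0 ≤ s) (h1 : s ≤ 1) : p2 z s ∈ WW := by
  obtain ⟨g1, g2⟩ := (mem_WW z).1 hz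
  have gA : 0 < (1 + z 0 + z 1) * (1 + z 0 - z 1) - z 2 * z 2 := by
    have := abs_nonneg ((1 + z 0 + z 1) * z 4 - z 2 * z 3)
    have := abs_nonneg (z 3 * (1 + z 0 - z 1) - z 4 * z 2)
    linarith
  have e0 : p2 z s 0 = s * z 0 := rfl
  have e1 : p2 z s 1 = s * z 1 := rfl
  have e2 : p2 z s 2 = s * z 2 := rfl
  have e3 : p2 z s 3 = 0 := rfl
  have e4 : p2 z s 4 = 0 := rfl
  refine (mem_WW _).2 ⟨?_, ?_⟩
  · rw [e0]
    have f : 1 + s * z 0 = (1 - s) + s * (1 + z 0) := by ring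
    rw [f]
    rcases h0.eq_or_lt with h | h
    · rw [← h]
      norm_num
    · have := mul_pos h g1
      linarith
  · rw [e0, e1, e2, e3, e4]
    have f : (1 + s * z 0 + s * z 1) * (1 + s * z 0 - s * z 1) - s * z 2 * (s * z 2) =
        (1 - s) ^ 2 + 2 * (s * (1 - s)) * (1 + z 0) +
          s ^ 2 * ((1 + z 0 + z 1) * (1 + z 0 - z 1) - z 2 * z 2) := by ring
    rw [f]
    have k2 : 0 ≤ 2 * (s * (1 - s)) * (1 + z 0) :=
      mul_nonneg (mul_nonneg (by norm_num) (mul_nonneg h0 (by linarith))) g1.le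
    have k : 0 < (1 - s) ^ 2 + 2 * (s * (1 - s)) * (1 + z 0) +
          s ^ 2 * ((1 + z 0 + z 1) * (1 + z 0 - z 1) - z 2 * z 2) := by
      rcases h0.eq_or_lt with h | h
      · rw [← h]
        norm_num
      · have k3 : 0 < s ^ 2 * ((1 + z 0 + z 1) * (1 + z 0 - z 1) - z 2 * z 2) :=
          mul_pos (by positivity) gA
        have k4 := sq_nonneg (1 - s)
        linarith
    simp only [mul_zero, zero_mul, sub_zero, abs_zero, add_zero]
    linarith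

theorem zero_mem : (0 : Z5) ∈ WW := by
  rw [mem_WW]
  simp

end WopAux

open WopAux in
/-- WOP -/
theorem wop : WopStatement := by
  refine ⟨isOpen_WW, isPreconnected_of_forall (0 : Z5) fun z hz => ?_, zero_mem⟩
  have hI : IsPreconnected (Icc (0 : ℝ) 1) := isPreconnected_Icc
  refine ⟨p1 z '' Icc 0 1 ∪ p2 z '' Icc 0 1, ?_, ?_, ?_, ?_⟩
  · rintro _ (⟨s, hs, rfl⟩ | ⟨s, hs, rfl⟩)
    · exact p1_mem hz hs.1 hs.2
    · exact p2_mem hz hs.1 hs.2
  · exact Or.inr ⟨0, ⟨le_rfl, zero_le_one⟩, p2_zero z⟩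
  · exact Or.inl ⟨1, ⟨zero_le_one, le_rfl⟩, p1_one z⟩
  · exact IsPreconnected.union (p1 z 0) ⟨0, ⟨le_rfl, zero_le_one⟩, rfl⟩
      ⟨1, ⟨zero_le_one, le_rfl⟩, (p1_zero z).symm⟩
      (hI.image _ (p1_cont z).continuousOn) (hI.image _ (p2_cont z).continuousOn)

end Pool.SqDrum
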