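import Pool.Agent.Lib.MP_2805c2_an.ST.Iface

set_option autoImplicit false
set_option linter.all false

/-!
# ZER: zero sets of analytic functions are null
-/

namespace Pool.SqDrum

open MeasureTheory Set Filter Topology

namespace ZerAux

/-- one variable: the zeros in an open connected set are null -/
theorem one (J : Set ℝ) (g : ℝ → ℝ) (hc : IsPreconnected J)
    (hg : ∀ t ∈ J, AnalyticAt ℝ g t) (t₁ : ℝ) (h1 : t₁ ∈ J) (hne : g t₁ ≠ 0) :
    volume {t | t ∈ J ∧ g t = 0} = 0 := by
  refine measure_null_of_locally_null _ fun t ht => ?_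
  have hana : AnalyticOnNhd ℝ g J := fun t ht => hg t ht
  rcases (hg t ht.1).eventually_eq_zero_or_eventually_ne_zero with h | h
  · exact absurd (hana.eqOn_zero_of_preconnected_of_eventuallyEq_zero hc ht.1 h h1) hne
  · refine ⟨{t | t ∈ J ∧ g t = 0} ∩ {s | s ≠ t → g s ≠ 0}, ?_, ?_⟩
    · have h2 : {s | s ≠ t → g s ≠ 0} ∈ 𝓝 t := by
        have := eventually_nhdsWithin_iff.1 h
        filter_upwards [this] with s hs hst
        exact hs hst
      exact inter_mem self_mem_nhdsWithin (mem_nhdsWithin_of_mem_nhds h2)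
    · refine measure_mono_null ?_ (measure_singleton t)
      rintro s ⟨⟨_, hs0⟩, hs⟩
      by_contra hst
      exact hs hst hs0

end ZerAux

theorem zer : ZerStatement := by
  intro W f hWo hWc hf z₁ hz₁ hne
  have hana : AnalyticOnNhd ℝ f W := fun z hz => hf z hz
  refine measure_null_of_locally_null _ fun z₀ hz₀ => ?_
  obtain ⟨r, hr, hB⟩ := Metric.isOpen_iff.1 hWo z₀ hz₀.1
  set B := Metric.ball z₀ r with hBdef
  have hBo : IsOpen B := Metric.isOpen_ball
  have hz₀B : z₀ ∈ B := Metric.mem_ball_self hr
  -- a point of `B` where `f` does not vanish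
  have hex : ∃ z₂ ∈ B, f z₂ ≠ 0 := by
    by_contra hcon
    push Not at hcon
    have h0 : f =ᶠ[𝓝 z₀] 0 := by
      filter_upwards [hBo.mem_nhds hz₀B] with z hz
      exact hcon z hz
    exact hne (hana.eqOn_zero_of_preconnected_of_eventuallyEq_zero hWc hz₀.1 h0 hz₁)
  obtain ⟨z₂, hz₂, hne₂⟩ := hex
  set v : Z5 := z₂ - z₀ with hv
  have hcont : ContinuousOn f B := fun z hz => (hf z (hB hz)).continuousAt.continuousWithinAt
  have hO : IsOpen (B ∩ f ⁻¹' {0}ᶜ) := hcont.isOpen_inter_preimage hBo isOpen_compl_singleton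
  set U : Set Z5 := B ∩ (fun z => z + v) ⁻¹' (B ∩ f ⁻¹' {0}ᶜ) with hU
  have hUo : IsOpen U := hBo.inter (hO.preimage (continuous_id.add continuous_const))
  have hz₀U : z₀ ∈ U := by
    refine ⟨hz₀B, ?_⟩
    show z₀ + v ∈ B ∩ f ⁻¹' {0}ᶜ
    have : z₀ + v = z₂ := by rw [hv]; abel
    rw [this]
    exact ⟨hz₂, hne₂⟩
  set A : Set Z5 := U \ (B ∩ f ⁻¹' {0}ᶜ) with hA
  have hAm : MeasurableSet A := hUo.measurableSet.diff hO.measurableSet
  have hAnull : volume A = 0 := by
    have key : ∀ᵐ y ∂(volume : Measure Z5), y ∈ Aᶜ := by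
      refine ae_mem_of_ae_add_linearMap_mem (𝕜 := ℝ) (LinearMap.toSpanSingleton ℝ Z5 v)
        (volume : Measure ℝ) (volume : Measure Z5) hAm.compl fun y => ?_
      rw [ae_iff]
      have hset : {a : ℝ | ¬ (y + LinearMap.toSpanSingleton ℝ Z5 v a ∈ Aᶜ)} =
          {a : ℝ | y + a • v ∈ A} := by
        ext a
        simp only [mem_setOf_eq, mem_compl_iff, not_not, LinearMap.toSpanSingleton_apply]
      rw [hset]
      by_cases hemp : ∃ t₀ : ℝ, y + t₀ • v ∈ A
      · obtain ⟨t₀, ht₀⟩ := hemp
        set J : Set ℝ := {t : ℝ | y + t • v ∈ B} with hJ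
        have hJc : IsPreconnected J := by
          refine Convex.isPreconnected ?_
          intro s hs t ht a b ha hb hab
          have hcv : Convex ℝ B := convex_ball z₀ r
          have := hcv hs ht ha hb hab
          show y + (a • s + b • t) • v ∈ B
          have e : y + (a • s + b • t) • v = a • (y + s • v) + b • (y + t • v) := by
            have : a • y + b • y = y := by rw [← add_smul, hab, one_smul]
            calc y + (a • s + b • t) • v = (a • y + b • y) + (a • s + b • t) • v := by rw [this]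
              _ = a • (y + s • v) + b • (y + t • v) := by
                rw [smul_add, smul_add, add_smul, smul_assoc, smul_assoc]
                abel
          rw [e]
          exact this
        have hg : ∀ t ∈ J, AnalyticAt ℝ (fun t : ℝ => f (y + t • v)) t := by
          intro t ht
          have h1 : AnalyticAt ℝ f (y + t • v) := hf _ (hB ht)
          have h2 : AnalyticAt ℝ (fun t : ℝ => y + t • v) t :=
            analyticAt_const.add (analyticAt_id.smul analyticAt_const)
          exact AnalyticAt.comp' h1 h2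
        have ht1 : t₀ + 1 ∈ J ∧ f (y + (t₀ + 1) • v) ≠ 0 := by
          have h3 := ht₀.1.2
          have e : y + (t₀ + 1) • v = y + t₀ • v + v := by rw [add_smul, one_smul, add_assoc]
          constructor
          · show y + (t₀ + 1) • v ∈ B
            rw [e]; exact h3.1
          · rw [e]; exact h3.2
        refine measure_mono_null ?_ (ZerAux.one J (fun t : ℝ => f (y + t • v)) hJc hg (t₀ + 1)
          ht1.1 ht1.2)
        intro t ht
        refine ⟨ht.1.1, ?_⟩
        by_contra h0
        exact ht.2 ⟨ht.1.1, h0⟩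
      · have : {a : ℝ | y + a • v ∈ A} = ∅ := by
          ext a
          simp only [mem_setOf_eq, mem_empty_iff_false, iff_false]
          intro ha
          exact hemp ⟨a, ha⟩
        rw [this, measure_empty]
    rw [ae_iff] at key
    simpa using key
  refine ⟨{z | z ∈ W ∧ f z = 0} ∩ U, inter_mem self_mem_nhdsWithin
    (mem_nhdsWithin_of_mem_nhds (hUo.mem_nhds hz₀U)), ?_⟩
  refine measure_mono_null ?_ hAnull
  rintro z ⟨⟨_, hz0⟩, hzU⟩
  exact ⟨hzU, fun h => h.2 hz0⟩

end Pool.SqDrum
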