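import Pool.Agent.Lib.MP_2805c2_an.SQ.Thm
import Pool.Agent.Lib.MP_2805c2_an.ST.Wan
import Pool.Agent.Lib.MP_2805c2_an.ST.Wfr
import Pool.Agent.Lib.MP_2805c2_an.ST.Wcc
import Pool.Agent.Lib.MP_2805c2_an.ST.Wdf
import Pool.Agent.Lib.MP_2805c2_an.ST.Win
import Pool.Agent.Lib.MP_2805c2_an.ST.Eba
import Pool.Agent.Lib.MP_2805c2_an.ST.Hsm
import Pool.Agent.Lib.MP_2805c2_an.ST.Tra
import Pool.Agent.Lib.MP_2805c2_an.ST.Vtr
import Pool.Agent.Lib.MP_2805c2_an.ST.Gan
import Pool.Agent.Lib.MP_2805c2_an.ST.Rkc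
import Pool.Agent.Lib.MP_2805c2_an.ST.Rnk
import Pool.Agent.Lib.MP_2805c2_an.ST.Gsp
import Pool.Agent.Lib.MP_2805c2_an.ST.Pse
import Pool.Agent.Lib.MP_2805c2_an.ST.Gmt
import Pool.Agent.Lib.MP_2805c2_an.ST.Cgd
import Pool.Agent.Lib.MP_2805c2_an.ST.Ddz
import Pool.Agent.Lib.MP_2805c2_an.ST.Wcg
import Pool.Agent.Lib.MP_2805c2_an.ST.Wop
import Pool.Agent.Lib.MP_2805c2_an.ST.Lfi
import Pool.Agent.Lib.MP_2805c2_an.ST.Det
import Pool.Agent.Lib.MP_2805c2_an.ST.Zer
import Pool.Agent.Lib.MP_2805c2_an.ST.Srd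
import Pool.Agent.Lib.MP_2805c2_an.ST.Tnl
import Pool.Agent.Lib.MP_2805c2_an.ST.Pcr
import Pool.Agent.Lib.MP_2805c2_an.ST.Stp
import Pool.Agent.Lib.MP_2805c2_an.ST.Bdd
import Pool.Agent.Lib.MP_2805c2_an.ST.Isl
import Pool.Agent.Lib.MP_2805c2_an.ST.Deg
import Pool.Agent.Lib.MP_2805c2_an.ST.Plr
import Pool.Agent.Lib.MP_2805c2_an.ST.Rig
import Pool.Agent.Lib.MP_2805c2_an.ST.Tre
import Pool.Agent.Lib.MP_2805c2_an.ST.Gmo
import Pool.Agent.Lib.MP_2805c2_an.ST.Gsc
import Pool.Agent.Lib.MP_2805c2_an.ST.Snd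
import Pool.Agent.Lib.MP_2805c2_an.ST.Ctr
import Pool.Agent.Lib.MP_2805c2_an.ST.Lim
import Pool.Agent.Lib.MP_2805c2_an.ST.Cng
import Pool.Agent.Lib.MP_2805c2_an.ST.Tzn
import Pool.Agent.Lib.MP_2805c2_an.ST.Wnf
import Pool.Agent.Lib.MP_2805c2_an.ST.Nlm
import Pool.Agent.Lib.MP_2805c2_an.ST.Trn
import Pool.Agent.Lib.MP_2805c2_an.ST.Enl
import Pool.Agent.Lib.MP_2805c2_an.ST.Tee

/-!
Assembly of the module theorems of stage 2 (MP_2805c2_an): for almost every convex quadrilateral only
finitely many convex quadrilaterals have the same Dirichlet spectrum.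
-/

set_option autoImplicit false

namespace Pool.SqDrum

theorem tee_all : TeeStatement := by
  have hQda : QdaStatement := Thm.tQda
  have hQdb : QdbStatement := Thm.tQdb
  have hTfn : TfnStatement := Thm.tTfn
  have hVan : VanStatement := Thm.tVan
  have hCmp : CmpStatement := Thm.tCmp
  have hInj : InjStatement := Thm.tInj
  have hDia : DiaStatement := Thm.tDia
  have hUpv : UpvStatement := Thm.tUpv
  have hTfi : TfiStatement := Thm.tTfi
  have hAre : AreStatement := Thm.tAre
  have hLoc : LocStatement := Thm.tLoc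
  have hMon : MonStatement := Thm.tMon
  have hHsd : HsdStatement := Thm.tHsd
  have hSim : SimStatement := Thm.tSim
  have hCyc : CycStatement := Thm.tCyc
  have hBrg : BrgStatement := Thm.tBrg
  have hWan : WanStatement := wan
  have hWfr : WfrStatement := wfr hWan
  have hWcc : WccStatement := wcc hQda hQdb
  have hWdf : WdfStatement := wdf hWcc hQda hTfn
  have hWin : WinStatement := win hWfr hWdf hVan
  have hEba : EbaStatement := eba hCmp hInj hDia hUpv
  have hHsm : HsmStatement := hsm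
  have hTra : TraStatement := tra
  have hVtr : VtrStatement := vtr hTfn hTfi hVan
  have hGan : GanStatement := gan hWfr hWin hEba hHsm hTra hVtr hWdf
  have hRkc : RkcStatement := rkc
  have hRnk : RnkStatement := rnk hRkc
  have hGsp : GspStatement := gsp hCmp hDia hInj hEba
  have hPse : PseStatement := pse hAre
  have hGmt : GmtStatement := gmt hGsp hPse
  have hCgd : CgdStatement := cgd hQda
  have hDdz : DdzStatement := ddz
  have hWcg : WcgStatement := wcg hCgd hDdz hWcc
  have hWop : WopStatement := wop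
  have hLfi : LfiStatement := lfi hLoc hGmt hWcg hWop hWcc
  have hDet : DetStatement := det
  have hZer : ZerStatement := zer
  have hSrd : SrdStatement := srd
  have hTnl : TnlStatement := tnl hGan
  have hPcr : PcrStatement := pcr
  have hStp : StpStatement := stp hPcr hWcc
  have hBdd : BddStatement := bdd hAre hWcc hPse hStp
  have hIsl : IslStatement := isl
  have hDeg : DegStatement := deg
  have hPlr : PlrStatement := plr
  have hRig : RigStatement := rig
  have hTre : TreStatement := tre hPlr hRig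
  have hGmo : GmoStatement := gmo hMon hHsd
  have hGsc : GscStatement := gsc hSim hGsp hPse
  have hSnd : SndStatement := snd
  have hCtr : CtrStatement := ctr
  have hLim : LimStatement := lim hGmo hGsc hSnd hCtr hWcc
  have hCng : CngStatement := cng hSim
  have hTzn : TznStatement := tzn hGan hRnk hLfi hDet hZer hWop hSrd hTnl hBdd hIsl hDeg hTre hLim hCng hGsp hWcc hWdf
  have hWnf : WnfStatement := wnf hPlr
  have hNlm : NlmStatement := nlm
  have hTrn : TrnStatement := trn hTzn hWnf hRig hCng hNlm hWcc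
  have hEnl : EnlStatement := enl
  exact tee hTrn hCyc hEnl hWnf hRig hCng hBrg hWcc hQda

end Pool.SqDrum
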