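import Pool.Agent.Lib.MP_2805c2_an.ST.Iface

set_option autoImplicit false
set_option linter.all false

/-!
# RKC: curves in level sets
-/

namespace Pool.SqDrum

open MeasureTheory Set Filter Topology

theorem rkc : RkcStatement := by
  intro r f z hr hf hli
  classical
  set A : Z5 →L[ℝ] (Fin r → ℝ) := ContinuousLinearMap.pi (fun i => fderiv ℝ (f i) z) with hA
  -- `A` is surjective
  have hsurj : LinearMap.range (A : Z5 →ₗ[ℝ] (Fin r → ℝ)) = ⊤ := by
    by_contra hne
    obtain ⟨g, hg0, hg⟩ := Submodule.exists_le_ker_of_lt_top _ (lt_top_iff_ne_top.2 hne)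
    apply hg0
    have hsum : ∀ x : Z5, ∑ i, g (Pi.single i 1) * fderiv ℝ (f i) z x = 0 := by
      intro x
      have h1 : g (A x) = 0 := hg ⟨x, rfl⟩
      have h2 : A x = ∑ i, (fderiv ℝ (f i) z x) • (Pi.single i (1 : ℝ) : Fin r → ℝ) := by
        funext j
        rw [Finset.sum_apply, Finset.sum_eq_single j]
        · simp [hA]
        · intro b _ hb
          simp [Pi.single_apply, Ne.symm hb]
        · intro h
          exact absurd (Finset.mem_univ j) h
      rw [h2, map_sum] at h1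
      rw [← h1]
      refine Finset.sum_congr rfl fun i _ => ?_
      rw [map_smul, smul_eq_mul, mul_comm]
    have h3 : ∑ i, g (Pi.single i 1) • fderiv ℝ (f i) z = 0 := by
      ext x
      rw [ContinuousLinearMap.sum_apply]
      simpa using hsum x
    have h4 := Fintype.linearIndependent_iff.1 hli _ h3
    refine LinearMap.pi_ext' fun j => ?_
    refine LinearMap.ext_ring ?_
    exact h4 j
  set K : Submodule ℝ Z5 := LinearMap.ker (A : Z5 →ₗ[ℝ] (Fin r → ℝ)) with hK
  obtain ⟨P, hP⟩ : ∃ P : Z5 →L[ℝ] K, ∀ x : K, P x = x :=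
    Submodule.ClosedComplemented.of_finiteDimensional K
  -- dimensions
  have hdimK : Module.finrank ℝ K + r = 5 := by
    have h1 : Module.finrank ℝ (LinearMap.range (A : Z5 →ₗ[ℝ] (Fin r → ℝ))) +
        Module.finrank ℝ K = Module.finrank ℝ Z5 := LinearMap.finrank_range_add_finrank_ker _
    rw [hsurj, finrank_top] at h1
    simp only [Module.finrank_fintype_fun_eq_card, Fintype.card_fin] at h1
    omega
  have hinj : Function.Injective (A.prod P : Z5 →L[ℝ] (Fin r → ℝ) × K) := by
    rw [injective_iff_map_eq_zero]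
    intro x hx
    have h1 : A x = 0 := congrArg Prod.fst hx
    have h2 : P x = 0 := congrArg Prod.snd hx
    have h3 : x ∈ K := h1
    have h4 := hP ⟨x, h3⟩
    rw [h2] at h4
    exact (congrArg Subtype.val h4).symm
  have hdim : Module.finrank ℝ Z5 = Module.finrank ℝ ((Fin r → ℝ) × K) := by
    rw [Module.finrank_prod]
    simp only [Module.finrank_fintype_fun_eq_card, Fintype.card_fin]
    omega
  let L0 : Z5 ≃ₗ[ℝ] ((Fin r → ℝ) × K) := LinearMap.linearEquivOfInjective
    ((A.prod P : Z5 →L[ℝ] (Fin r → ℝ) × K) : Z5 →ₗ[ℝ] (Fin r → ℝ) × K) hinj hdim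
  let L : Z5 ≃L[ℝ] ((Fin r → ℝ) × K) := L0.toContinuousLinearEquiv
  have hL : (L : Z5 →L[ℝ] ((Fin r → ℝ) × K)) = A.prod P := by
    ext1 x
    rfl
  -- the map
  set Θ : Z5 → (Fin r → ℝ) × K := fun x => (fun i => f i x, P x) with hΘ
  have hana : AnalyticAt ℝ Θ z := by
    refine AnalyticAt.prod ?_ (P.analyticAt z)
    rw [analyticAt_pi_iff]
    exact hf
  have hcd : ContDiffAt ℝ 1 Θ z := hana.contDiffAt
  have hder : HasFDerivAt Θ (L : Z5 →L[ℝ] ((Fin r → ℝ) × K)) z := by
    rw [hL]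
    exact (hasFDerivAt_pi.2 fun i => (hf i).differentiableAt.hasFDerivAt).prodMk P.hasFDerivAt
  have h10 : (1 : WithTop ℕ∞) ≠ 0 := one_ne_zero
  set G : (Fin r → ℝ) × K → Z5 := hcd.localInverse hder h10 with hG
  have hGcd : ContDiffAt ℝ 1 G (Θ z) := hcd.to_localInverse hder h10
  have hGz : G (Θ z) = z := hcd.localInverse_apply_image hder h10
  have hright : ∀ᶠ y in 𝓝 (Θ z), Θ (G y) = y :=
    (hcd.hasStrictFDerivAt' hder h10).eventually_right_inverse
  -- the direction
  haveI : Nontrivial K := Module.nontrivial_of_finrank_pos (R := ℝ) (by omega)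
  obtain ⟨k, hk⟩ := exists_ne (0 : K)
  set e : (Fin r → ℝ) × K := (0, k) with he
  have hcurve : Continuous (fun t : ℝ => Θ z + t • e) :=
    continuous_const.add (continuous_id.smul continuous_const)
  have hc0 : Θ z + (0 : ℝ) • e = Θ z := by rw [zero_smul, add_zero]
  have ev1 : ∀ᶠ t : ℝ in 𝓝 0, Θ (G (Θ z + t • e)) = Θ z + t • e := by
    have := hcurve.tendsto 0
    rw [hc0] at this
    exact this.eventually hright
  have ev2 : ∀ᶠ t : ℝ in 𝓝 0, DifferentiableAt ℝ G (Θ z + t • e) := by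
    have h1 : ∀ᶠ y in 𝓝 (Θ z), ContDiffAt ℝ 1 G y := hGcd.eventually (by simp)
    have := hcurve.tendsto 0
    rw [hc0] at this
    filter_upwards [this.eventually h1] with t ht
    exact ht.differentiableAt (by norm_num)
  have ev3 : ∀ᶠ t : ℝ in 𝓝 0, ∀ i, AnalyticAt ℝ (f i) (G (Θ z + t • e)) := by
    rw [Filter.eventually_all]
    intro i
    have h1 : ∀ᶠ y in 𝓝 z, AnalyticAt ℝ (f i) y := (hf i).eventually_analyticAt
    have h2 : Tendsto (fun t : ℝ => G (Θ z + t • e)) (𝓝 0) (𝓝 z) := by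
      have h3 : ContinuousAt G (Θ z) := hGcd.continuousAt
      have h4 := hcurve.tendsto 0
      rw [hc0] at h4
      have h5 := h3.tendsto.comp h4
      rw [hGz] at h5
      exact h5
    exact h2.eventually h1
  have ev1' : ∀ᶠ t : ℝ in 𝓝 0, ∀ᶠ s : ℝ in 𝓝 t, Θ (G (Θ z + s • e)) = Θ z + s • e :=
    ev1.eventually_nhds
  obtain ⟨δ, hδ, hall⟩ := Metric.eventually_nhds_iff.1 ((ev1'.and ev2).and ev3)
  refine ⟨fun t => G (Θ z + t • e), fun t => fderiv ℝ G (Θ z + t • e) e, δ, ?_, hδ, ?_, ?_⟩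
  · show G (Θ z + (0 : ℝ) • e) = z
    rw [hc0, hGz]
  · intro s hs t ht hst
    have hs' := (hall (y := s) (by rw [Real.dist_0_eq_abs, abs_lt]; exact hs)).1.1.self_of_nhds
    have ht' := (hall (y := t) (by rw [Real.dist_0_eq_abs, abs_lt]; exact ht)).1.1.self_of_nhds
    have h1 : Θ z + s • e = Θ z + t • e := by
      rw [← hs', ← ht']
      exact congrArg Θ hst
    have h2 : s • k = t • k := congrArg Prod.snd (add_left_cancel h1)
    exact smul_left_injective ℝ hk h2
  · intro t ht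
    obtain ⟨⟨h1, h2⟩, h3⟩ := hall (y := t) (by rw [Real.dist_0_eq_abs, abs_lt]; exact ht)
    have hline : HasDerivAt (fun t : ℝ => Θ z + t • e) e t := by
      simpa using ((hasDerivAt_id t).smul_const e).const_add (Θ z)
    have hφ : HasDerivAt (fun t : ℝ => G (Θ z + t • e)) (fderiv ℝ G (Θ z + t • e) e) t :=
      h2.hasFDerivAt.comp_hasDerivAt t hline
    refine ⟨hφ, fun i => ?_⟩
    have h4 : HasDerivAt (fun s : ℝ => f i (G (Θ z + s • e)))
        (fderiv ℝ (f i) (G (Θ z + t • e)) (fderiv ℝ G (Θ z + t • e) e)) t :=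
      (h3 i).differentiableAt.hasFDerivAt.comp_hasDerivAt t hφ
    have h5 : (fun s : ℝ => f i (G (Θ z + s • e))) =ᶠ[𝓝 t] fun _ => f i z := by
      filter_upwards [h1] with s hs
      have h6 := congrFun (congrArg Prod.fst hs) i
      have h7 : (Θ z + s • e).1 i = f i z := by
        show f i z + s * 0 = f i z
        rw [mul_zero, add_zero]
      rw [h7] at h6
      exact h6
    have h8 : HasDerivAt (fun s : ℝ => f i (G (Θ z + s • e))) 0 t :=
      (hasDerivAt_const t (f i z)).congr_of_eventuallyEq h5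
    exact h4.unique h8

end Pool.SqDrum
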