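import Pool.Agent.Lib.MP_2805c2_an.ST.Iface

set_option autoImplicit false
set_option linter.all false

/-!
# SND: nearby quadrilaterals contain, and are contained in, scaled copies
-/

namespace Pool.SqDrum

open MeasureTheory Set Filter Topology

namespace SndAux

/-- scaling by a positive number commutes with the interior -/
theorem int_scale (c : ℝ) (hc : 0 < c) (S : Set P2) :
    interior ((fun x => c • x) '' S) = (fun x => c • x) '' interior S := by
  have := (Homeomorph.smulOfNeZero c hc.ne' : P2 ≃ₜ P2).image_interior S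
  exact this.symm

/-- a convex set with `0` in the interior is contained in the interior of its scalings -/
theorem sub_scale (K : Set P2) (hK : Convex ℝ K) (h0 : (0 : P2) ∈ interior K) (c : ℝ)
    (hc : 1 < c) : K ⊆ (fun x => c • x) '' interior K := by
  intro x hx
  have hc0 : 0 < c := by linarith
  refine ⟨c⁻¹ • x, ?_, ?_⟩
  · have h1 : c⁻¹ • x + (1 - c⁻¹) • (0 : P2) ∈ interior K := by
      have h2 : 0 < 1 - c⁻¹ := by
        have : c⁻¹ < 1 := inv_lt_one_of_one_lt₀ hc
        linarith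
      exact hK.combo_self_interior_mem_interior hx h0 (inv_pos.2 hc0).le h2 (by ring)
    simpa using h1
  · show c • (c⁻¹ • x) = x
    rw [smul_smul, mul_inv_cancel₀ hc0.ne', one_smul]

/-- a linear functional on a hull is at most its value at some vertex -/
theorem max_vertex (v : Fin 4 → P2) (f : P2 →L[ℝ] ℝ) :
    ∃ j, ∀ x ∈ convexHull ℝ (Set.range v), f x ≤ f (v j) := by
  obtain ⟨j, hj⟩ := Finite.exists_max (fun i => f (v i))
  refine ⟨j, fun x hx => ?_⟩
  have hc : Convex ℝ {x : P2 | f x ≤ f (v j)} := by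
    intro x hx y hy a b ha hb hab
    show f (a • x + b • y) ≤ f (v j)
    rw [map_add, map_smul, map_smul, smul_eq_mul, smul_eq_mul]
    have h1 : a * f x ≤ a * f (v j) := mul_le_mul_of_nonneg_left hx ha
    have h2 : b * f y ≤ b * f (v j) := mul_le_mul_of_nonneg_left hy hb
    calc a * f x + b * f y ≤ a * f (v j) + b * f (v j) := add_le_add h1 h2
      _ = f (v j) := by rw [← add_mul, hab, one_mul]
  refine convexHull_min ?_ hc hx
  rintro _ ⟨i, rfl⟩
  exact hj i

theorem hull_sub (v v' : Fin 4 → P2) (r ε : ℝ) (hr : 0 < r) (hε : 0 < ε)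
    (hball : Metric.ball (0 : P2) r ⊆ convexHull ℝ (Set.range v))
    (hd : ∀ i, dist (v' i) (v i) < r * (ε / (1 + ε))) :
    convexHull ℝ (Set.range v) ⊆ (fun x => (1 + ε) • x) '' convexHull ℝ (Set.range v') := by
  intro x hx
  have h1e : 0 < 1 + ε := by linarith
  have h1e' : 0 < ε / (1 + ε) := by positivity
  by_contra hcon
  have hx' : (1 + ε)⁻¹ • x ∉ convexHull ℝ (Set.range v') := by
    intro h
    refine hcon ⟨_, h, ?_⟩
    show (1 + ε) • ((1 + ε)⁻¹ • x) = x
    rw [smul_smul, mul_inv_cancel₀ h1e.ne', one_smul]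
  have hcl : IsClosed (convexHull ℝ (Set.range v')) :=
    ((Set.finite_range v').isCompact_convexHull (𝕜 := ℝ)).isClosed
  obtain ⟨f, u, hfu, hux⟩ := geometric_hahn_banach_closed_point (convex_convexHull ℝ _) hcl hx'
  obtain ⟨j, hj⟩ := max_vertex v f
  have hfx : f x ≤ f (v j) := hj x hx
  -- the vertex `v' j`
  have hv'j : f (v' j) < u := hfu _ (subset_convexHull ℝ _ ⟨j, rfl⟩)
  set t : ℝ := ε / (1 + ε) with ht
  have hmem : t⁻¹ • (v j - v' j) ∈ Metric.ball (0 : P2) r := by
    rw [mem_ball_zero_iff, norm_smul, Real.norm_eq_abs, abs_of_pos (inv_pos.2 h1e')]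
    have h2 : ‖v j - v' j‖ < r * t := by
      have := hd j
      rwa [dist_comm, dist_eq_norm] at this
    calc t⁻¹ * ‖v j - v' j‖ < t⁻¹ * (r * t) := mul_lt_mul_of_pos_left h2 (inv_pos.2 h1e')
      _ = r := by field_simp
  have h3 : f (t⁻¹ • (v j - v' j)) ≤ f (v j) := hj _ (hball hmem)
  rw [map_smul, smul_eq_mul, map_sub] at h3
  have h4 : f (v j) - f (v' j) ≤ t * f (v j) := by
    have := mul_le_mul_of_nonneg_left h3 h1e'.le
    rwa [← mul_assoc, mul_inv_cancel₀ h1e'.ne', one_mul] at this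
  have h5 : f ((1 + ε)⁻¹ • x) = (1 + ε)⁻¹ * f x := by rw [map_smul, smul_eq_mul]
  rw [h5] at hux
  have h6 : (1 + ε)⁻¹ * f x ≤ (1 + ε)⁻¹ * f (v j) :=
    mul_le_mul_of_nonneg_left hfx (inv_pos.2 h1e).le
  have h7 : (1 + ε)⁻¹ = 1 - t := by
    rw [ht]
    field_simp
    ring
  rw [h7] at h6 hux
  nlinarith

end SndAux

theorem snd : SndStatement := by
  intro v h0 ε hε
  have h0' : (0 : P2) ∈ interior (convexHull ℝ (Set.range v)) := h0
  have h1e : 1 < 1 + ε := by linarith
  have h1p : 0 < 1 + ε := by linarith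
  obtain ⟨r, hr, hball⟩ := Metric.mem_nhds_iff.1 (mem_interior_iff_mem_nhds.1 h0')
  -- first inclusion
  have hopen : IsOpen ((fun x : P2 => (1 + ε) • x) '' quad v) := by
    unfold quad
    rw [← SndAux.int_scale (1 + ε) h1p]
    exact isOpen_interior
  have hconv : Convex ℝ ((fun x : P2 => (1 + ε) • x) '' quad v) :=
    (convex_convexHull ℝ (Set.range v)).interior.smul (1 + ε)
  have hv : ∀ i, v i ∈ (fun x : P2 => (1 + ε) • x) '' quad v := fun i =>
    SndAux.sub_scale _ (convex_convexHull ℝ _) h0' (1 + ε) h1e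
      (subset_convexHull ℝ _ ⟨i, rfl⟩)
  have e1 : ∀ᶠ v' : Fin 4 → P2 in 𝓝 v, ∀ i, v' i ∈ (fun x : P2 => (1 + ε) • x) '' quad v := by
    rw [Filter.eventually_all]
    intro i
    exact (continuous_apply i).continuousAt.eventually_mem (hopen.mem_nhds (hv i))
  -- second inclusion
  have ht : 0 < r * (ε / (1 + ε)) := by positivity
  have e2 : ∀ᶠ v' : Fin 4 → P2 in 𝓝 v, dist v' v < r * (ε / (1 + ε)) :=
    Metric.ball_mem_nhds v ht
  filter_upwards [e1, e2] with v' h1 h2
  constructor
  · refine interior_subset.trans (convexHull_min ?_ hconv)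
    rintro _ ⟨i, rfl⟩
    exact h1 i
  · have h3 := SndAux.hull_sub v v' r ε hr hε hball
      (fun i => (dist_le_pi_dist v' v i).trans_lt h2)
    have h4 := interior_mono h3
    rw [SndAux.int_scale (1 + ε) h1p] at h4
    exact h4

end Pool.SqDrum
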