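import Pool.Agent.Lib.MP_2805c2_an.ST.Iface

/-! # SRD: exceptional values (Sard and the area formula) -/

set_option autoImplicit false

namespace Pool.SqDrum

open MeasureTheory Set Filter Topology
open scoped ENNReal

namespace SrdAux

/-- near a point with invertible derivative the preimage of a null set is null -/
theorem local_null (F : Z5 → Z5) (W M : Set Z5) (hW : IsOpen W)
    (hF : ∀ z ∈ W, AnalyticAt ℝ F z) (hM : MeasurableSet M) (hM0 : volume M = 0) (z : Z5)
    (hz : z ∈ W) (hdet : (fderiv ℝ F z).det ≠ 0) :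
    ∃ B : Set Z5, B ∈ 𝓝 z ∧ volume (B ∩ F ⁻¹' M) = 0 := by
  have hs : HasStrictFDerivAt F
      (((fderiv ℝ F z).toContinuousLinearEquivOfDetNeZero hdet : Z5 ≃L[ℝ] Z5) : Z5 →L[ℝ] Z5) z := by
    rw [ContinuousLinearMap.coe_toContinuousLinearEquivOfDetNeZero]
    exact (hF z hz).hasStrictFDerivAt
  set e := hs.toOpenPartialHomeomorph F with he
  have hzs : z ∈ e.source := hs.mem_toOpenPartialHomeomorph_source
  have hcont : ContinuousAt (fun y => (fderiv ℝ F y).det) z :=
    (ContinuousLinearMap.continuous_det).continuousAt.comp (hF z hz).fderiv.continuousAt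
  have hev : ∀ᶠ y in 𝓝 z, (fderiv ℝ F y).det ≠ 0 := hcont.eventually_ne hdet
  obtain ⟨B, hBsub, hBo, hzB⟩ := mem_nhds_iff.1
    (inter_mem (inter_mem (e.open_source.mem_nhds hzs) (hW.mem_nhds hz)) hev)
  refine ⟨B, hBo.mem_nhds hzB, ?_⟩
  have hBW : ∀ y ∈ B, y ∈ W := fun y hy => (hBsub hy).1.2
  have hBd : ∀ y ∈ B, (fderiv ℝ F y).det ≠ 0 := fun y hy => (hBsub hy).2
  have hinj : InjOn F B := by
    intro y hy y' hy' h
    exact e.injOn (hBsub hy).1.1 (hBsub hy').1.1 h
  have hcB : ContinuousOn F B := fun y hy => (hF y (hBW y hy)).continuousAt.continuousWithinAt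
  have hmeas : MeasurableSet (B ∩ F ⁻¹' M) := by
    have h1 : B ∩ F ⁻¹' M = Subtype.val '' ((B.domRestrict F) ⁻¹' M) := by
      ext y
      constructor
      · rintro ⟨hy, hy'⟩
        exact ⟨⟨y, hy⟩, hy', rfl⟩
      · rintro ⟨⟨y', hy'⟩, h, rfl⟩
        exact ⟨hy', h⟩
    rw [h1]
    exact MeasurableSet.subtype_image hBo.measurableSet
      ((continuousOn_iff_continuous_domRestrict.1 hcB).measurable hM)
  have harea := lintegral_abs_det_fderiv_eq_addHaar_image volume hmeas
    (f := F) (f' := fun y => fderiv ℝ F y)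
    (fun y hy => ((hF y (hBW y hy.1)).differentiableAt.hasFDerivAt).hasFDerivWithinAt)
    (hinj.mono inter_subset_left)
  have h0 : volume (F '' (B ∩ F ⁻¹' M)) = 0 := by
    refine measure_mono_null ?_ hM0
    rintro _ ⟨y, hy, rfl⟩
    exact hy.2
  rw [h0] at harea
  by_contra hne
  have hpos : 0 < ∫⁻ y in B ∩ F ⁻¹' M, ENNReal.ofReal |(fderiv ℝ F y).det| ∂volume := by
    have hmf : Measurable fun y => ENNReal.ofReal |(fderiv ℝ F y).det| :=
      ENNReal.measurable_ofReal.comp (continuous_abs.measurable.comp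
        (ContinuousLinearMap.continuous_det.measurable.comp (measurable_fderiv ℝ F)))
    refine (setLIntegral_pos_iff hmf).2 (lt_of_lt_of_le (pos_iff_ne_zero.2 hne) ?_)
    refine measure_mono fun y hy => ⟨?_, hy⟩
    rw [Function.mem_support]
    exact (ENNReal.ofReal_pos.2 (abs_pos.2 (hBd y hy.1))).ne'
  rw [harea] at hpos
  exact lt_irrefl _ hpos

end SrdAux

theorem srd : SrdStatement := by
  intro F W N hW hF hJ hN
  set J0 : Set Z5 := {z | z ∈ W ∧ (fderiv ℝ F z).det = 0} with hJ0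
  have hsard : volume (F '' J0) = 0 := by
    refine addHaar_image_eq_zero_of_det_fderivWithin_eq_zero volume
      (f' := fun y => fderiv ℝ F y)
      (fun y hy => ((hF y hy.1).differentiableAt.hasFDerivAt).hasFDerivWithinAt) (fun y hy => hy.2)
  have hN' : volume (N ∪ F '' J0) = 0 := measure_union_null hN hsard
  set M := toMeasurable volume (N ∪ F '' J0) with hM
  have hM0 : volume M = 0 := by rw [hM, measure_toMeasurable]; exact hN'
  have hMm : MeasurableSet M := measurableSet_toMeasurable _ _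
  have hsub : N ∪ F '' J0 ⊆ M := subset_toMeasurable _ _
  have hreg : volume {z | z ∈ W ∧ (fderiv ℝ F z).det ≠ 0 ∧ F z ∈ M} = 0 := by
    refine measure_null_of_locally_null _ ?_
    rintro z ⟨hzW, hdet, hzM⟩
    obtain ⟨B, hB, hB0⟩ := SrdAux.local_null F W M hW hF hMm hM0 z hzW hdet
    refine ⟨B ∩ F ⁻¹' M, ?_, hB0⟩
    rw [mem_nhdsWithin_iff_exists_mem_nhds_inter]
    refine ⟨B, hB, ?_⟩
    rintro y ⟨hyB, hy⟩
    exact ⟨hyB, hy.2.2⟩
  refine measure_mono_null ?_ (measure_union_null hJ hreg)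
  rintro z ⟨hzW, hz⟩
  by_cases hdet : (fderiv ℝ F z).det = 0
  · exact Or.inl ⟨hzW, hdet⟩
  · refine Or.inr ⟨hzW, hdet, ?_⟩
    rcases hz with hz | ⟨z', hz'W, hz'd, hz'⟩
    · exact hsub (Or.inl hz)
    · exact hsub (Or.inr ⟨z', ⟨hz'W, hz'd⟩, hz'⟩)

end Pool.SqDrum
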